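import Pool.Agent.LibSH29.Rk

/-!
# Rank functions: basics (row C1)
Counting arguments with `Finset.card` on `Fin n`; `rr_succ` (in `Rk.lean`) and induction on `j` do
most of the work.
-/

set_option autoImplicit false

namespace SH

variable {n : ℕ}

/-- `#{b < j : w b < a}` -/
def dd (w : Equiv.Perm (Fin n)) (a j : ℕ) : ℕ :=
  (Finset.univ.filter fun b : Fin n => b.val < j ∧ (w b).val < a).card

private theorem card_val_lt {j : ℕ} (hj : j ≤ n) :
    (Finset.univ.filter fun b : Fin n => b.val < j).card = j := by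
  rw [Finset.card_filter, Fin.sum_univ_eq_sum_range (fun i => if i < j then 1 else 0) n,
    ← Finset.card_filter]
  have h : (Finset.range n).filter (fun i => i < j) = Finset.range j := by
    ext i
    simp only [Finset.mem_filter, Finset.mem_range]
    omega
  rw [h, Finset.card_range]

private theorem card_le_Ico_val (P : Fin n → Prop) [DecidablePred P] (a b : ℕ)
    (h : ∀ i, P i → a ≤ i.val ∧ i.val < b) : (Finset.univ.filter P).card ≤ b - a := by
  have h1 : (Finset.univ.filter P).card ≤ (Finset.Ico a b).card := by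
    refine Finset.card_le_card_of_injOn (fun i : Fin n => i.val) ?_ ?_
    · intro i hi
      have h2 := h i (Finset.mem_filter.1 hi).2
      exact Finset.mem_coe.2 (Finset.mem_Ico.2 h2)
    · intro i _ i' _ h2
      exact Fin.ext h2
  rwa [Nat.card_Ico] at h1

private theorem card_le_Ico_perm (w : Equiv.Perm (Fin n)) (P : Fin n → Prop) [DecidablePred P]
    (a b : ℕ) (h : ∀ i, P i → a ≤ (w i).val ∧ (w i).val < b) :
    (Finset.univ.filter P).card ≤ b - a := by
  have h1 : (Finset.univ.filter P).card ≤ (Finset.Ico a b).card := by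
    refine Finset.card_le_card_of_injOn (fun i : Fin n => (w i).val) ?_ ?_
    · intro i hi
      have h2 := h i (Finset.mem_filter.1 hi).2
      exact Finset.mem_coe.2 (Finset.mem_Ico.2 h2)
    · intro i _ i' _ h2
      exact w.injective (Fin.ext h2)
  rwa [Nat.card_Ico] at h1

theorem rr_add_dd (w : Equiv.Perm (Fin n)) (a : ℕ) {j : ℕ} (hj : j ≤ n) :
    rr w a j + dd w a j = j := by
  have h1 : (Finset.univ.filter fun b : Fin n => b.val < j ∧ a ≤ (w b).val) =
      (Finset.univ.filter fun b : Fin n => b.val < j).filter fun b => a ≤ (w b).val := by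
    rw [Finset.filter_filter]
  have h2 : (Finset.univ.filter fun b : Fin n => b.val < j ∧ (w b).val < a) =
      (Finset.univ.filter fun b : Fin n => b.val < j).filter fun b => ¬ a ≤ (w b).val := by
    rw [Finset.filter_filter]
    simp only [not_le]
  unfold rr dd
  rw [h1, h2, Finset.card_filter_add_card_filter_not]
  exact card_val_lt hj

theorem rr_mono (w : Equiv.Perm (Fin n)) {a a' j j' : ℕ} (ha : a' ≤ a) (hj : j ≤ j') :
    rr w a j ≤ rr w a' j' := by
  refine Finset.card_le_card fun b hb => ?_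
  have h := (Finset.mem_filter.1 hb).2
  exact Finset.mem_filter.2 ⟨Finset.mem_univ _, lt_of_lt_of_le h.1 hj, ha.trans h.2⟩

theorem dd_mono (w : Equiv.Perm (Fin n)) {a a' j j' : ℕ} (ha : a ≤ a') (hj : j ≤ j') :
    dd w a j ≤ dd w a' j' := by
  refine Finset.card_le_card fun b hb => ?_
  have h := (Finset.mem_filter.1 hb).2
  exact Finset.mem_filter.2 ⟨Finset.mem_univ _, lt_of_lt_of_le h.1 hj, lt_of_lt_of_le h.2 ha⟩

/-- at most `a' - a` values and `j - j'` positions are lost -/
theorem rr_lip (w : Equiv.Perm (Fin n)) (a j a' j' : ℕ) :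
    rr w a j ≤ rr w a' j' + (a' - a) + (j - j') := by
  classical
  have h1 : (Finset.univ.filter fun b : Fin n => b.val < j ∧ a ≤ (w b).val) ⊆
      ((Finset.univ.filter fun b : Fin n => b.val < j' ∧ a' ≤ (w b).val) ∪
        (Finset.univ.filter fun b : Fin n => a ≤ (w b).val ∧ (w b).val < a')) ∪
        (Finset.univ.filter fun b : Fin n => j' ≤ b.val ∧ b.val < j) := by
    intro b hb
    have h := (Finset.mem_filter.1 hb).2
    simp only [Finset.mem_union, Finset.mem_filter, Finset.mem_univ, true_and]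
    omega
  have h2 := card_le_Ico_perm w (fun b : Fin n => a ≤ (w b).val ∧ (w b).val < a') a a'
    fun i hi => hi
  have h3 := card_le_Ico_val (fun b : Fin n => j' ≤ b.val ∧ b.val < j) j' j fun i hi => hi
  have h4 := Finset.card_le_card h1
  have h5 := h4.trans (Finset.card_union_le _ _)
  have h6 := Finset.card_union_le
    (Finset.univ.filter fun b : Fin n => b.val < j' ∧ a' ≤ (w b).val)
    (Finset.univ.filter fun b : Fin n => a ≤ (w b).val ∧ (w b).val < a')
  unfold rr
  omega

theorem rr_ge (w : Equiv.Perm (Fin n)) (a : ℕ) {j : ℕ} (hj : j ≤ n) : j - a ≤ rr w a j := by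
  have h1 := rr_add_dd w a hj
  have h2 := card_le_Ico_perm w (fun b : Fin n => b.val < j ∧ (w b).val < a) 0 a
    fun i hi => ⟨Nat.zero_le _, hi.2⟩
  unfold dd at h1
  omega

theorem rr_le_left (w : Equiv.Perm (Fin n)) (a j : ℕ) : rr w a j ≤ j :=
  card_le_Ico_val (fun b : Fin n => b.val < j ∧ a ≤ (w b).val) 0 j
    fun _ hi => ⟨Nat.zero_le _, hi.1⟩

theorem rr_le_right (w : Equiv.Perm (Fin n)) (a j : ℕ) : rr w a j ≤ n - a :=
  card_le_Ico_perm w (fun b : Fin n => b.val < j ∧ a ≤ (w b).val) a n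
    fun i hi => ⟨hi.2, (w i).isLt⟩

theorem rr_of_ge (w : Equiv.Perm (Fin n)) (a : ℕ) {j : ℕ} (hj : n ≤ j) :
    rr w a j = rr w a n := by
  refine le_antisymm (Finset.card_le_card fun b hb => ?_) (rr_mono w le_rfl hj)
  have h := (Finset.mem_filter.1 hb).2
  exact Finset.mem_filter.2 ⟨Finset.mem_univ _, b.isLt, h.2⟩

theorem rr_n (w : Equiv.Perm (Fin n)) (a : ℕ) : rr w a n = n - a :=
  le_antisymm (rr_le_right w a n) (rr_ge w a le_rfl)

theorem rr_zero_left (w : Equiv.Perm (Fin n)) {j : ℕ} (hj : j ≤ n) : rr w 0 j = j :=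
  le_antisymm (rr_le_left w 0 j) (rr_ge w 0 hj)

theorem rr_one (a : ℕ) {j : ℕ} (hj : j ≤ n) : rr (1 : Equiv.Perm (Fin n)) a j = j - a :=
  le_antisymm
    (card_le_Ico_val (fun b : Fin n => b.val < j ∧ a ≤ ((1 : Equiv.Perm (Fin n)) b).val) a j
      fun _ hi => ⟨hi.2, hi.1⟩) (rr_ge _ a hj)

theorem le_iff {v w : Equiv.Perm (Fin n)} :
    v ≤ w ↔ ∀ a ≤ n, ∀ j ≤ n, rr v a j ≤ rr w a j := by
  refine ⟨fun h a _ j _ => h a j, fun h => le_def.2 fun a j => ?_⟩
  by_cases ha : a ≤ n
  · by_cases hj : j ≤ n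
    · exact h a ha j hj
    · rw [rr_of_ge v a (not_le.1 hj).le, rr_of_ge w a (not_le.1 hj).le]
      exact h a ha n le_rfl
  · have h1 := rr_le_right v a j
    omega

theorem le_iff_dd {v w : Equiv.Perm (Fin n)} :
    v ≤ w ↔ ∀ a ≤ n, ∀ j ≤ n, dd w a j ≤ dd v a j := by
  rw [le_iff]
  refine ⟨fun h a ha j hj => ?_, fun h a ha j hj => ?_⟩
  · have h1 := h a ha j hj
    have h2 := rr_add_dd v a hj
    have h3 := rr_add_dd w a hj
    omega
  · have h1 := h a ha j hj
    have h2 := rr_add_dd v a hj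
    have h3 := rr_add_dd w a hj
    omega

theorem dd_inj {v w : Equiv.Perm (Fin n)} (h : ∀ a ≤ n, ∀ j ≤ n, dd v a j = dd w a j) :
    v = w :=
  le_antisymm (le_iff_dd.2 fun a ha j hj => (h a ha j hj).ge)
    (le_iff_dd.2 fun a ha j hj => (h a ha j hj).le)

instance instOrderBotPerm : OrderBot (Equiv.Perm (Fin n)) where
  bot := 1
  bot_le w := by
    refine le_iff.2 fun a _ j hj => ?_
    rw [rr_one a hj]
    exact rr_ge w a hj

theorem bot_eq : (⊥ : Equiv.Perm (Fin n)) = 1 := rfl

theorem dd_inv (w : Equiv.Perm (Fin n)) (a j : ℕ) : dd w⁻¹ a j = dd w j a := by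
  unfold dd
  refine Finset.card_bij (fun b _ => w⁻¹ b) (fun b hb => ?_) (fun b _ b' _ h => ?_)
    (fun c hc => ?_)
  · have h := (Finset.mem_filter.1 hb).2
    refine Finset.mem_filter.2 ⟨Finset.mem_univ _, h.2, ?_⟩
    have h1 : w (w⁻¹ b) = b := w.apply_symm_apply b
    rw [h1]
    exact h.1
  · exact (w⁻¹).injective h
  · have h := (Finset.mem_filter.1 hc).2
    have h1 : w⁻¹ (w c) = c := w.symm_apply_apply c
    refine ⟨w c, Finset.mem_filter.2 ⟨Finset.mem_univ _, h.2, ?_⟩, h1⟩
    rw [h1]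
    exact h.1

theorem rr_inv (w : Equiv.Perm (Fin n)) {a j : ℕ} (ha : a ≤ n) (hj : j ≤ n) :
    rr w⁻¹ a j + a = rr w j a + j := by
  have h1 := rr_add_dd w⁻¹ a hj
  have h2 := rr_add_dd w j ha
  rw [dd_inv] at h1
  omega

/-- `w₀ w⁻¹ w₀` -/
def flip (w : Equiv.Perm (Fin n)) : Equiv.Perm (Fin n) :=
  (Fin.revPerm.trans w.symm).trans Fin.revPerm

theorem flip_flip (w : Equiv.Perm (Fin n)) : flip (flip w) = w := by
  ext i
  simp [flip]

theorem rr_flip (w : Equiv.Perm (Fin n)) {a j : ℕ} (ha : a ≤ n) (hj : j ≤ n) :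
    rr (flip w) a j = rr w (n - j) (n - a) := by
  have hf : ∀ b, flip w b = Fin.rev (w.symm (Fin.rev b)) := fun b => rfl
  unfold rr
  refine Finset.card_bij (fun b _ => w.symm (Fin.rev b)) (fun b hb => ?_) (fun b _ b' _ h => ?_)
    (fun c hc => ?_)
  · have h := (Finset.mem_filter.1 hb).2
    rw [hf, Fin.val_rev] at h
    refine Finset.mem_filter.2 ⟨Finset.mem_univ _, ?_, ?_⟩
    · have h1 := (w.symm (Fin.rev b)).isLt
      omega
    · rw [Equiv.apply_symm_apply, Fin.val_rev]
      have h1 := b.isLt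
      omega
  · exact Fin.rev_injective (w.symm.injective h)
  · have h := (Finset.mem_filter.1 hc).2
    refine ⟨Fin.rev (w c), Finset.mem_filter.2 ⟨Finset.mem_univ _, ?_, ?_⟩, ?_⟩
    · rw [Fin.val_rev]
      have h1 := (w c).isLt
      omega
    · rw [hf, Fin.rev_rev, Equiv.symm_apply_apply, Fin.val_rev]
      have h1 := c.isLt
      omega
    · rw [Fin.rev_rev, Equiv.symm_apply_apply]

/-- an element different from `1` -/
theorem exists_rr_pos {x : Equiv.Perm (Fin n)} (hx : x ≠ 1) :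
    ∃ i, 1 ≤ i ∧ i < n ∧ 1 ≤ rr x i i := by
  by_contra h
  have h0 : ∀ i, i ≤ n → rr x i i = 0 := by
    intro i hi
    by_cases h1 : 1 ≤ i
    · by_cases h2 : i < n
      · by_contra h3
        exact h ⟨i, h1, h2, by omega⟩
      · have h3 := rr_le_right x i i
        omega
    · have h3 := rr_le_left x i i
      omega
  refine hx (le_antisymm (le_iff.2 fun a ha j hj => ?_) bot_le)
  rw [rr_one a hj]
  by_cases h1 : j ≤ a
  · have h2 := rr_mono x h1 (le_refl j)
    have h3 := h0 j hj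
    omega
  · have h2 := rr_lip x a j a a
    have h3 := h0 a ha
    omega

end SH
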