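import Pool.Agent.LibSH29.C1

/-!
# The chain property (row C10)

`x < y`. Let `j` be the first place where `x` and `y` differ: `x j < y j` (compare `rr _ a (j+1)`).
Let `k` be the first place `> j` with `x j < x k ≤ y j` (the value `y j` is taken by `x` at a place
`> j`). `x' = x * swap j k`. No value between `x j` and `x k` is taken by `x` between the places `j`
and `k`, so `len x' = len x + 1`. `x < x'` is clear. `x' ≤ y`: `rr x' a m = rr x a m + 1` if
`j < m ≤ k` (as number of positions: `j.val + 1 ≤ m ≤ k.val`) and `x j < a ≤ x k`, and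
`= rr x a m` otherwise; in the first case
`rr x a m = #{b < j : a ≤ x b ≤ y j} + rr x (y j + 1) m` (the places from `j` to `m - 1` have no value
in `(x j, y j]`) `≤ #{b < j : a ≤ y b ≤ y j} + rr y (y j + 1) m < rr y a m` (the place `j`).
-/

set_option autoImplicit false

namespace SH

variable {n : ℕ}

/-- the length as a sum of values of the rank function -/
theorem c10_len_eq (w : Equiv.Perm (Fin n)) :
    len w = ∑ m : Fin n, rr w (w m).val m.val := by
  unfold len rr
  rw [Finset.card_filter, Fintype.sum_prod_type_right]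
  · refine Finset.sum_congr rfl fun m _ => ?_
    rw [Finset.card_filter]
    refine Finset.sum_congr rfl fun b _ => ?_
    congr 1
    apply propext
    constructor
    · rintro ⟨h1, h2⟩
      exact ⟨h1, Fin.le_def.1 h2.le⟩
    · rintro ⟨h1, h2⟩
      refine ⟨h1, ?_⟩
      have h1' : b < m := h1
      have hne : w m ≠ w b := fun h => absurd (w.injective h) (ne_of_gt h1')
      exact lt_of_le_of_ne (Fin.le_def.2 h2) hne

/-- the rank function after an exchange of two values -/
theorem c10_rr_swap (x : Equiv.Perm (Fin n)) {j k : Fin n} (hjk : j < k) (hx : x j < x k) (a : ℕ)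
    {m : ℕ} (hm : m ≤ n) :
    rr (x * Equiv.swap j k) a m =
      rr x a m + if j.val < m ∧ m ≤ k.val ∧ (x j).val < a ∧ a ≤ (x k).val then 1 else 0 := by
  have hjk' : j.val < k.val := hjk
  have hx' : (x j).val < (x k).val := hx
  induction m with
  | zero => simp [rr_zero]
  | succ m ih =>
    have hmn : m < n := by omega
    have h1 := rr_succ (x * Equiv.swap j k) a ⟨m, hmn⟩
    have h2 := rr_succ x a ⟨m, hmn⟩
    simp only at h1 h2
    rw [h1, h2, ih (by omega)]
    rw [Equiv.Perm.mul_apply]
    by_cases hj : (⟨m, hmn⟩ : Fin n) = j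
    · rw [hj, Equiv.swap_apply_left]
      have hjv : m = j.val := congrArg Fin.val hj
      split_ifs <;> omega
    · by_cases hk : (⟨m, hmn⟩ : Fin n) = k
      · rw [hk, Equiv.swap_apply_right]
        have hkv : m = k.val := congrArg Fin.val hk
        split_ifs <;> omega
      · rw [Equiv.swap_apply_of_ne_of_ne hj hk]
        have hj' : m ≠ j.val := fun h => hj (Fin.ext h)
        have hk' : m ≠ k.val := fun h => hk (Fin.ext h)
        split_ifs <;> omega

/-- `rr x a m - rr x a' m` only changes at places with value in `[a, a')` -/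
theorem c10_step (x : Equiv.Perm (Fin n)) {a a' j m : ℕ} (hjm : j ≤ m) (hm : m ≤ n)
    (h : ∀ b : Fin n, j ≤ b.val → b.val < m → (a ≤ (x b).val ↔ a' ≤ (x b).val)) :
    rr x a m + rr x a' j = rr x a j + rr x a' m := by
  induction m, hjm using Nat.le_induction with
  | base => omega
  | succ m hjm ih =>
    have h1 := rr_succ x a ⟨m, hm⟩
    have h2 := rr_succ x a' ⟨m, hm⟩
    simp only at h1 h2
    have h3 := h ⟨m, hm⟩ hjm (Nat.lt_succ_self m)
    have h4 := ih (by omega) fun b hb1 hb2 => h b hb1 (by omega)
    rw [h1, h2]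
    split_ifs <;> omega

theorem c10_step_le (x : Equiv.Perm (Fin n)) {a a' j m : ℕ} (ha : a ≤ a') (hjm : j ≤ m)
    (hm : m ≤ n) : rr x a j + rr x a' m ≤ rr x a m + rr x a' j := by
  induction m, hjm using Nat.le_induction with
  | base => omega
  | succ m hjm ih =>
    have h1 := rr_succ x a ⟨m, hm⟩
    have h2 := rr_succ x a' ⟨m, hm⟩
    simp only at h1 h2
    have h4 := ih (by omega)
    rw [h1, h2]
    split_ifs <;> omega

theorem c10_len (x : Equiv.Perm (Fin n)) {j k : Fin n} (hjk : j < k) (hx : x j < x k)
    (hmin : ∀ b : Fin n, j < b → b < k → x b < x j ∨ x k < x b) :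
    len (x * Equiv.swap j k) = len x + 1 := by
  have hjk' : j.val < k.val := hjk
  have hx' : (x j).val < (x k).val := hx
  rw [c10_len_eq, c10_len_eq]
  have hne : j ≠ k := ne_of_lt hjk
  have hsplit : ∀ f : Fin n → ℕ, ∑ m, f m = f j + f k + ∑ m ∈ (Finset.univ.erase j).erase k, f m := by
    intro f
    rw [← Finset.add_sum_erase Finset.univ f (Finset.mem_univ j),
      ← Finset.add_sum_erase (Finset.univ.erase j) f
        (Finset.mem_erase.2 ⟨hne.symm, Finset.mem_univ k⟩), add_assoc]
  rw [hsplit, hsplit]
  have hrest : ∑ m ∈ (Finset.univ.erase j).erase k,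
      rr (x * Equiv.swap j k) ((x * Equiv.swap j k) m).val m.val =
      ∑ m ∈ (Finset.univ.erase j).erase k, rr x (x m).val m.val := by
    refine Finset.sum_congr rfl fun m hm => ?_
    have hmk : m ≠ k := (Finset.mem_erase.1 hm).1
    have hmj : m ≠ j := (Finset.mem_erase.1 (Finset.mem_erase.1 hm).2).1
    rw [c10_rr_swap x hjk hx _ m.2.le, Equiv.Perm.mul_apply,
      Equiv.swap_apply_of_ne_of_ne hmj hmk]
    have hif : ¬ (j.val < m.val ∧ m.val ≤ k.val ∧ (x j).val < (x m).val ∧
        (x m).val ≤ (x k).val) := by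
      rintro ⟨h1, h2, h3, h4⟩
      have h5 : m.val ≠ k.val := fun h => hmk (Fin.ext h)
      rcases hmin m h1 (by omega) with h6 | h6
      · have : (x m).val < (x j).val := h6
        omega
      · have : (x k).val < (x m).val := h6
        omega
    rw [if_neg hif, add_zero]
  rw [hrest]
  rw [c10_rr_swap x hjk hx _ j.2.le, c10_rr_swap x hjk hx _ k.2.le, Equiv.Perm.mul_apply,
    Equiv.Perm.mul_apply, Equiv.swap_apply_left, Equiv.swap_apply_right]
  rw [if_neg (by omega), if_neg (by omega)]
  have h1 := rr_succ x (x j).val j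
  have h2 := rr_succ x (x k).val j
  rw [if_pos le_rfl] at h1
  rw [if_neg (by omega)] at h2
  have h3 := c10_step x (a := (x j).val) (a' := (x k).val) (j := j.val + 1) (m := k.val)
    (by omega) k.2.le (by
      intro b hb1 hb2
      rcases hmin b (show j.val < b.val by omega) (show b.val < k.val from hb2) with h6 | h6
      · have : (x b).val < (x j).val := h6
        omega
      · have : (x k).val < (x b).val := h6
        omega)
  omega

theorem chain {x y : Equiv.Perm (Fin n)} (h : x < y) :
    ∃ x', x < x' ∧ x' ≤ y ∧ len x' = len x + 1 := by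
  have hxy : ∀ a j : ℕ, rr x a j ≤ rr y a j := le_def.1 h.le
  -- the first place where `x` and `y` differ
  obtain ⟨j, hj, hjmin⟩ : ∃ j : Fin n, x j ≠ y j ∧ ∀ b, b < j → x b = y b := by
    have hne : (Finset.univ.filter fun b : Fin n => x b ≠ y b).Nonempty := by
      by_contra hc
      rw [Finset.not_nonempty_iff_eq_empty, Finset.filter_eq_empty_iff] at hc
      exact h.ne (Equiv.ext fun b => not_not.1 (hc (Finset.mem_univ b)))
    obtain ⟨j, hj, hmin⟩ := Finset.exists_min_image _ (fun b : Fin n => b) hne
    refine ⟨j, (Finset.mem_filter.1 hj).2, fun b hb => ?_⟩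
    by_contra hc
    exact absurd (hmin b (Finset.mem_filter.2 ⟨Finset.mem_univ b, hc⟩)) (not_le.2 hb)
  have hrj : ∀ a m, m ≤ j.val → rr x a m = rr y a m := by
    intro a m hm
    induction m with
    | zero => simp [rr_zero]
    | succ m ih =>
      have hmn : m < n := by have := j.2; omega
      have h1 := rr_succ x a ⟨m, hmn⟩
      have h2 := rr_succ y a ⟨m, hmn⟩
      simp only at h1 h2
      rw [h1, h2, ih (by omega), hjmin ⟨m, hmn⟩ (show m < j.val by omega)]
  have hlt : (x j).val < (y j).val := by
    have h1 := rr_succ x (x j).val j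
    have h2 := rr_succ y (x j).val j
    rw [if_pos le_rfl] at h1
    have h3 := hxy (x j).val (j.val + 1)
    have h4 := hrj (x j).val j.val le_rfl
    have h5 : (x j).val ≤ (y j).val := by
      by_contra hc
      rw [if_neg hc] at h2
      omega
    have h6 : (x j).val ≠ (y j).val := fun h => hj (Fin.ext h)
    omega
  -- the place `k`
  obtain ⟨k, hjk, hk1, hk2, hkmin⟩ : ∃ k : Fin n, j < k ∧ (x j).val < (x k).val ∧
      (x k).val ≤ (y j).val ∧ ∀ b, j < b → b < k →
        ¬ ((x j).val < (x b).val ∧ (x b).val ≤ (y j).val) := by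
    have hne : (Finset.univ.filter fun b : Fin n => j < b ∧ (x j).val < (x b).val ∧
        (x b).val ≤ (y j).val).Nonempty := by
      refine ⟨x.symm (y j), Finset.mem_filter.2 ⟨Finset.mem_univ _, ?_, ?_, ?_⟩⟩
      · by_contra hc
        rcases (not_lt.1 hc).lt_or_eq with h1 | h1
        · have h2 := hjmin _ h1
          rw [Equiv.apply_symm_apply] at h2
          exact absurd (y.injective h2) (ne_of_gt h1)
        · have h2 : x (x.symm (y j)) = x j := by rw [h1]
          rw [Equiv.apply_symm_apply] at h2
          exact hj h2.symm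
      · rw [Equiv.apply_symm_apply]; exact hlt
      · rw [Equiv.apply_symm_apply]
    obtain ⟨k, hk, hmin⟩ := Finset.exists_min_image _ (fun b : Fin n => b) hne
    obtain ⟨-, hk1, hk2, hk3⟩ := Finset.mem_filter.1 hk
    refine ⟨k, hk1, hk2, hk3, fun b hb1 hb2 hc => ?_⟩
    exact absurd (hmin b (Finset.mem_filter.2 ⟨Finset.mem_univ b, hb1, hc⟩)) (not_le.2 hb2)
  have hjk' : j.val < k.val := hjk
  have hxk : x j < x k := hk1
  refine ⟨x * Equiv.swap j k, lt_of_le_of_ne ?_ ?_, ?_, ?_⟩
  · rw [le_iff]
    intro a _ m hm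
    rw [c10_rr_swap x hjk hxk a hm]
    exact Nat.le_add_right _ _
  · intro he
    have h1 : (x * Equiv.swap j k) j = x j := by rw [← he]
    rw [Equiv.Perm.mul_apply, Equiv.swap_apply_left] at h1
    rw [h1] at hk1
    exact lt_irrefl _ hk1
  · rw [le_iff]
    intro a _ m hm
    rw [c10_rr_swap x hjk hxk a hm]
    by_cases hc : j.val < m ∧ m ≤ k.val ∧ (x j).val < a ∧ a ≤ (x k).val
    · rw [if_pos hc]
      obtain ⟨c1, c2, c3, c4⟩ := hc
      have e1 := c10_step x (a := a) (a' := (y j).val + 1) (j := j.val) (m := m) (by omega) hm (by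
        intro b hb1 hb2
        by_cases hbj : b = j
        · rw [hbj]; omega
        · have hbj' : b.val ≠ j.val := fun h => hbj (Fin.ext h)
          have := hkmin b (show j.val < b.val by omega) (show b.val < k.val by omega)
          omega)
      have e2 := rr_succ y a j
      have e3 := rr_succ y ((y j).val + 1) j
      rw [if_pos (by omega)] at e2
      rw [if_neg (by omega)] at e3
      have e4 := c10_step_le y (a := a) (a' := (y j).val + 1) (j := j.val + 1) (m := m) (by omega)
        (by omega) hm
      have e5 := hrj a j.val le_rfl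
      have e6 := hrj ((y j).val + 1) j.val le_rfl
      have e7 := hxy ((y j).val + 1) m
      omega
    · rw [if_neg hc, add_zero]
      exact hxy a m
  · refine c10_len x hjk hxk fun b hb1 hb2 => ?_
    have h1 := hkmin b hb1 hb2
    have h2 : x b ≠ x j := fun h => absurd (x.injective h) (ne_of_gt hb1)
    have h2' : (x b).val ≠ (x j).val := fun h => h2 (Fin.ext h)
    by_cases h3 : (x b).val < (x j).val
    · exact Or.inl h3
    · refine Or.inr (show (x k).val < (x b).val from ?_)
      omega

end SH
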