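import Pool.Agent.LibSH29.C10

/-!
# The length is determined by the poset (row C11)
-/

set_option autoImplicit false

namespace SH

/-- induction on the number of elements of the interval (or on `∑ (rr y - rr x)`) with `chain` -/
theorem len_lt {n : ℕ} {x y : Equiv.Perm (Fin n)} (h : x < y) : len x < len y := by
  induction x using WellFoundedGT.induction with
  | ind x ih =>
    obtain ⟨x', h1, h2, h3⟩ := chain h
    rcases h2.eq_or_lt with h4 | h4
    · rw [← h4]; omega
    · have := ih x' h1 h4; omega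

/-- the last step of a chain from `1` to `y` -/
theorem exists_lower {n : ℕ} {y : Equiv.Perm (Fin n)} (h : y ≠ 1) : ∃ x < y, len x + 1 = len y := by
  have key : ∀ x : Equiv.Perm (Fin n), x < y → ∃ z < y, len z + 1 = len y := by
    intro x
    induction x using WellFoundedGT.induction with
    | ind x ih =>
      intro hx
      obtain ⟨x', h1, h2, h3⟩ := chain hx
      rcases h2.eq_or_lt with h4 | h4
      · exact ⟨x, hx, by rw [← h4, h3]⟩
      · exact ih x' h1 h4
  exact key 1 (bot_lt_iff_ne_bot.2 h)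

theorem c11_len_one {n : ℕ} : len (1 : Equiv.Perm (Fin n)) = 0 := by
  unfold len
  rw [Finset.card_eq_zero, Finset.filter_eq_empty_iff]
  rintro ⟨a, b⟩ - ⟨h1, h2⟩
  exact absurd h1 (not_lt.2 (le_of_lt (by simpa using h2)))

theorem c11_one {n m : ℕ} {w : Equiv.Perm (Fin n)} {w' : Equiv.Perm (Fin m)}
    (φ : Set.Iic w ≃o Set.Iic w') (x : Set.Iic w) (hx : x.1 = 1) : (φ x).1 = 1 := by
  have h1 : ∀ {k : ℕ} (z : Equiv.Perm (Fin k)), 1 ≤ z := fun z => bot_le
  have hb : x ≤ φ.symm ⟨1, h1 w'⟩ := by
    have : x.1 ≤ (φ.symm ⟨1, h1 w'⟩).1 := by rw [hx]; exact h1 _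
    exact this
  have h2 : φ x ≤ ⟨1, h1 w'⟩ := by
    have h3 := φ.monotone hb
    rwa [OrderIso.apply_symm_apply] at h3
  have h3 : (φ x).1 ≤ 1 := h2
  exact le_antisymm h3 (h1 _)

/-- Strong induction on `x`: if `len x < len (φ x)` then `exists_lower` gives `y' < φ x` with
`len y' ≥ len x`; `y = φ⁻¹ y' < x` and `len y = len y'` contradict `len_lt`. The same for `>`;
`x = 1 ↔ φ x = 1` (bottom elements), `len 1 = 0`. -/
theorem len_eq {n m : ℕ} {w : Equiv.Perm (Fin n)} {w' : Equiv.Perm (Fin m)}
    (φ : Set.Iic w ≃o Set.Iic w') (x : Set.Iic w) : len (φ x).1 = len x.1 := by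
  induction x using WellFoundedLT.induction with
  | ind x ih =>
    by_cases hx : x.1 = 1
    · rw [c11_one φ x hx, hx, c11_len_one, c11_len_one]
    · have hx' : (φ x).1 ≠ 1 := by
        intro h
        have h1 := c11_one φ.symm (φ x) h
        rw [OrderIso.symm_apply_apply] at h1
        exact hx h1
      obtain ⟨y, hy, hy'⟩ := exists_lower hx
      obtain ⟨z, hz, hz'⟩ := exists_lower hx'
      have h1 : (⟨y, hy.le.trans x.2⟩ : Set.Iic w) < x := hy
      have h2 := ih _ h1
      have h3 : (φ ⟨y, hy.le.trans x.2⟩).1 < (φ x).1 := φ.strictMono h1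
      have h4 := len_lt h3
      have h5 : (⟨z, hz.le.trans (φ x).2⟩ : Set.Iic w') < φ x := hz
      have h6 : φ.symm ⟨z, hz.le.trans (φ x).2⟩ < x := by
        have := φ.symm.strictMono h5
        rwa [OrderIso.symm_apply_apply] at this
      have h7 := ih _ h6
      rw [OrderIso.apply_symm_apply] at h7
      have h8 : (φ.symm ⟨z, hz.le.trans (φ x).2⟩).1 < x.1 := h6
      have h9 := len_lt h8
      simp only at h2 h7
      omega

end SH
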