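import Pool.Agent.LibSH29.C1

/-!
# Permutations with a given rank function (row C2)

Plan: `m a j := f a (j+1) + f (a+1) j - f a j - f (a+1) (j+1)` is `≥ 0`. For every `j < n` the sum
over `a < n` of `m a j` telescopes to `(f 0 (j+1) - f 0 j) - (f n (j+1) - f n j) = 1`, so exactly
one `a` has `m a j = 1`, the others `0`; the same for every `a` (`f a n - f a 0 - f (a+1) n +
f (a+1) 0 = 1`). So `j ↦ a` is a bijection `x`. Finally `f a j = ∑_{j' < j} ∑_{a' ≥ a} m a' j'`
(telescoping) `= #{j' < j : a ≤ x j'}`. Work in `ℤ`.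
-/

set_option autoImplicit false

namespace SH

/-- A nonincreasing integer sequence on `[0, n]` from `1` to `0` is a threshold function. -/
private theorem threshold {n : ℕ} (g : ℕ → ℤ) (h0 : g 0 = 1) (hn : g n = 0)
    (hg : ∀ a < n, g (a + 1) ≤ g a) :
    ∃ b : ℕ, b < n ∧ ∀ a ≤ n, g a = if a ≤ b then 1 else 0 := by
  have hanti : ∀ a b : ℕ, a ≤ b → b ≤ n → g b ≤ g a := by
    intro a b hab
    induction b, hab using Nat.le_induction with
    | base => intro _; exact le_rfl
    | succ b _ ih =>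
      intro hb
      exact (hg b (by omega)).trans (ih (by omega))
  have hex : ∃ a, a ≤ n ∧ g a = 0 := ⟨n, le_rfl, hn⟩
  have hk := Nat.find_spec hex
  have hkmin : ∀ a, a < Nat.find hex → ¬ (a ≤ n ∧ g a = 0) := fun a ha => Nat.find_min hex ha
  set k := Nat.find hex with hkdef
  have hk0 : k ≠ 0 := by
    intro h
    rw [h, h0] at hk
    exact one_ne_zero hk.2
  refine ⟨k - 1, by omega, ?_⟩
  intro a ha
  by_cases hak : a ≤ k - 1
  · rw [if_pos hak]
    have h1 : g a ≤ 1 := by
      rw [← h0]
      exact hanti 0 a (Nat.zero_le _) ha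
    have h2 : 0 ≤ g a := by
      rw [← hn]
      exact hanti a n ha le_rfl
    have h3 : g a ≠ 0 := fun h => hkmin a (by omega) ⟨ha, h⟩
    omega
  · rw [if_neg hak]
    have h1 : g a ≤ 0 := by
      rw [← hk.2]
      exact hanti k a (by omega) ha
    have h2 : 0 ≤ g a := by
      rw [← hn]
      exact hanti a n ha le_rfl
    omega

theorem exists_of_rank {n : ℕ} (f : ℕ → ℕ → ℕ) (h0 : ∀ a ≤ n, f a 0 = 0) (hn : ∀ j ≤ n, f n j = 0)
    (h1 : ∀ j ≤ n, f 0 j = j) (h2 : ∀ a ≤ n, f a n = n - a)
    (hm : ∀ a < n, ∀ j < n, f a j + f (a + 1) (j + 1) ≤ f a (j + 1) + f (a + 1) j) :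
    ∃ x : Equiv.Perm (Fin n), ∀ a ≤ n, ∀ j ≤ n, rr x a j = f a j := by
  have hb : ∀ j : Fin n, ∃ b : Fin n, ∀ a ≤ n,
      (f a (j.val + 1) : ℤ) - f a j.val = if a ≤ b.val then 1 else 0 := by
    intro j
    obtain ⟨b, hbn, hb⟩ := threshold (n := n) (fun a => (f a (j.val + 1) : ℤ) - f a j.val)
      (by
        have := j.isLt
        rw [h1 _ (by omega), h1 _ (by omega)]
        push_cast
        ring)
      (by
        have := j.isLt
        rw [hn _ (by omega), hn _ (by omega)]
        simp)
      (by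
        intro a ha
        have := hm a ha j.val j.isLt
        omega)
    exact ⟨⟨b, hbn⟩, hb⟩
  choose b hb using hb
  have hsum : ∀ a ≤ n, ∑ j : Fin n, (if a ≤ (b j).val then (1 : ℤ) else 0) = (n : ℤ) - a := by
    intro a ha
    have h3 : ∑ j : Fin n, (if a ≤ (b j).val then (1 : ℤ) else 0) =
        ∑ j : Fin n, ((f a (j.val + 1) : ℤ) - f a j.val) :=
      Finset.sum_congr rfl fun j _ => (hb j a ha).symm
    rw [h3, Fin.sum_univ_eq_sum_range (fun j => (f a (j + 1) : ℤ) - f a j) n,
      Finset.sum_range_sub (fun j => (f a j : ℤ)) n, h2 a ha, h0 a ha]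
    omega
  have hsurj : Function.Surjective b := by
    intro a
    by_contra hcon
    push Not at hcon
    have ha := a.isLt
    have h3 := hsum a.val (by omega)
    have h4 := hsum (a.val + 1) (by omega)
    have h5 : ∑ j : Fin n, (if a.val ≤ (b j).val then (1 : ℤ) else 0) =
        ∑ j : Fin n, (if a.val + 1 ≤ (b j).val then (1 : ℤ) else 0) := by
      apply Finset.sum_congr rfl
      intro j _
      have h6 : (b j).val ≠ a.val := fun h => hcon j (Fin.ext h)
      by_cases h7 : a.val ≤ (b j).val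
      · rw [if_pos h7, if_pos (by omega)]
      · rw [if_neg h7, if_neg (by omega)]
    rw [h3, h4] at h5
    push_cast at h5
    omega
  have hbij : Function.Bijective b := ⟨Finite.injective_iff_surjective.2 hsurj, hsurj⟩
  refine ⟨Equiv.ofBijective b hbij, ?_⟩
  intro a ha j
  induction j with
  | zero => intro _; rw [rr_zero, h0 a ha]
  | succ j ih =>
    intro hj
    have h3 := ih (by omega)
    have h4 := rr_succ (Equiv.ofBijective b hbij) a (⟨j, by omega⟩ : Fin n)
    have h5 := hb ⟨j, by omega⟩ a ha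
    simp only [Equiv.ofBijective_apply] at h4
    rw [h4, h3]
    simp only at h5
    by_cases h6 : a ≤ (b ⟨j, by omega⟩).val
    · rw [if_pos h6] at h5 ⊢
      omega
    · rw [if_neg h6] at h5 ⊢
      omega

end SH
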