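import Pool.Agent.LibSH29.C2

/-!
# The join irreducible permutations `β` (row C3)

`IsBeta x p b c`: block swap, one-line notation `1 … p, p+c+1 … p+c+b, p+1 … p+c, …` (1-based).
`exists_beta`: use `exists_of_rank` with the formula (checked by computer for `n ≤ 6`), the
conditions are `omega` (split the `max` first if it is slow), or define the permutation directly.
`IsBeta.le_iff`: `→` evaluate at `(p + c, p + b)`; `←` by `le_iff`, `rr_ge` and `rr_lip`.
-/

set_option autoImplicit false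

namespace SH

variable {n : ℕ}

/-- block swap with window `p, …, p + b + c - 1` -/
def IsBeta (x : Equiv.Perm (Fin n)) (p b c : ℕ) : Prop :=
  1 ≤ b ∧ 1 ≤ c ∧ p + b + c ≤ n ∧
    ∀ a j, a ≤ n → j ≤ n → rr x a j = max (j - a) (b - (a - (p + c)) - (p + b - j))

theorem exists_beta {p b c : ℕ} (hb : 1 ≤ b) (hc : 1 ≤ c) (h : p + b + c ≤ n) :
    ∃ x : Equiv.Perm (Fin n), IsBeta x p b c := by
  obtain ⟨x, hx⟩ := exists_of_rank (n := n)
    (fun a j => max (j - a) (b - (a - (p + c)) - (p + b - j)))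
    (by
        intro a ha
        try dsimp only
        omega)
    (by
        intro j hj
        try dsimp only
        omega)
    (by
        intro j hj
        try dsimp only
        omega)
    (by
        intro a ha
        try dsimp only
        omega)
    (by
        intro a ha j hj
        try dsimp only
        omega)
  exact ⟨x, hb, hc, h, fun a j ha hj => hx a ha j hj⟩

theorem IsBeta.le_iff {β x : Equiv.Perm (Fin n)} {p b c : ℕ} (hβ : IsBeta β p b c) :
    β ≤ x ↔ b ≤ rr x (p + c) (p + b) := by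
  obtain ⟨hb, hc, hn, hr⟩ := hβ
  constructor
  · intro h
    have h1 := SH.le_iff.1 h (p + c) (by omega) (p + b) (by omega)
    rw [hr (p + c) (p + b) (by omega) (by omega)] at h1
    omega
  · intro h
    rw [SH.le_iff]
    intro a ha j hj
    rw [hr a j ha hj]
    have h1 := rr_ge x a hj
    have h2 := rr_lip x (p + c) (p + b) a j
    omega

theorem IsBeta.unique {x y : Equiv.Perm (Fin n)} {p b c : ℕ} (hx : IsBeta x p b c)
    (hy : IsBeta y p b c) : x = y := by
  apply le_antisymm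
  · rw [SH.le_iff]
    intro a ha j hj
    rw [hx.2.2.2 a j ha hj, hy.2.2.2 a j ha hj]
  · rw [SH.le_iff]
    intro a ha j hj
    rw [hx.2.2.2 a j ha hj, hy.2.2.2 a j ha hj]

/-- with `p = j - b`, `c = a - p`, `b = rr x a j` -/
theorem exists_beta_of_lt (x : Equiv.Perm (Fin n)) {a j : ℕ} (ha : a ≤ n) (hj : j ≤ n)
    (h : j - a < rr x a j) :
    ∃ (p b c : ℕ) (β : Equiv.Perm (Fin n)), IsBeta β p b c ∧ p + c = a ∧ p + b = j ∧
      b = rr x a j := by
  have h1 := rr_le_left x a j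
  have h2 := rr_le_right x a j
  obtain ⟨β, hβ⟩ := exists_beta (n := n) (p := j - rr x a j) (b := rr x a j)
    (c := a - (j - rr x a j)) (by omega) (by omega) (by omega)
  exact ⟨_, _, _, β, hβ, by omega, by omega, rfl⟩

/-- `s_i ≤ x`, `1 ≤ i < n` -/
def AA (i : ℕ) (x : Equiv.Perm (Fin n)) : Prop := 1 ≤ rr x i i

/-- `s_i s_(i+1) ≤ x`, `1 ≤ i`, `i + 1 < n` -/
def UU (i : ℕ) (x : Equiv.Perm (Fin n)) : Prop := 2 ≤ rr x i (i + 1)

/-- `s_(i+1) s_i ≤ x`, `1 ≤ i`, `i + 1 < n` -/
def VV (i : ℕ) (x : Equiv.Perm (Fin n)) : Prop := 1 ≤ rr x (i + 1) i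

theorem IsBeta.AA_iff {x : Equiv.Perm (Fin n)} {p b c : ℕ} (hx : IsBeta x p b c) {i : ℕ}
    (hi : i ≤ n) : AA i x ↔ p + 1 ≤ i ∧ i + 1 ≤ p + b + c := by
  obtain ⟨hb, hc, hn, hr⟩ := hx
  unfold AA
  rw [hr i i hi hi]
  omega

theorem IsBeta.UU_iff {x : Equiv.Perm (Fin n)} {p b c : ℕ} (hx : IsBeta x p b c) (h3 : b + c = 3) :
    UU (p + 1) x ↔ b = 2 := by
  obtain ⟨hb, hc, hn, hr⟩ := hx
  unfold UU
  rw [hr (p + 1) (p + 1 + 1) (by omega) (by omega)]
  omega

end SH
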