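import Pool.Agent.LibSH29.C3

/-!
# Atoms, joins of atoms, strong permutations (row C4)
-/

set_option autoImplicit false

namespace SH

variable {n : ℕ}

/-- `w` is strong: `w ≠ 1` and all `s_i s_(i+1)`, `s_(i+1) s_i` are `≤ w` -/
def Strong (w : Equiv.Perm (Fin n)) : Prop :=
  w ≠ 1 ∧ ∀ i, 1 ≤ i → i + 1 < n → UU i w ∧ VV i w

/-- If `rr x (i+1) i = 0` then the position `i` (0-based) has a value `≥ i + 1` (otherwise
`rr x (i+1) (i+1) = 0`), so `rr x i (i+1) = rr x i i + 1`. -/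
theorem UU_or_VV {x : Equiv.Perm (Fin n)} {i : ℕ} (hi : 1 ≤ i) (hi' : i + 1 < n) (h1 : AA i x)
    (h2 : AA (i + 1) x) : UU i x ∨ VV i x := by
  have _ := hi
  unfold AA at h1 h2
  unfold UU VV
  have h3 := rr_succ x (i + 1) ⟨i, by omega⟩
  have h4 := rr_succ x i ⟨i, by omega⟩
  simp only at h3 h4
  split_ifs at h3 h4 <;> omega

theorem UU.AA {x : Equiv.Perm (Fin n)} {i : ℕ} (h : UU i x) : AA i x ∧ AA (i + 1) x := by
  unfold UU at h
  unfold SH.AA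
  have h1 := rr_lip x i (i + 1) i i
  have h2 := rr_lip x i (i + 1) (i + 1) (i + 1)
  omega

theorem VV.AA {x : Equiv.Perm (Fin n)} {i : ℕ} (h : VV i x) : AA i x ∧ AA (i + 1) x := by
  unfold VV at h
  unfold SH.AA
  have h1 := rr_mono x (Nat.le_succ i) (le_refl i)
  have h2 := rr_mono x (le_refl (i + 1)) (Nat.le_succ i)
  exact ⟨h.trans h1, h.trans h2⟩

/-- all `s_i` are `≤ w`; for `n = 2` from `exists_rr_pos` -/
theorem Strong.AA {w : Equiv.Perm (Fin n)} (hw : Strong w) {i : ℕ} (hi : 1 ≤ i) (hi' : i < n) :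
    AA i w := by
  by_cases h1 : i + 1 < n
  · exact (hw.2 i hi h1).1.AA.1
  · by_cases h2 : 2 ≤ i
    · obtain ⟨k, rfl⟩ : ∃ k, i = k + 1 := ⟨i - 1, by omega⟩
      exact (hw.2 k (by omega) hi').1.AA.2
    · obtain ⟨k, h3, h4, h5⟩ := exists_rr_pos hw.1
      have h6 : k = i := by omega
      subst h6
      exact h5

theorem Strong.two_le {w : Equiv.Perm (Fin n)} (hw : Strong w) : 2 ≤ n := by
  obtain ⟨k, h3, h4, -⟩ := exists_rr_pos hw.1
  omega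

theorem UU_iff_le' {β x : Equiv.Perm (Fin n)} {i : ℕ} (hi : 1 ≤ i) (hβ : IsBeta β (i - 1) 2 1) :
    UU i x ↔ β ≤ x := by
  rw [hβ.le_iff]
  obtain ⟨k, rfl⟩ : ∃ k, i = k + 1 := ⟨i - 1, by omega⟩
  exact Iff.rfl

theorem VV_iff_le' {β x : Equiv.Perm (Fin n)} {i : ℕ} (hi : 1 ≤ i) (hβ : IsBeta β (i - 1) 1 2) :
    VV i x ↔ β ≤ x := by
  rw [hβ.le_iff]
  obtain ⟨k, rfl⟩ : ∃ k, i = k + 1 := ⟨i - 1, by omega⟩
  exact Iff.rfl

theorem AA_iff_le' {β x : Equiv.Perm (Fin n)} {i : ℕ} (hi : 1 ≤ i) (hβ : IsBeta β (i - 1) 1 1) :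
    AA i x ↔ β ≤ x := by
  rw [hβ.le_iff]
  obtain ⟨k, rfl⟩ : ∃ k, i = k + 1 := ⟨i - 1, by omega⟩
  exact Iff.rfl

theorem AA_mono {x y : Equiv.Perm (Fin n)} {i : ℕ} (h : x ≤ y) (h1 : AA i x) : AA i y :=
  le_trans (α := ℕ) h1 (le_def.1 h i i)

theorem ne_one_of_AA {x : Equiv.Perm (Fin n)} {i : ℕ} (hi : i ≤ n) (h1 : AA i x) : x ≠ 1 := by
  rintro rfl
  unfold AA at h1
  rw [rr_one i hi] at h1
  omega

theorem IsBeta.AA_self {x : Equiv.Perm (Fin n)} {i : ℕ} (hi : 1 ≤ i)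
    (hx : IsBeta x (i - 1) 1 1) : AA i x :=
  (AA_iff_le' hi hx).2 le_rfl

theorem isAtom_iff {w : Equiv.Perm (Fin n)} (x : Set.Iic w) :
    IsAtom x ↔ ∃ i, 1 ≤ i ∧ i < n ∧ IsBeta x.1 (i - 1) 1 1 := by
  constructor
  · intro h
    have h1 : x.1 ≠ 1 := fun h2 => h.1 (Subtype.ext h2)
    obtain ⟨i, hi, hi', h3⟩ := exists_rr_pos h1
    obtain ⟨β, hβ⟩ := exists_beta (n := n) (p := i - 1) (b := 1) (c := 1) le_rfl le_rfl (by omega)
    have h4 : β ≤ x.1 := (AA_iff_le' hi hβ).1 h3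
    have h5 : (⟨β, h4.trans x.2⟩ : Set.Iic w) ≤ x := h4
    rcases h5.lt_or_eq with h6 | h6
    · exfalso
      have h7 := congrArg Subtype.val (h.2 _ h6)
      exact ne_one_of_AA (by omega) (hβ.AA_self hi) h7
    · refine ⟨i, hi, hi', ?_⟩
      rw [← h6]
      exact hβ
  · rintro ⟨i, hi, hi', hx⟩
    refine ⟨fun h => ne_one_of_AA (by omega) (hx.AA_self hi) (congrArg Subtype.val h),
      fun y hy => ?_⟩
    by_contra h1
    have h2 : y.1 ≠ 1 := fun h2 => h1 (Subtype.ext h2)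
    obtain ⟨k, hk, hk', h3⟩ := exists_rr_pos h2
    have h4 : AA k x.1 := AA_mono hy.le h3
    rw [hx.AA_iff (by omega)] at h4
    have h5 : k = i := by omega
    subst h5
    have h6 : x.1 ≤ y.1 := (AA_iff_le' hi hx).1 h3
    exact absurd (show x ≤ y from h6) (not_le_of_gt hy)

/-- `s_i s_j` for `|i - j| ≥ 2`: the least upper bound of `s_i`, `s_j`. Use `exists_of_rank` with
`max (j' - a) (max (1 - (a - i) - (i - j')) (1 - (a - j) - (j - j')))` (checked by computer). -/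
theorem exists_far {i j : ℕ} (hi : 1 ≤ i) (hij : i + 2 ≤ j) (hj : j < n) :
    ∃ c : Equiv.Perm (Fin n), ∀ x, c ≤ x ↔ AA i x ∧ AA j x := by
  obtain ⟨c, hc⟩ := exists_of_rank (n := n)
    (fun a k => (k - a) + if a = k ∧ (a = i ∨ a = j) then 1 else 0)
    (by intro a _; split_ifs <;> omega) (by intro k _; split_ifs <;> omega)
    (by intro k _; split_ifs <;> omega) (by intro a _; split_ifs <;> omega)
    (by
      intro a _ k _
      split_ifs <;> omega)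
  refine ⟨c, fun x => ⟨fun h => ?_, fun h => ?_⟩⟩
  · have h1 := le_def.1 h i i
    have h2 := le_def.1 h j j
    rw [hc i (by omega) i (by omega), if_pos ⟨rfl, Or.inl rfl⟩] at h1
    rw [hc j (by omega) j (by omega), if_pos ⟨rfl, Or.inr rfl⟩] at h2
    unfold AA
    omega
  · rw [SH.le_iff]
    intro a ha k hk
    rw [hc a ha k hk]
    split_ifs with h1
    · obtain ⟨rfl, rfl | rfl⟩ := h1
      · rw [Nat.sub_self]
        exact h.1
      · rw [Nat.sub_self]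
        exact h.2
    · exact rr_ge x a hk

/-- `β (i-1) 2 1` and `β (i-1) 1 2` are incomparable -/
theorem not_VV_of_isBeta {x : Equiv.Perm (Fin n)} {i : ℕ} (hi : 1 ≤ i) (hx : IsBeta x (i - 1) 2 1) :
    UU i x ∧ ¬ VV i x := by
  refine ⟨(UU_iff_le' hi hx).2 le_rfl, fun h => ?_⟩
  obtain ⟨-, -, h1, h2⟩ := hx
  unfold VV at h
  rw [h2 (i + 1) i (by omega) (by omega)] at h
  omega

theorem not_UU_of_isBeta {x : Equiv.Perm (Fin n)} {i : ℕ} (hi : 1 ≤ i) (hx : IsBeta x (i - 1) 1 2) :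
    VV i x ∧ ¬ UU i x := by
  refine ⟨(VV_iff_le' hi hx).2 le_rfl, fun h => ?_⟩
  obtain ⟨-, -, h1, h2⟩ := hx
  unfold UU at h
  rw [h2 i (i + 1) (by omega) (by omega)] at h
  omega

/-- the two atoms `s_k`, `s_(k+1)` have no least upper bound -/
theorem no_lub_aux {w : Equiv.Perm (Fin n)} (hw : Strong w) {x y c : Set.Iic w} {k : ℕ}
    (hk : 1 ≤ k) (hx : IsBeta x.1 (k - 1) 1 1) (hy : IsBeta y.1 (k + 1 - 1) 1 1)
    (hc : IsLUB {x, y} c) : False := by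
  have hn : k + 1 < n := by
    have := hy.2.2.1
    omega
  obtain ⟨β, hβ⟩ := exists_beta (n := n) (p := k - 1) (b := 2) (c := 1) (by omega) le_rfl
    (by omega)
  obtain ⟨γ, hγ⟩ := exists_beta (n := n) (p := k - 1) (b := 1) (c := 2) le_rfl (by omega)
    (by omega)
  have hβw : β ≤ w := (UU_iff_le' hk hβ).1 (hw.2 k hk hn).1
  have hγw : γ ≤ w := (VV_iff_le' hk hγ).1 (hw.2 k hk hn).2
  have key : ∀ z : Set.Iic w, AA k z.1 → AA (k + 1) z.1 → c ≤ z := by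
    intro z h1 h2
    refine hc.2 ?_
    rintro u (rfl | rfl)
    · exact (AA_iff_le' hk hx).1 h1
    · exact (AA_iff_le' (by omega) hy).1 h2
  have h1 : AA k c.1 := AA_mono (hc.1 (Or.inl rfl)) (hx.AA_self hk)
  have h2 : AA (k + 1) c.1 := AA_mono (hc.1 (Or.inr rfl)) (hy.AA_self (by omega))
  have hβ1 := not_VV_of_isBeta hk hβ
  have hγ1 := not_UU_of_isBeta hk hγ
  have hcβ : c.1 ≤ β := key ⟨β, hβw⟩ hβ1.1.AA.1 hβ1.1.AA.2
  have hcγ : c.1 ≤ γ := key ⟨γ, hγw⟩ hγ1.1.AA.1 hγ1.1.AA.2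
  rcases UU_or_VV hk hn h1 h2 with h3 | h3
  · exact hγ1.2 (le_trans (α := ℕ) h3 (le_def.1 hcγ _ _))
  · exact hβ1.2 (le_trans (α := ℕ) h3 (le_def.1 hcβ _ _))

/-- the atoms `s_i`, `s_j`, `i + 2 ≤ j`, have a least upper bound -/
theorem lub_aux {w : Equiv.Perm (Fin n)} {x y : Set.Iic w} {i j : ℕ}
    (hi : 1 ≤ i) (hij : i + 2 ≤ j) (hx : IsBeta x.1 (i - 1) 1 1) (hy : IsBeta y.1 (j - 1) 1 1) :
    ∃ c, IsLUB {x, y} c := by
  have hn : j < n := by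
    have := hy.2.2.1
    omega
  have hj : 1 ≤ j := by omega
  obtain ⟨c, hc⟩ := exists_far hi hij hn
  have h1 : c ≤ w := (hc w).2 ⟨AA_mono x.2 (hx.AA_self hi), AA_mono y.2 (hy.AA_self hj)⟩
  refine ⟨⟨c, h1⟩, ?_, ?_⟩
  · rintro u (rfl | rfl)
    · exact (AA_iff_le' hi hx).1 ((hc c).1 le_rfl).1
    · exact (AA_iff_le' hj hy).1 ((hc c).1 le_rfl).2
  · intro z hz
    exact (hc z.1).2 ⟨AA_mono (hz (Or.inl rfl)) (hx.AA_self hi),
      AA_mono (hz (Or.inr rfl)) (hy.AA_self hj)⟩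

/-- Two atoms `s_i`, `s_j` of `[1, w]`, `w` strong, have no least upper bound iff `|i - j| = 1`.
`i = j`: the atom itself. `|i - j| ≥ 2`: `exists_far` (it is `≤ w`). `|i - j| = 1`: a least upper
bound `c` would be `≤ β (i-1) 2 1` and `≤ β (i-1) 1 2` (both `≤ w`, `w` strong); but `UU i c` or
`VV i c` by `UU_or_VV`. -/
theorem no_lub_iff {w : Equiv.Perm (Fin n)} (hw : Strong w) {x y : Set.Iic w} {i j : ℕ}
    (hi : 1 ≤ i) (hj : 1 ≤ j) (hx : IsBeta x.1 (i - 1) 1 1) (hy : IsBeta y.1 (j - 1) 1 1) :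
    (¬ ∃ c, IsLUB {x, y} c) ↔ (i = j + 1 ∨ j = i + 1) := by
  constructor
  · intro h
    by_contra h1
    apply h
    rcases Nat.lt_trichotomy i j with h2 | h2 | h2
    · exact lub_aux hi (by omega) hx hy
    · subst h2
      have h3 : x = y := Subtype.ext (hx.unique hy)
      subst h3
      exact ⟨x, by simp⟩
    · rw [Set.pair_comm]
      exact lub_aux hj (by omega) hy hx
  · rintro (rfl | rfl) ⟨c, hc⟩
    · rw [Set.pair_comm] at hc
      exact no_lub_aux hw hj hy hx hc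
    · exact no_lub_aux hw hi hx hy hc

/-- the conditions `UU`, `VV`, `AA` only depend on the poset and its elements `β` -/
theorem UU_iff_le {β x : Equiv.Perm (Fin n)} {i : ℕ} (hi : 1 ≤ i) (hβ : IsBeta β (i - 1) 2 1) :
    UU i x ↔ β ≤ x :=
  UU_iff_le' hi hβ

theorem VV_iff_le {β x : Equiv.Perm (Fin n)} {i : ℕ} (hi : 1 ≤ i) (hβ : IsBeta β (i - 1) 1 2) :
    VV i x ↔ β ≤ x :=
  VV_iff_le' hi hβ

theorem AA_iff_le {β x : Equiv.Perm (Fin n)} {i : ℕ} (hi : 1 ≤ i) (hβ : IsBeta β (i - 1) 1 1) :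
    AA i x ↔ β ≤ x :=
  AA_iff_le' hi hβ

end SH
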