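import Pool.Agent.LibSH29.C4

/-!
# A sign change forces rank at most one (row C5)

Window `p = k - 2`. `a`: the least permutation with `UU (k-1)` and `VV k` (one-line 2413 in the
window), `b`: the least one with `VV (k-1)` and `UU k` (3142). Rank functions for `exists_of_rank`
(checked by computer):
a: `max (j' - a') (max (2 - (a' - (k-1)) - (k - j')) (1 - (a' - (k+1)) - (k - j')))`
b: `max (j' - a') (max (1 - (a' - k) - (k - 1 - j')) (2 - (a' - k) - (k + 1 - j')))`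
-/

set_option autoImplicit false

namespace SH

variable {n : ℕ}

theorem sub_sub_le {c r s u v : ℕ} (h : c ≤ r) (h' : r ≤ s + u + v) : c - u - v ≤ s := by
  omega

/-- the rank function of `a` -/
def rankA (p a' j' : ℕ) : ℕ := max (j' - a') (max (2 - (a' - (p + 1)) - (p + 2 - j'))
  (1 - (a' - (p + 3)) - (p + 2 - j')))

/-- the rank function of `b` -/
def rankB (p a' j' : ℕ) : ℕ := max (j' - a') (max (1 - (a' - (p + 2)) - (p + 1 - j'))
  (2 - (a' - (p + 2)) - (p + 3 - j')))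

theorem rankA_succ (p a j : ℕ) : rankA p a (j + 1) = rankA p a j +
    if a ≤ (if j = p then p + 1 else if j = p + 1 then p + 3 else if j = p + 2 then p
      else if j = p + 3 then p + 2 else j) then 1 else 0 := by
  unfold rankA
  rcases (by omega : j < p ∨ j = p ∨ j = p + 1 ∨ j = p + 2 ∨ j = p + 3 ∨ p + 4 ≤ j)
    with h | h | h | h | h | h
  all_goals split_ifs <;> omega

theorem rankB_succ (p a j : ℕ) : rankB p a (j + 1) = rankB p a j +
    if a ≤ (if j = p then p + 2 else if j = p + 1 then p else if j = p + 2 then p + 3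
      else if j = p + 3 then p + 1 else j) then 1 else 0 := by
  unfold rankB
  rcases (by omega : j < p ∨ j = p ∨ j = p + 1 ∨ j = p + 2 ∨ j = p + 3 ∨ p + 4 ≤ j)
    with h | h | h | h | h | h
  all_goals split_ifs <;> omega

theorem exists_a {k : ℕ} (hk : 2 ≤ k) (hk' : k + 2 ≤ n) :
    ∃ a : Equiv.Perm (Fin n), (∀ x, a ≤ x ↔ UU (k - 1) x ∧ VV k x) ∧ ¬ VV (k - 1) a := by
  obtain ⟨p, rfl⟩ : ∃ p, k = p + 2 := ⟨k - 2, by omega⟩
  obtain ⟨a, ha⟩ := exists_of_rank (n := n)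
    (rankA p) (by intro a ha; unfold rankA; omega)
      (by intro a ha; unfold rankA; omega) (by intro a ha; unfold rankA; omega)
      (by intro a ha; unfold rankA; omega)
      (by
        intro a ha j hj
        have key := rankA_succ p
        have k1 := key a j
        have k2 := key (a + 1) j
        rw [k1, k2]
        split_ifs <;> omega)
  simp only [rankA] at ha
  refine ⟨a, ?_, ?_⟩
  · intro x
    unfold UU VV
    constructor
    · intro h
      have h1 := h (p + 1) (p + 2)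
      have h2 := h (p + 3) (p + 2)
      rw [ha _ (by omega) _ (by omega)] at h1 h2
      have e : p + 2 - 1 = p + 1 := by omega
      rw [e]
      constructor
      · change 2 ≤ rr x (p + 1) (p + 2)
        omega
      · change 1 ≤ rr x (p + 3) (p + 2)
        omega
    · rintro ⟨h1, h2⟩
      have e : p + 2 - 1 = p + 1 := by omega
      rw [e] at h1
      rw [le_iff]
      intro a' ha' j' hj'
      rw [ha _ ha' _ hj']
      have h3 := rr_ge x a' hj'
      have h4 := rr_lip x (p + 1) (p + 2) a' j'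
      have h5 := rr_lip x (p + 3) (p + 2) a' j'
      change 2 ≤ rr x (p + 1) (p + 2) at h1
      change 1 ≤ rr x (p + 3) (p + 2) at h2
      exact max_le h3 (max_le (sub_sub_le h1 h4) (sub_sub_le h2 h5))
  · unfold VV
    have e : p + 2 - 1 = p + 1 := by omega
    rw [e, ha _ (by omega) _ (by omega)]
    omega

theorem exists_b {k : ℕ} (hk : 2 ≤ k) (hk' : k + 2 ≤ n) :
    ∃ b : Equiv.Perm (Fin n), ∀ x, b ≤ x ↔ VV (k - 1) x ∧ UU k x := by
  obtain ⟨p, rfl⟩ : ∃ p, k = p + 2 := ⟨k - 2, by omega⟩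
  obtain ⟨a, ha⟩ := exists_of_rank (n := n)
    (rankB p) (by intro a ha; unfold rankB; omega)
      (by intro a ha; unfold rankB; omega) (by intro a ha; unfold rankB; omega)
      (by intro a ha; unfold rankB; omega)
      (by
        intro a ha j hj
        have key := rankB_succ p
        have k1 := key a j
        have k2 := key (a + 1) j
        rw [k1, k2]
        split_ifs <;> omega)
  simp only [rankB] at ha
  refine ⟨a, ?_⟩
  intro x
  unfold UU VV
  have e : p + 2 - 1 = p + 1 := by omega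
  rw [e]
  constructor
  · intro h
    have h1 := h (p + 2) (p + 1)
    have h2 := h (p + 2) (p + 3)
    rw [ha _ (by omega) _ (by omega)] at h1 h2
    constructor
    · change 1 ≤ rr x (p + 2) (p + 1)
      omega
    · change 2 ≤ rr x (p + 2) (p + 3)
      omega
  · rintro ⟨h1, h2⟩
    rw [le_iff]
    intro a' ha' j' hj'
    rw [ha _ ha' _ hj']
    have h3 := rr_ge x a' hj'
    have h4 := rr_lip x (p + 2) (p + 1) a' j'
    have h5 := rr_lip x (p + 2) (p + 3) a' j'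
    change 1 ≤ rr x (p + 2) (p + 1) at h1
    change 2 ≤ rr x (p + 2) (p + 3) at h2
    exact max_le h3 (max_le (sub_sub_le h1 h4) (sub_sub_le h2 h5))

/-- Proof. Suppose `2 ≤ rr w' k k`; then `k + 2 ≤ n` (`rr_le_right`). Let `z` be the `β` with
`(p, b, c) = (k - 2, 2, 2)`: `z ≤ x ↔ 2 ≤ rr x k k`; `z ≤ w'`, and `z` satisfies `UU (k-1)`,
`VV (k-1)`, `UU k`, `VV k`, `rr z (k-1) (k+1) = 2`, `rr z (k+1) (k-1) = 0`. Let `x₀ = φ⁻¹ z`; by
`h1`-`h4` it satisfies all four conditions, so `a ≤ x₀` and `b ≤ x₀`, both `≤ w`. `λ = φ a ≤ z` has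
`UU (k-1)` and `UU k`; since `rr λ (k-1) (k+1) ≤ 2 ≤ rr λ (k-1) k` the value at position `k` is
`< k - 1`, so `rr λ k k = rr λ k (k+1) ≥ 2`, `z ≤ λ`. `μ = φ b ≤ z` has `VV (k-1)`, `VV k`; since
`rr μ (k+1) (k-1) = 0` and `1 ≤ rr μ (k+1) k` the value at position `k - 1` is `≥ k + 1`, so
`rr μ k k = rr μ k (k-1) + 1 ≥ 2`, `z ≤ μ`. So `φ a = z = φ b`, `a = b`, but `VV (k-1) b` and
`¬ VV (k-1) a`. -/
theorem sign_change {w w' : Equiv.Perm (Fin n)} (φ : Set.Iic w ≃o Set.Iic w') {k : ℕ} (hk : 2 ≤ k)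
    (h1 : ∀ x : Set.Iic w, UU (k - 1) x.1 ↔ UU (k - 1) (φ x).1)
    (h2 : ∀ x : Set.Iic w, VV (k - 1) x.1 ↔ VV (k - 1) (φ x).1)
    (h3 : ∀ x : Set.Iic w, UU k x.1 ↔ VV k (φ x).1)
    (h4 : ∀ x : Set.Iic w, VV k x.1 ↔ UU k (φ x).1) : rr w' k k ≤ 1 := by
  by_contra hcon
  have hcon' : 2 ≤ rr w' k k := by omega
  have hkn : k + 2 ≤ n := by
    have := rr_le_right w' k k
    omega
  obtain ⟨p, rfl⟩ : ∃ p, k = p + 2 := ⟨k - 2, by omega⟩
  have e : p + 2 - 1 = p + 1 := by omega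
  obtain ⟨a, ha, ha'⟩ := exists_a hk hkn
  obtain ⟨b, hb⟩ := exists_b hk hkn
  rw [e] at h1 h2 ha ha' hb
  obtain ⟨z, hz⟩ := exists_beta (n := n) (p := p) (b := 2) (c := 2) (by omega) (by omega)
    (by omega)
  have hzle : ∀ x : Equiv.Perm (Fin n), z ≤ x ↔ 2 ≤ rr x (p + 2) (p + 2) := fun x =>
    hz.le_iff
  have hzf := hz.2.2.2
  have hzw : z ≤ w' := (hzle w').2 hcon'
  have z1 : UU (p + 1) z := by
    unfold UU
    rw [hzf _ _ (by omega) (by omega)]
    omega
  have z2 : VV (p + 1) z := by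
    unfold VV
    rw [hzf _ _ (by omega) (by omega)]
    omega
  have z3 : UU (p + 2) z := by
    unfold UU
    rw [hzf _ _ (by omega) (by omega)]
    omega
  have z4 : VV (p + 2) z := by
    unfold VV
    rw [hzf _ _ (by omega) (by omega)]
    omega
  have z5 : rr z (p + 1) (p + 3) = 2 := by
    rw [hzf _ _ (by omega) (by omega)]
    omega
  have z6 : rr z (p + 3) (p + 1) = 0 := by
    rw [hzf _ _ (by omega) (by omega)]
    omega
  obtain ⟨x₀, hx₀⟩ : ∃ x₀ : Set.Iic w, φ x₀ = ⟨z, hzw⟩ := φ.surjective ⟨z, hzw⟩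
  have y1 : UU (p + 1) x₀.1 := by rw [h1, hx₀]; exact z1
  have y2 : VV (p + 1) x₀.1 := by rw [h2, hx₀]; exact z2
  have y3 : UU (p + 2) x₀.1 := by rw [h3, hx₀]; exact z4
  have y4 : VV (p + 2) x₀.1 := by rw [h4, hx₀]; exact z3
  have ax : a ≤ x₀.1 := (ha _).2 ⟨y1, y4⟩
  have bx : b ≤ x₀.1 := (hb _).2 ⟨y2, y3⟩
  have aw : a ≤ w := ax.trans x₀.2
  have bw : b ≤ w := bx.trans x₀.2
  obtain ⟨a1, a2⟩ := (ha a).1 le_rfl
  obtain ⟨b1, b2⟩ := (hb b).1 le_rfl
  have l1 : UU (p + 1) (φ ⟨a, aw⟩).1 := (h1 ⟨a, aw⟩).1 a1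
  have l2 : UU (p + 2) (φ ⟨a, aw⟩).1 := (h4 ⟨a, aw⟩).1 a2
  have m1 : VV (p + 1) (φ ⟨b, bw⟩).1 := (h2 ⟨b, bw⟩).1 b1
  have m2 : VV (p + 2) (φ ⟨b, bw⟩).1 := (h3 ⟨b, bw⟩).1 b2
  have lz : (φ ⟨a, aw⟩).1 ≤ z := by
    have : φ ⟨a, aw⟩ ≤ φ x₀ := φ.monotone ax
    rw [hx₀] at this
    exact this
  have mz : (φ ⟨b, bw⟩).1 ≤ z := by
    have : φ ⟨b, bw⟩ ≤ φ x₀ := φ.monotone bx
    rw [hx₀] at this
    exact this
  have hl : (φ ⟨a, aw⟩).1 = z := by
    apply le_antisymm lz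
    rw [hzle]
    generalize (φ ⟨a, aw⟩).1 = L at l1 l2 lz
    have q1 := lz (p + 1) (p + 3)
    rw [z5] at q1
    have s1 := rr_succ L (p + 1) ⟨p + 2, by omega⟩
    have s2 := rr_succ L (p + 2) ⟨p + 2, by omega⟩
    unfold UU at l1 l2
    change rr L (p + 1) (p + 3) = rr L (p + 1) (p + 2) + _ at s1
    change rr L (p + 2) (p + 3) = rr L (p + 2) (p + 2) + _ at s2
    change 2 ≤ rr L (p + 1) (p + 2) at l1
    change 2 ≤ rr L (p + 2) (p + 3) at l2
    split_ifs at s1 s2 <;> omega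
  have hm : (φ ⟨b, bw⟩).1 = z := by
    apply le_antisymm mz
    rw [hzle]
    generalize (φ ⟨b, bw⟩).1 = L at m1 m2 mz
    have q1 := mz (p + 3) (p + 1)
    rw [z6] at q1
    have s1 := rr_succ L (p + 3) ⟨p + 1, by omega⟩
    have s2 := rr_succ L (p + 2) ⟨p + 1, by omega⟩
    unfold VV at m1 m2
    change rr L (p + 3) (p + 2) = rr L (p + 3) (p + 1) + _ at s1
    change rr L (p + 2) (p + 2) = rr L (p + 2) (p + 1) + _ at s2
    change 1 ≤ rr L (p + 2) (p + 1) at m1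
    change 1 ≤ rr L (p + 3) (p + 2) at m2
    split_ifs at s1 s2 <;> omega
  have hab : (⟨a, aw⟩ : Set.Iic w) = ⟨b, bw⟩ := φ.injective (Subtype.ext (hl.trans hm.symm))
  have hab' : a = b := congrArg Subtype.val hab
  rw [hab'] at ha'
  exact ha' b1

end SH
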