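import Pool.Agent.LibSH29.C4

/-!
# Signs (row C6)
-/

set_option autoImplicit false

namespace SH

variable {n : ℕ}

/-- An isomorphism fixing the atoms permutes `{β (i-1) 2 1, β (i-1) 1 2}`.
Proof. `u, v` the two `β` (both `≤ w` and `≤ w'`). For `x ≤ w`: `u ≤ x ∨ v ≤ x ↔ AA i x ∧ AA (i+1) x`
(`UU_or_VV`, `UU.AA`, `VV.AA`), the same in `[1, w']`, so `u ≤ φ u ∨ v ≤ φ u`, and for `φ⁻¹`.
If `u ≤ φ u`: `φ⁻¹ u ≤ u`, and `u ≤ φ⁻¹ u` (`v ≤ φ⁻¹ u ≤ u` is impossible), so `φ u = u`; then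
`φ v = v`. Otherwise `φ u = v`, `φ v = u`. -/
theorem sign_dichotomy {w w' : Equiv.Perm (Fin n)} (hw : Strong w) (hw' : Strong w')
    (φ : Set.Iic w ≃o Set.Iic w')
    (hA : ∀ (x : Set.Iic w) (i : ℕ), 1 ≤ i → i < n → (AA i x.1 ↔ AA i (φ x).1))
    {i : ℕ} (hi : 1 ≤ i) (hi' : i + 1 < n) :
    (∀ x : Set.Iic w, (UU i x.1 ↔ UU i (φ x).1) ∧ (VV i x.1 ↔ VV i (φ x).1)) ∨
    (∀ x : Set.Iic w, (UU i x.1 ↔ VV i (φ x).1) ∧ (VV i x.1 ↔ UU i (φ x).1)) := by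
  obtain ⟨u, hu⟩ := exists_beta (n := n) (p := i - 1) (b := 2) (c := 1) (by omega) (by omega)
    (by omega)
  obtain ⟨v, hv⟩ := exists_beta (n := n) (p := i - 1) (b := 1) (c := 2) (by omega) (by omega)
    (by omega)
  have hU : ∀ x : Equiv.Perm (Fin n), UU i x ↔ u ≤ x := fun x => UU_iff_le hi hu
  have hV : ∀ x : Equiv.Perm (Fin n), VV i x ↔ v ≤ x := fun x => VV_iff_le hi hv
  have huw : u ≤ w := (hU w).1 (hw.2 i hi hi').1
  have hvw : v ≤ w := (hV w).1 (hw.2 i hi hi').2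
  have huw' : u ≤ w' := (hU w').1 (hw'.2 i hi hi').1
  have hvw' : v ≤ w' := (hV w').1 (hw'.2 i hi hi').2
  have hnvu : ¬ v ≤ u := fun h => (not_VV_of_isBeta hi hu).2 ((hV u).2 h)
  have hnuv : ¬ u ≤ v := fun h => (not_UU_of_isBeta hi hv).2 ((hU v).2 h)
  obtain ⟨a, ha⟩ : ∃ a : Set.Iic w, a.1 = u := ⟨⟨u, huw⟩, rfl⟩
  obtain ⟨b, hb⟩ : ∃ b : Set.Iic w, b.1 = v := ⟨⟨v, hvw⟩, rfl⟩
  obtain ⟨a', ha'⟩ : ∃ a' : Set.Iic w', a'.1 = u := ⟨⟨u, huw'⟩, rfl⟩
  obtain ⟨b', hb'⟩ : ∃ b' : Set.Iic w', b'.1 = v := ⟨⟨v, hvw'⟩, rfl⟩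
  have hUa : ∀ x : Set.Iic w, UU i x.1 ↔ a ≤ x := fun x => by
    rw [hU, ← Subtype.coe_le_coe, ha]
  have hVb : ∀ x : Set.Iic w, VV i x.1 ↔ b ≤ x := fun x => by
    rw [hV, ← Subtype.coe_le_coe, hb]
  have hUa' : ∀ x : Set.Iic w', UU i x.1 ↔ a' ≤ x := fun x => by
    rw [hU, ← Subtype.coe_le_coe, ha']
  have hVb' : ∀ x : Set.Iic w', VV i x.1 ↔ b' ≤ x := fun x => by
    rw [hV, ← Subtype.coe_le_coe, hb']
  have hnba : ¬ b ≤ a := fun h => hnvu (by rw [← Subtype.coe_le_coe, ha, hb] at h; exact h)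
  have hnab : ¬ a ≤ b := fun h => hnuv (by rw [← Subtype.coe_le_coe, ha, hb] at h; exact h)
  have hAAw : ∀ x : Equiv.Perm (Fin n), (UU i x ∨ VV i x) ↔ (AA i x ∧ AA (i + 1) x) := by
    intro x
    constructor
    · rintro (h | h)
      · exact UU.AA h
      · exact VV.AA h
    · rintro ⟨h1, h2⟩
      exact UU_or_VV hi hi' h1 h2
  have key : ∀ x : Set.Iic w, (a ≤ x ∨ b ≤ x) ↔ (a' ≤ φ x ∨ b' ≤ φ x) := by
    intro x
    rw [← hUa, ← hVb, ← hUa', ← hVb', hAAw, hAAw, hA x i hi (by omega),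
      hA x (i + 1) (by omega) hi']
  have k1 := (key a).1 (Or.inl le_rfl)
  have k2 := (key b).1 (Or.inr le_rfl)
  have k3 : a ≤ φ.symm a' ∨ b ≤ φ.symm a' :=
    (key (φ.symm a')).2 (Or.inl (by rw [φ.apply_symm_apply]))
  have k4 : a ≤ φ.symm b' ∨ b ≤ φ.symm b' :=
    (key (φ.symm b')).2 (Or.inr (by rw [φ.apply_symm_apply]))
  rcases k1 with h1 | h1
  · left
    have h2 : φ.symm a' ≤ a := (φ.symm_apply_le).2 h1
    have h3 : φ.symm a' = a := by
      rcases k3 with h | h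
      · exact le_antisymm h2 h
      · exact absurd (h.trans h2) hnba
    have h4 : φ a = a' := by rw [← h3, φ.apply_symm_apply]
    have h5 : b' ≤ φ b := by
      rcases k2 with h | h
      · rw [← h4, φ.le_iff_le] at h
        exact absurd h hnab
      · exact h
    have h6 : φ.symm b' ≤ b := (φ.symm_apply_le).2 h5
    have h7 : φ.symm b' = b := by
      rcases k4 with h | h
      · exact absurd (h.trans h6) hnab
      · exact le_antisymm h6 h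
    have h8 : φ b = b' := by rw [← h7, φ.apply_symm_apply]
    intro x
    rw [hUa, hVb, hUa', hVb', ← h4, ← h8, φ.le_iff_le, φ.le_iff_le]
    exact ⟨Iff.rfl, Iff.rfl⟩
  · right
    have h2 : φ.symm b' ≤ a := (φ.symm_apply_le).2 h1
    have h3 : φ.symm b' = a := by
      rcases k4 with h | h
      · exact le_antisymm h2 h
      · exact absurd (h.trans h2) hnba
    have h4 : φ a = b' := by rw [← h3, φ.apply_symm_apply]
    have h5 : a' ≤ φ b := by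
      rcases k2 with h | h
      · exact h
      · rw [← h4, φ.le_iff_le] at h
        exact absurd h hnab
    have h6 : φ.symm a' ≤ b := (φ.symm_apply_le).2 h5
    have h7 : φ.symm a' = b := by
      rcases k3 with h | h
      · exact absurd (h.trans h6) hnab
      · exact le_antisymm h6 h
    have h8 : φ b = a' := by rw [← h7, φ.apply_symm_apply]
    intro x
    rw [hUa, hVb, hUa', hVb', ← h4, ← h8, φ.le_iff_le, φ.le_iff_le]
    exact ⟨Iff.rfl, Iff.rfl⟩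

end SH
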