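import Pool.Agent.LibSH29.C4

/-!
# Automorphisms of a path; the isomorphism on the atoms (row C7)
-/

set_option autoImplicit false

namespace SH

/-- `τ 1` has at most one neighbour, so it is an end of the path; then induction on `i`. -/
theorem path_auto {n : ℕ} (τ : ℕ → ℕ) (hτ : ∀ i, 1 ≤ i → i < n → 1 ≤ τ i ∧ τ i < n)
    (hinj : ∀ i j, 1 ≤ i → i < n → 1 ≤ j → j < n → τ i = τ j → i = j)
    (hadj : ∀ i j, 1 ≤ i → i < n → 1 ≤ j → j < n →
      ((i = j + 1 ∨ j = i + 1) ↔ (τ i = τ j + 1 ∨ τ j = τ i + 1))) :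
    (∀ i, 1 ≤ i → i < n → τ i = i) ∨ (∀ i, 1 ≤ i → i < n → τ i = n - i) := by
  classical
  have hsurj : ∀ j, 1 ≤ j → j < n → ∃ i, 1 ≤ i ∧ i < n ∧ τ i = j := by
    have hmaps : Set.MapsTo τ (Finset.Ico 1 n : Finset ℕ) (Finset.Ico 1 n : Finset ℕ) := by
      intro i hi
      rw [Finset.mem_coe, Finset.mem_Ico] at hi ⊢
      exact hτ i hi.1 hi.2
    have hio : Set.InjOn τ (Finset.Ico 1 n : Finset ℕ) := by
      intro i hi j hj h
      rw [Finset.mem_coe, Finset.mem_Ico] at hi hj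
      exact hinj i j hi.1 hi.2 hj.1 hj.2 h
    have hs := Finset.surjOn_of_injOn_of_card_le τ hmaps hio le_rfl
    intro j h1 h2
    have hj : j ∈ ((Finset.Ico 1 n : Finset ℕ) : Set ℕ) := by
      rw [Finset.mem_coe, Finset.mem_Ico]; exact ⟨h1, h2⟩
    obtain ⟨i, hi, hij⟩ := hs hj
    rw [Finset.mem_coe, Finset.mem_Ico] at hi
    exact ⟨i, hi.1, hi.2, hij⟩
  by_cases hn : n ≤ 1
  · left
    intro i h1 h2
    omega
  have hn2 : 1 < n := by omega
  have h1 := hτ 1 le_rfl hn2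
  have hend : τ 1 = 1 ∨ τ 1 = n - 1 := by
    by_contra hcon
    rw [not_or] at hcon
    obtain ⟨hc1, hc2⟩ := hcon
    obtain ⟨a, ha1, ha2, ha⟩ := hsurj (τ 1 - 1) (by omega) (by omega)
    obtain ⟨b, hb1, hb2, hb⟩ := hsurj (τ 1 + 1) (by omega) (by omega)
    have e1 := (hadj 1 a le_rfl hn2 ha1 ha2).2 (Or.inl (by omega))
    have e2 := (hadj 1 b le_rfl hn2 hb1 hb2).2 (Or.inr (by omega))
    have : a = b := by omega
    subst this
    omega
  rcases hend with h | h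
  · left
    intro i
    induction i using Nat.strong_induction_on with
    | _ i ih =>
      intro hi1 hi2
      by_cases hi : i = 1
      · subst hi; exact h
      · have ih1 := ih (i - 1) (by omega) (by omega) (by omega)
        have had := (hadj i (i - 1) hi1 hi2 (by omega) (by omega)).1 (Or.inl (by omega))
        rcases had with had | had
        · omega
        · exfalso
          have hr := hτ i hi1 hi2
          have ih2 := ih (i - 2) (by omega) (by omega) (by omega)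
          have := hinj i (i - 2) hi1 hi2 (by omega) (by omega) (by omega)
          omega
  · right
    intro i
    induction i using Nat.strong_induction_on with
    | _ i ih =>
      intro hi1 hi2
      by_cases hi : i = 1
      · subst hi; exact h
      · have ih1 := ih (i - 1) (by omega) (by omega) (by omega)
        have had := (hadj i (i - 1) hi1 hi2 (by omega) (by omega)).1 (Or.inl (by omega))
        rcases had with had | had
        · exfalso
          have hr := hτ i hi1 hi2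
          have ih2 := ih (i - 2) (by omega) (by omega) (by omega)
          have := hinj i (i - 2) hi1 hi2 (by omega) (by omega) (by omega)
          omega
        · omega

/-- the atoms `s_i` -/
theorem exists_atoms {n : ℕ} {w : Equiv.Perm (Fin n)} (hw : Strong w) :
    ∃ σ : ℕ → Set.Iic w, ∀ i, 1 ≤ i → i < n → IsBeta (σ i).1 (i - 1) 1 1 := by
  have h : ∀ i : ℕ, ∃ s : Set.Iic w, 1 ≤ i → i < n → IsBeta s.1 (i - 1) 1 1 := by
    intro i
    by_cases hi : 1 ≤ i ∧ i < n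
    · obtain ⟨β, hβ⟩ := exists_beta (n := n) (p := i - 1) (b := 1) (c := 1) le_rfl le_rfl
        (by omega)
      exact ⟨⟨β, (AA_iff_le hi.1 hβ).1 (hw.AA hi.1 hi.2)⟩, fun _ _ => hβ⟩
    · exact ⟨⟨w, Set.self_mem_Iic⟩, fun h1 h2 => absurd ⟨h1, h2⟩ hi⟩
  choose σ hσ using h
  exact ⟨σ, hσ⟩

theorem IsBeta.eq_of_eq {n : ℕ} {x : Equiv.Perm (Fin n)} {i j : ℕ} (hi : 1 ≤ i) (hi' : i < n)
    (hj : 1 ≤ j) (_hj' : j < n) (h1 : IsBeta x (i - 1) 1 1) (h2 : IsBeta x (j - 1) 1 1) :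
    i = j := by
  have e1 := (h1.AA_iff (i := i) hi'.le).2 (by omega)
  have e2 := (h2.AA_iff (i := i) hi'.le).1 e1
  omega

/-- the isomorphism on the indices of the atoms -/
theorem exists_tau {n m : ℕ} {w : Equiv.Perm (Fin n)} {w' : Equiv.Perm (Fin m)} (hw : Strong w)
    (φ : Set.Iic w ≃o Set.Iic w') :
    ∃ (σ : ℕ → Set.Iic w) (τ : ℕ → ℕ), (∀ i, 1 ≤ i → i < n → IsBeta (σ i).1 (i - 1) 1 1) ∧
      (∀ i, 1 ≤ i → i < n → 1 ≤ τ i ∧ τ i < m) ∧
      (∀ i, 1 ≤ i → i < n → IsBeta (φ (σ i)).1 (τ i - 1) 1 1) ∧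
      (∀ i j, 1 ≤ i → i < n → 1 ≤ j → j < n → τ i = τ j → i = j) := by
  obtain ⟨σ, hσ⟩ := exists_atoms hw
  have h : ∀ i : ℕ, ∃ t : ℕ, 1 ≤ i → i < n → 1 ≤ t ∧ t < m ∧
      IsBeta (φ (σ i)).1 (t - 1) 1 1 := by
    intro i
    by_cases hi : 1 ≤ i ∧ i < n
    · have hat : IsAtom (σ i) := (isAtom_iff (σ i)).2 ⟨i, hi.1, hi.2, hσ i hi.1 hi.2⟩
      have hat' : IsAtom (φ (σ i)) := (OrderIso.isAtom_iff φ (σ i)).2 hat
      obtain ⟨t, ht1, ht2, ht3⟩ := (isAtom_iff (φ (σ i))).1 hat'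
      exact ⟨t, fun _ _ => ⟨ht1, ht2, ht3⟩⟩
    · exact ⟨0, fun h1 h2 => absurd ⟨h1, h2⟩ hi⟩
  choose τ hτ using h
  refine ⟨σ, τ, hσ, fun i h1 h2 => ⟨(hτ i h1 h2).1, (hτ i h1 h2).2.1⟩,
    fun i h1 h2 => (hτ i h1 h2).2.2, ?_⟩
  intro i j hi hi' hj hj' hij
  have e1 := (hτ i hi hi').2.2
  have e2 := (hτ j hj hj').2.2
  rw [← hij] at e2
  have e3 : (φ (σ i)).1 = (φ (σ j)).1 := IsBeta.unique e1 e2
  have e4 : σ i = σ j := φ.injective (Subtype.ext e3)
  have e5 := hσ i hi hi'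
  rw [e4] at e5
  exact IsBeta.eq_of_eq hi hi' hj hj' e5 (hσ j hj hj')

theorem size_le {n m : ℕ} {w : Equiv.Perm (Fin n)} {w' : Equiv.Perm (Fin m)} (hw : Strong w)
    (φ : Set.Iic w ≃o Set.Iic w') : n - 1 ≤ m - 1 := by
  obtain ⟨σ, τ, -, h1, -, h2⟩ := exists_tau hw φ
  have := Finset.card_le_card_of_injOn (s := Finset.Ico 1 n) (t := Finset.Ico 1 m) τ
    (fun i hi => by
      rw [Finset.mem_coe, Finset.mem_Ico] at hi ⊢
      exact h1 i hi.1 hi.2)
    (fun i hi j hj h => by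
      rw [Finset.mem_coe, Finset.mem_Ico] at hi hj
      exact h2 i j hi.1 hi.2 hj.1 hj.2 h)
  simpa using this

/-- same number of atoms, `isAtom_iff` -/
theorem same_size {n m : ℕ} {w : Equiv.Perm (Fin n)} {w' : Equiv.Perm (Fin m)} (hw : Strong w)
    (hw' : Strong w') (φ : Set.Iic w ≃o Set.Iic w') : n = m := by
  have h1 := size_le hw φ
  have h2 := size_le hw' φ.symm
  have h3 := hw.two_le
  have h4 := hw'.two_le
  omega

/-- `φ` maps the atom `s_i` to some atom `s_(τ i)`; `no_lub_iff` and `path_auto`; then `AA_iff_le`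
with the `β` for `s_i`. -/
theorem atoms_dichotomy {n : ℕ} {w w' : Equiv.Perm (Fin n)} (hw : Strong w) (hw' : Strong w')
    (φ : Set.Iic w ≃o Set.Iic w') :
    (∀ (x : Set.Iic w) (i : ℕ), 1 ≤ i → i < n → (AA i x.1 ↔ AA i (φ x).1)) ∨
    (∀ (x : Set.Iic w) (i : ℕ), 1 ≤ i → i < n → (AA i x.1 ↔ AA (n - i) (φ x).1)) := by
  obtain ⟨σ, τ, hσ, h1, h3, h2⟩ := exists_tau hw φ
  have key : ∀ (x : Set.Iic w) (i : ℕ), 1 ≤ i → i < n → (AA i x.1 ↔ AA (τ i) (φ x).1) := by
    intro x i hi hi'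
    have a1 := AA_iff_le (x := x.1) hi (hσ i hi hi')
    have a2 := AA_iff_le (x := (φ x).1) (h1 i hi hi').1 (h3 i hi hi')
    rw [a1, a2]
    change σ i ≤ x ↔ φ (σ i) ≤ φ x
    exact (φ.le_iff_le).symm
  have hlub : ∀ x y : Set.Iic w, (∃ c, IsLUB {x, y} c) ↔ ∃ c, IsLUB {φ x, φ y} c := by
    intro x y
    constructor
    · rintro ⟨c, hc⟩
      refine ⟨φ c, ?_⟩
      have := (φ.isLUB_image' (s := {x, y}) (x := c)).2 hc
      rwa [Set.image_pair] at this
    · rintro ⟨c, hc⟩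
      refine ⟨φ.symm c, ?_⟩
      rw [← φ.isLUB_image', Set.image_pair, φ.apply_symm_apply]
      exact hc
  rcases path_auto τ h1 h2 (fun i j hi hi' hj hj' => by
    rw [← no_lub_iff hw hi hj (hσ i hi hi') (hσ j hj hj'),
      ← no_lub_iff hw' (h1 i hi hi').1 (h1 j hj hj').1 (h3 i hi hi') (h3 j hj hj'),
      hlub]) with h | h
  · left
    intro x i hi hi'
    have := key x i hi hi'
    rwa [h i hi hi'] at this
  · right
    intro x i hi hi'
    have := key x i hi hi'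
    rwa [h i hi hi'] at this

end SH
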