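import Pool.Agent.LibSH29.C4

/-!
# The partial inversion on rank functions (row C8)

`iF k` is the effect of the partial inversion on `dd`. Everything here is arithmetic with
`rr_add_dd` (all arguments are `≤ n`): `AA i x ↔ dd x i i < i`, `UU i x ↔ dd x i (i+1) < i`,
`VV i x ↔ dd x (i+1) i < i` (for `1 ≤ i`), `dd x (k+1) k < k → dd x k k < k` (`dd_mono`).
-/

set_option autoImplicit false

namespace SH

variable {n : ℕ}

/-- effect of the partial inversion at `k` on the function `dd` -/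
def iF (k : ℕ) (d : ℕ → ℕ → ℕ) (a j : ℕ) : ℕ :=
  if a ≤ k ∧ j ≤ k then d a j
  else if k < a ∧ k < j then d j a
  else if k < a then (if d k a = k then j else d k j)
  else (if d j k = k then a else d a k)

theorem c8_AA (x : Equiv.Perm (Fin n)) {i : ℕ} (hi' : i < n) : AA i x ↔ dd x i i < i := by
  unfold AA
  have h := rr_add_dd x i (j := i) (by omega)
  omega

theorem c8_UU (x : Equiv.Perm (Fin n)) {i : ℕ} (hi' : i + 1 < n) :
    UU i x ↔ dd x i (i + 1) < i := by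
  unfold UU
  have h := rr_add_dd x i (j := i + 1) (by omega)
  omega

theorem c8_VV (x : Equiv.Perm (Fin n)) {i : ℕ} (hi' : i + 1 < n) :
    VV i x ↔ dd x (i + 1) i < i := by
  unfold VV
  have h := rr_add_dd x (i + 1) (j := i) (by omega)
  omega

theorem iF_AA {x y : Equiv.Perm (Fin n)} {k : ℕ}
    (h : ∀ a ≤ n, ∀ j ≤ n, dd y a j = iF k (dd x) a j) {i : ℕ} (hi : 1 ≤ i) (hi' : i < n) :
    AA i x ↔ AA i y := by
  have _ := hi
  rw [c8_AA x hi', c8_AA y hi', h i (by omega) i (by omega)]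
  unfold iF
  by_cases hk : i ≤ k
  · rw [if_pos ⟨hk, hk⟩]
  · rw [if_neg (by omega), if_pos (by omega)]

theorem iF_lt {x y : Equiv.Perm (Fin n)} {k : ℕ}
    (h : ∀ a ≤ n, ∀ j ≤ n, dd y a j = iF k (dd x) a j) {i : ℕ} (hi : 1 ≤ i) (hi' : i + 1 < n)
    (hk : i < k) : (UU i x ↔ UU i y) ∧ (VV i x ↔ VV i y) := by
  have _ := hi
  rw [c8_UU x hi', c8_UU y hi', c8_VV x hi', c8_VV y hi', h i (by omega) (i + 1) (by omega),
    h (i + 1) (by omega) i (by omega)]
  unfold iF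
  rw [if_pos (by omega), if_pos (by omega)]
  exact ⟨Iff.rfl, Iff.rfl⟩

theorem iF_ge {x y : Equiv.Perm (Fin n)} {k : ℕ}
    (h : ∀ a ≤ n, ∀ j ≤ n, dd y a j = iF k (dd x) a j) {i : ℕ} (hi : 1 ≤ i) (hi' : i + 1 < n)
    (hk1 : 1 ≤ k) (hk : k ≤ i) : (UU i x ↔ VV i y) ∧ (VV i x ↔ UU i y) := by
  have _ := hi
  have _ := hk1
  rw [c8_UU x hi', c8_UU y hi', c8_VV x hi', c8_VV y hi', h i (by omega) (i + 1) (by omega),
    h (i + 1) (by omega) i (by omega)]
  unfold iF
  rcases Nat.lt_or_ge k i with hk2 | hk2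
  · rw [if_neg (by omega), if_pos (by omega), if_neg (by omega), if_pos (by omega)]
    exact ⟨Iff.rfl, Iff.rfl⟩
  · obtain rfl : k = i := by omega
    rw [if_neg (show ¬ (k + 1 ≤ k ∧ k ≤ k) by omega),
      if_neg (show ¬ (k < k + 1 ∧ k < k) by omega), if_pos (show k < k + 1 by omega),
      if_neg (show ¬ (k ≤ k ∧ k + 1 ≤ k) by omega),
      if_neg (show ¬ (k < k ∧ k < k + 1) by omega), if_neg (show ¬ k < k by omega)]
    have h1 := rr_add_dd x k (j := k + 1) (by omega)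
    have h2 := rr_ge x k (j := k + 1) (by omega)
    have h3 := rr_add_dd x (k + 1) (j := k) (by omega)
    have h4 := dd_mono x (Nat.le_succ k) (le_refl k)
    have h5 := dd_mono x (le_refl k) (Nat.le_succ k)
    have h6 : k.succ = k + 1 := rfl
    rw [h6] at h4 h5
    constructor
    · split_ifs <;> omega
    · split_ifs <;> omega

/-- the partial inversion keeps strong permutations (`w' ≠ 1` from `AA`) -/
theorem iF_strong {x y : Equiv.Perm (Fin n)} {k : ℕ} (hk1 : 1 ≤ k)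
    (h : ∀ a ≤ n, ∀ j ≤ n, dd y a j = iF k (dd x) a j) (hx : Strong x) : Strong y := by
  have h2 := hx.two_le
  refine ⟨ne_one_of_AA (i := 1) (by omega)
    ((iF_AA h le_rfl (by omega)).1 (hx.AA le_rfl (by omega))), fun i hi hi' => ?_⟩
  rcases Nat.lt_or_ge i k with hk | hk
  · exact ⟨(iF_lt h hi hi' hk).1.1 (hx.2 i hi hi').1, (iF_lt h hi hi' hk).2.1 (hx.2 i hi hi').2⟩
  · exact ⟨(iF_ge h hi hi' hk1 hk).2.1 (hx.2 i hi hi').2,
      (iF_ge h hi hi' hk1 hk).1.1 (hx.2 i hi hi').1⟩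

/-- `flip` exchanges `s_i` and `s_(n-i)` -/
theorem AA_flip {x : Equiv.Perm (Fin n)} {i : ℕ} (hi : 1 ≤ i) (hi' : i < n) :
    AA i (flip x) ↔ AA (n - i) x := by
  have _ := hi
  unfold AA
  rw [rr_flip x (by omega) (by omega)]

/-- `rr_flip`: `UU i (flip x) ↔ 2 ≤ rr x (n-i-1) (n-i) ↔ UU (n-i-1) x`,
`VV i (flip x) ↔ VV (n-i-1) x` -/
theorem Strong.flip {x : Equiv.Perm (Fin n)} (hx : Strong x) : Strong (SH.flip x) := by
  have h2 := hx.two_le
  refine ⟨ne_one_of_AA (i := 1) (by omega)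
    ((AA_flip le_rfl (by omega)).2 (hx.AA (by omega) (by omega))), fun i hi hi' => ?_⟩
  have h3 := hx.2 (n - i - 1) (by omega) (by omega)
  unfold UU VV at h3 ⊢
  rw [rr_flip x (by omega) (by omega), rr_flip x (by omega) (by omega)]
  have e1 : n - (i + 1) = n - i - 1 := by omega
  have e2 : n - i - 1 + 1 = n - i := by omega
  rw [e2] at h3
  rw [e1]
  exact h3

/-- inversion exchanges `UU` and `VV` (`rr_inv`) -/
theorem UU_inv {x : Equiv.Perm (Fin n)} {i : ℕ} (hi : 1 ≤ i) (hi' : i + 1 < n) :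
    UU i x ↔ VV i x⁻¹ := by
  have _ := hi
  rw [c8_UU x hi', c8_VV x⁻¹ hi', dd_inv]

end SH
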