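import Pool.Agent.LibSH29.C4

/-!
# Rigidity (row C9)
-/

set_option autoImplicit false

namespace SH

variable {n : ℕ}

/-- By `le_iff`: let `a, j ≤ n`. If `rr x a j ≤ j - a` use `rr_ge`. Otherwise `exists_beta_of_lt`
gives `β` with `β ≤ x` (`IsBeta.le_iff`), `β ≠ x`, so `β ≤ x'` and `rr x a j = b ≤ rr x' a j`. -/
theorem le_of_not_beta {x x' : Equiv.Perm (Fin n)} (hx : ¬ ∃ p b c, IsBeta x p b c)
    (h : ∀ y, y < x → y ≤ x') : x ≤ x' := by
  rw [le_iff]
  intro a ha j hj
  by_cases h1 : rr x a j ≤ j - a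
  · exact h1.trans (rr_ge x' a hj)
  · obtain ⟨p, b, c, β, hβ, hpc, hpb, hb⟩ := exists_beta_of_lt x ha hj (not_le.1 h1)
    have h2 : β ≤ x := by
      rw [hβ.le_iff, hpc, hpb, hb]
    have h3 : β ≠ x := fun he => hx ⟨p, b, c, he ▸ hβ⟩
    have h4 := h β (lt_of_le_of_ne h2 h3)
    rw [hβ.le_iff, hpc, hpb, hb] at h4
    exact h4

theorem beta_lt_absurd {x x' : Equiv.Perm (Fin n)} {p b c b' c' : ℕ} (hx : IsBeta x p b c)
    (hx' : IsBeta x' p b' c') (hN : b + c = b' + c') (hbb : b < b')
    (hU : ∀ i, 1 ≤ i → i + 1 < n → (UU i x ↔ UU i x'))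
    (h : ∀ y, y < x → y ≤ x') (h' : ∀ y, y < x' → y ≤ x) : False := by
  have hb1 := hx.1
  have hc1 := hx.2.1
  have hn := hx.2.2.1
  have hb1' := hx'.1
  have hc1' := hx'.2.1
  have hn' := hx'.2.2.1
  by_cases h3 : b + c = 3
  · have h1 := hx.UU_iff h3
    have h2 := hx'.UU_iff (by omega)
    have h4 := hU (p + 1) (by omega) (by omega)
    rw [h1, h2] at h4
    omega
  by_cases hb2 : 2 ≤ b
  · obtain ⟨γ, hγ⟩ := exists_beta (n := n) (p := p + 1) (b := b - 1) (c := c) (by omega) (by omega)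
      (by omega)
    have h1 : γ ≤ x := by
      rw [hγ.le_iff, hx.2.2.2 _ _ (by omega) (by omega)]
      omega
    have h2 : γ ≠ x := by
      intro he
      have e1 := hx.2.2.2 (p + c) (p + b) (by omega) (by omega)
      have e2 := hγ.2.2.2 (p + c) (p + b) (by omega) (by omega)
      rw [he] at e2
      omega
    have h4 := h γ (lt_of_le_of_ne h1 h2)
    rw [hγ.le_iff, hx'.2.2.2 _ _ (by omega) (by omega)] at h4
    omega
  · have hb : b = 1 := by omega
    by_cases hb3 : 3 ≤ b'
    · obtain ⟨γ, hγ⟩ := exists_beta (n := n) (p := p) (b := b' - 1) (c := c') (by omega) (by omega)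
        (by omega)
      have h1 : γ ≤ x' := by
        rw [hγ.le_iff, hx'.2.2.2 _ _ (by omega) (by omega)]
        omega
      have h2 : γ ≠ x' := by
        intro he
        have e1 := hx'.2.2.2 (p + c') (p + b') (by omega) (by omega)
        have e2 := hγ.2.2.2 (p + c') (p + b') (by omega) (by omega)
        rw [he] at e2
        omega
      have h4 := h' γ (lt_of_le_of_ne h1 h2)
      rw [hγ.le_iff, hx.2.2.2 _ _ (by omega) (by omega)] at h4
      omega
    · have hb' : b' = 2 := by omega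
      obtain ⟨γ, hγ⟩ := exists_beta (n := n) (p := p) (b := 2) (c := 1) (by omega) (by omega)
        (by omega)
      have h1 : γ ≤ x' := by
        rw [hγ.le_iff, hx'.2.2.2 _ _ (by omega) (by omega)]
        omega
      have h2 : γ ≠ x' := by
        intro he
        have e1 := hx'.2.2.2 (p + c') (p + 2) (by omega) (by omega)
        have e2 := hγ.2.2.2 (p + c') (p + 2) (by omega) (by omega)
        rw [he] at e2
        omega
      have h4 := h' γ (lt_of_le_of_ne h1 h2)
      rw [hγ.le_iff, hx.2.2.2 _ _ (by omega) (by omega)] at h4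
      omega

/-- Two `β` with the same atoms, the same `UU` and the same strict lower sets are equal.
Proof. `IsBeta.AA_iff` gives `p = p'`, `b + c = b' + c' = N` (`i = p + 1` and `i = p + b + c - 1`).
`N = 2` is clear, `N = 3` is `IsBeta.UU_iff`. `N ≥ 4` and, say, `b < b'` (the statement is
symmetric): if `2 ≤ b` take `γ` with `IsBeta γ (p + 1) (b - 1) c` (so `γ ≤ y` iff
`b - 1 ≤ rr y (p + c + 1) (p + b)`): it is `< x` and not `≤ x'`. If `b = 1` and `3 ≤ b'` take `IsBeta γ p (b' - 1) c'`: it is `< x'` and not `≤ x`. If `b = 1` and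
`b' = 2` take `IsBeta γ p 2 1`: it is `< x'` and not `≤ x` (`c' ≥ 2`). All by `IsBeta.le_iff` and
the formula; `γ ≠ x` because the values at one place differ. -/
theorem beta_eq {x x' : Equiv.Perm (Fin n)} {p b c p' b' c' : ℕ} (hx : IsBeta x p b c)
    (hx' : IsBeta x' p' b' c') (hA : ∀ i, 1 ≤ i → i < n → (AA i x ↔ AA i x'))
    (hU : ∀ i, 1 ≤ i → i + 1 < n → (UU i x ↔ UU i x'))
    (h : ∀ y, y < x → y ≤ x') (h' : ∀ y, y < x' → y ≤ x) : x = x' := by
  have hb1 := hx.1
  have hc1 := hx.2.1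
  have hn := hx.2.2.1
  have hb1' := hx'.1
  have hc1' := hx'.2.1
  have hn' := hx'.2.2.1
  have key : ∀ i, 1 ≤ i → i < n →
      ((p + 1 ≤ i ∧ i + 1 ≤ p + b + c) ↔ (p' + 1 ≤ i ∧ i + 1 ≤ p' + b' + c')) := by
    intro i h1 h2
    rw [← hx.AA_iff (by omega), ← hx'.AA_iff (by omega)]
    exact hA i h1 h2
  have k1 := (key (p + 1) (by omega) (by omega)).1 ⟨by omega, by omega⟩
  have k2 := (key (p' + 1) (by omega) (by omega)).2 ⟨by omega, by omega⟩
  have k3 := (key (p + b + c - 1) (by omega) (by omega)).1 ⟨by omega, by omega⟩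
  have k4 := (key (p' + b' + c' - 1) (by omega) (by omega)).2 ⟨by omega, by omega⟩
  obtain rfl : p = p' := by omega
  have hN : b + c = b' + c' := by omega
  rcases lt_trichotomy b b' with hbb | hbb | hbb
  · exact (beta_lt_absurd hx hx' hN hbb hU h h').elim
  · subst hbb
    obtain rfl : c = c' := by omega
    exact hx.unique hx'
  · exact (beta_lt_absurd hx' hx hN.symm hbb (fun i h1 h2 => (hU i h1 h2).symm) h' h).elim

/-- Strong induction on `x` (`Set.Iic w` is finite): all `y < x` are fixed, so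
`y < x ↔ y < φ x` for all `y` (elements below `φ x` are in `[1, w']`, take the preimage). If `x` is
not a `β` then `x ≤ φ x` (`le_of_not_beta`) and `x < φ x` is impossible; if `φ x` is not a `β` then
`φ x ≤ x`; if both are use `beta_eq`. -/
theorem rigid {w w' : Equiv.Perm (Fin n)} (φ : Set.Iic w ≃o Set.Iic w')
    (hA : ∀ (x : Set.Iic w) (i : ℕ), 1 ≤ i → i < n → (AA i x.1 ↔ AA i (φ x).1))
    (hU : ∀ (x : Set.Iic w) (i : ℕ), 1 ≤ i → i + 1 < n → (UU i x.1 ↔ UU i (φ x).1))
    (x : Set.Iic w) : (φ x).1 = x.1 := by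
  have : Finite (Set.Iic w) := inferInstance
  have hwf : WellFounded ((· < ·) : Set.Iic w → Set.Iic w → Prop) :=
    (Finite.to_wellFoundedLT : WellFoundedLT (Set.Iic w)).wf
  induction x using hwf.induction with
  | _ x ih =>
    have c1 : ∀ y, y < x.1 → y < (φ x).1 := by
      intro y hy
      have hyw : y ≤ w := hy.le.trans x.2
      have h1 : (⟨y, hyw⟩ : Set.Iic w) < x := hy
      have h2 := ih _ h1
      have h3 : φ ⟨y, hyw⟩ < φ x := φ.lt_iff_lt.2 h1
      have h4 : (φ ⟨y, hyw⟩).1 < (φ x).1 := h3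
      rw [h2] at h4
      exact h4
    have c2 : ∀ y, y < (φ x).1 → y < x.1 := by
      intro y hy
      have hyw : y ≤ w' := hy.le.trans (φ x).2
      obtain ⟨z, hz⟩ := φ.surjective ⟨y, hyw⟩
      have h1 : φ z < φ x := by
        rw [hz]; exact hy
      have h2 : z < x := φ.lt_iff_lt.1 h1
      have h3 := ih z h2
      rw [hz] at h3
      have h4 : z.1 < x.1 := h2
      have h5 : y = z.1 := h3
      rw [h5]
      exact h4
    by_cases hb : ∃ p b c, IsBeta x.1 p b c
    · by_cases hb' : ∃ p b c, IsBeta (φ x).1 p b c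
      · obtain ⟨p, b, c, hx⟩ := hb
        obtain ⟨p', b', c', hx'⟩ := hb'
        exact (beta_eq hx hx' (hA x) (hU x) (fun y hy => (c1 y hy).le)
          (fun y hy => (c2 y hy).le)).symm
      · have h1 := le_of_not_beta hb' (fun y hy => (c2 y hy).le)
        rcases h1.lt_or_eq with h2 | h2
        · exact (lt_irrefl _ (c1 _ h2)).elim
        · exact h2
    · have h1 := le_of_not_beta hb (fun y hy => (c1 y hy).le)
      rcases h1.lt_or_eq with h2 | h2
      · exact (lt_irrefl _ (c2 _ h2)).elim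
      · exact h2.symm

end SH
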