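import Pool.Agent.LibSH29.Defs
import Pool.Agent.LibSH29.C1

/-!
# Stratified sets and their polynomial isomorphisms (row S1)
-/

set_option autoImplicit false

namespace SH

open MvPolynomial

/-- a stratified set: strata in an affine space, indexed by a poset -/
structure Str where
  /-- the poset -/
  P : Type
  [ord : PartialOrder P]
  /-- the coordinates -/
  σ : Type
  /-- the strata -/
  S : P → Set (σ → ℂ)

attribute [instance] Str.ord

/-- the polynomial map with components `F` -/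
noncomputable def evm {σ τ : Type} (F : τ → MvPolynomial σ ℂ) (p : σ → ℂ) : τ → ℂ :=
  fun j => eval p (F j)

/-- there are polynomial maps, inverse to each other on the strata, which map the stratum `x` onto
the stratum `φ x` -/
def Str.Iso (A B : Str) (φ : A.P ≃o B.P) : Prop :=
  ∃ (F : B.σ → MvPolynomial A.σ ℂ) (G : A.σ → MvPolynomial B.σ ℂ),
    (∀ x, ∀ p ∈ A.S x, evm F p ∈ B.S (φ x) ∧ evm G (evm F p) = p) ∧
    ∀ y, ∀ q ∈ B.S y, evm G q ∈ A.S (φ.symm y) ∧ evm F (evm G q) = q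

/-- isomorphic stratified sets -/
def Str.Eqv (A B : Str) : Prop := ∃ φ : A.P ≃o B.P, A.Iso B φ

/-- the strata `U ∩ B x B`, `x ≤ w` -/
def Iw {n : ℕ} (w : Equiv.Perm (Fin n)) : Str where
  P := Set.Iic w
  σ := Lo n
  S x := Cell 1 x.1

/-- the product of two -/
def Str.prod (A B : Str) : Str where
  P := A.P × B.P
  σ := A.σ ⊕ B.σ
  S x := {p | (fun i => p (Sum.inl i)) ∈ A.S x.1 ∧ (fun i => p (Sum.inr i)) ∈ B.S x.2}

/-- the product of a family -/
def Str.pi {ι : Type} (A : ι → Str) : Str where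
  P := ∀ l, (A l).P
  σ := Σ l, (A l).σ
  S x := {p | ∀ l, (fun i => p ⟨l, i⟩) ∈ (A l).S (x l)}

private theorem S1_evm_X {σ : Type} (p : σ → ℂ) :
    evm (fun j => (X j : MvPolynomial σ ℂ)) p = p := by
  funext j
  simp [evm]

private theorem S1_evm_bind {σ τ υ : Type} (F : τ → MvPolynomial σ ℂ) (F' : υ → MvPolynomial τ ℂ)
    (p : σ → ℂ) : evm (fun j => bind₁ F (F' j)) p = evm F' (evm F p) := by
  funext j
  simp only [evm]
  exact eval₂Hom_bind₁ (RingHom.id ℂ) p F (F' j)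

theorem Str.Iso.refl (A : Str) : A.Iso A (OrderIso.refl _) := by
  refine ⟨fun j => X j, fun j => X j, ?_, ?_⟩
  · intro x p hp
    have h : evm (fun j => X j) p = p := S1_evm_X p
    rw [h, h]
    exact ⟨hp, rfl⟩
  · intro x p hp
    have h : evm (fun j => X j) p = p := S1_evm_X p
    rw [h, h]
    exact ⟨hp, rfl⟩

theorem Str.Iso.symm {A B : Str} {φ : A.P ≃o B.P} (h : A.Iso B φ) : B.Iso A φ.symm := by
  obtain ⟨F, G, h1, h2⟩ := h
  exact ⟨G, F, h2, h1⟩

/-- composition of polynomial maps: `MvPolynomial.bind₁` -/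
theorem Str.Iso.trans {A B C : Str} {φ : A.P ≃o B.P} {ψ : B.P ≃o C.P} (h : A.Iso B φ)
    (h' : B.Iso C ψ) : A.Iso C (φ.trans ψ) := by
  obtain ⟨F, G, h1, h2⟩ := h
  obtain ⟨F', G', h1', h2'⟩ := h'
  refine ⟨fun j => bind₁ F (F' j), fun j => bind₁ G' (G j), ?_, ?_⟩
  · intro x p hp
    obtain ⟨a1, a2⟩ := h1 x p hp
    obtain ⟨b1, b2⟩ := h1' (φ x) _ a1
    rw [S1_evm_bind, S1_evm_bind, b2, a2]
    exact ⟨b1, rfl⟩
  · intro y q hq
    obtain ⟨a1, a2⟩ := h2' y q hq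
    obtain ⟨b1, b2⟩ := h2 (ψ.symm y) _ a1
    rw [S1_evm_bind, S1_evm_bind, b2, a2]
    exact ⟨b1, rfl⟩

/-- construction from maps of the index posets -/
theorem Str.Iso.of_maps (A B : Str) (F : B.σ → MvPolynomial A.σ ℂ) (G : A.σ → MvPolynomial B.σ ℂ)
    (hA : ∀ x, (A.S x).Nonempty) (hB : ∀ y, (B.S y).Nonempty)
    (hAd : ∀ x x' p, p ∈ A.S x → p ∈ A.S x' → x = x')
    (hBd : ∀ y y' q, q ∈ B.S y → q ∈ B.S y' → y = y') (f : A.P → B.P) (g : B.P → A.P)
    (hf : Monotone f) (hg : Monotone g)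
    (hF : ∀ x, ∀ p ∈ A.S x, evm F p ∈ B.S (f x) ∧ evm G (evm F p) = p)
    (hG : ∀ y, ∀ q ∈ B.S y, evm G q ∈ A.S (g y) ∧ evm F (evm G q) = q) :
    ∃ φ : A.P ≃o B.P, (∀ x, φ x = f x) ∧ A.Iso B φ := by
  have hgf : ∀ x, g (f x) = x := by
    intro x
    obtain ⟨p, hp⟩ := hA x
    obtain ⟨a1, a2⟩ := hF x p hp
    obtain ⟨b1, _⟩ := hG (f x) _ a1
    rw [a2] at b1
    exact hAd _ _ p b1 hp
  have hfg : ∀ y, f (g y) = y := by
    intro y
    obtain ⟨q, hq⟩ := hB y
    obtain ⟨a1, a2⟩ := hG y q hq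
    obtain ⟨b1, _⟩ := hF (g y) _ a1
    rw [a2] at b1
    exact hBd _ _ q b1 hq
  refine ⟨{ toFun := f, invFun := g, left_inv := hgf, right_inv := hfg, map_rel_iff' := ?_ },
    fun _ => rfl, F, G, hF, hG⟩
  intro a b
  constructor
  · intro h
    have := hg h
    rw [Equiv.coe_fn_mk, hgf, hgf] at this
    exact this
  · intro h
    exact hf h

end SH
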