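import Pool.Agent.LibSH29.G9d
import Pool.Agent.LibSH29.S1

/-!
# Splitting of stratified sets (row G9e)

`wL, wR` from `exists_split w`. `Str.Iso.of_maps` with `F` = the coordinates (`evm F p = (resL p, resR p)`
on `Lo (a+1) ⊕ Lo (b+1)`), `G` = the coordinates or `0` (`evm G q = glue (q ∘ inl) (q ∘ inr)`),
`f`, `g` from `exists_split`, `exists_glue` (choice), monotone and with the right bounds by
`Sp.le_iff` (`rr_mono`-type remark: `x ≤ w` gives `rr x (a+1) a ≤ rr w (a+1) a = 0`).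
-/

set_option autoImplicit false

namespace SH

open MvPolynomial

variable {a b : ℕ}

/-- the coordinates of the two blocks -/
noncomputable def FG9 (a b : ℕ) : Lo (a + 1) ⊕ Lo (b + 1) → MvPolynomial (Lo (a + b + 1)) ℂ
  | Sum.inl q => X ⟨(⟨q.1.1.val, by omega⟩, ⟨q.1.2.val, by omega⟩), by
      have := q.2
      simp only [Fin.lt_def] at this ⊢
      exact this⟩
  | Sum.inr q => X ⟨(⟨a + q.1.1.val, by omega⟩, ⟨a + q.1.2.val, by omega⟩), by
      have := q.2
      simp only [Fin.lt_def] at this ⊢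
      omega⟩

/-- the coordinates of the glued point -/
noncomputable def GG9 (a b : ℕ) : Lo (a + b + 1) → MvPolynomial (Lo (a + 1) ⊕ Lo (b + 1)) ℂ :=
  fun q =>
  if h : q.1.1.val ≤ a then X (Sum.inl ⟨(⟨q.1.1.val, by omega⟩, ⟨q.1.2.val, by
      have := q.2
      simp only [Fin.lt_def] at this
      omega⟩), by
        have := q.2
        simp only [Fin.lt_def] at this ⊢
        exact this⟩)
  else if h' : a ≤ q.1.2.val then X (Sum.inr ⟨(⟨q.1.1.val - a, by omega⟩,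
      ⟨q.1.2.val - a, by omega⟩), by
      have := q.2
      simp only [Fin.lt_def] at this ⊢
      omega⟩)
  else 0

theorem evm_FG9_inl (p : Lo (a + b + 1) → ℂ) :
    (fun i => evm (FG9 a b) p (Sum.inl i)) = resL p := by
  funext q
  simp only [evm, FG9, eval_X, resL]

theorem evm_FG9_inr (p : Lo (a + b + 1) → ℂ) :
    (fun i => evm (FG9 a b) p (Sum.inr i)) = resR p := by
  funext q
  simp only [evm, FG9, eval_X, resR]

theorem evm_GG9 (q : Lo (a + 1) ⊕ Lo (b + 1) → ℂ) :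
    evm (GG9 a b) q = glue (fun i => q (Sum.inl i)) (fun i => q (Sum.inr i)) := by
  funext r
  unfold evm GG9 glue
  by_cases h : r.1.1.val ≤ a
  · rw [dif_pos h, dif_pos h, eval_X]
  · rw [dif_neg h, dif_neg h]
    by_cases h' : a ≤ r.1.2.val
    · rw [dif_pos h', dif_pos h', eval_X]
    · rw [dif_neg h', dif_neg h', map_zero]

theorem G9 {a b : ℕ} (w : Equiv.Perm (Fin (a + b + 1))) (hw : rr w (a + 1) a = 0) :
    ∃ (wL : Equiv.Perm (Fin (a + 1))) (wR : Equiv.Perm (Fin (b + 1))),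
      (Iw w).Eqv ((Iw wL).prod (Iw wR)) := by
  classical
  obtain ⟨wL, wR, hwS, -⟩ := exists_split w hw
  refine ⟨wL, wR, ?_⟩
  have hx0 : ∀ x : Set.Iic w, rr x.1 (a + 1) a = 0 := by
    intro x
    have h1 : rr x.1 (a + 1) a ≤ rr w (a + 1) a := le_def.1 x.2 (a + 1) a
    omega
  choose yL yR hS hC using fun x : Set.Iic w => exists_split x.1 (hx0 x)
  choose gx hgS hgC using fun y : Equiv.Perm (Fin (a + 1)) × Equiv.Perm (Fin (b + 1)) =>
    exists_glue y.1 y.2
  have hle : ∀ x : Set.Iic w, yL x ≤ wL ∧ yR x ≤ wR := fun x => ((hS x).le_iff hwS).1 x.2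
  have hge : ∀ y : Set.Iic wL × Set.Iic wR, gx (y.1.1, y.2.1) ≤ w := fun y =>
    ((hgS (y.1.1, y.2.1)).le_iff hwS).2 ⟨y.1.2, y.2.2⟩
  have hF : ∀ (x : Set.Iic w) (p : Lo (a + b + 1) → ℂ), p ∈ Cell 1 x.1 →
      ((fun i => evm (FG9 a b) p (Sum.inl i)) ∈ Cell 1 (yL x) ∧
        (fun i => evm (FG9 a b) p (Sum.inr i)) ∈ Cell 1 (yR x)) ∧
      evm (GG9 a b) (evm (FG9 a b) p) = p := by
    intro x p hp
    obtain ⟨h1, h2, h3⟩ := hC x p hp
    refine ⟨⟨?_, ?_⟩, ?_⟩
    · rw [evm_FG9_inl]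
      exact h2
    · rw [evm_FG9_inr]
      exact h3
    · rw [evm_GG9, evm_FG9_inl, evm_FG9_inr]
      exact glue_res h1
  have hG : ∀ (y : Set.Iic wL × Set.Iic wR) (q : Lo (a + 1) ⊕ Lo (b + 1) → ℂ),
      (fun i => q (Sum.inl i)) ∈ Cell 1 y.1.1 → (fun i => q (Sum.inr i)) ∈ Cell 1 y.2.1 →
      evm (GG9 a b) q ∈ Cell 1 (gx (y.1.1, y.2.1)) ∧ evm (FG9 a b) (evm (GG9 a b) q) = q := by
    intro y q h1 h2
    refine ⟨?_, ?_⟩
    · rw [evm_GG9]
      exact hgC (y.1.1, y.2.1) _ h1 _ h2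
    · rw [evm_GG9]
      funext r
      rcases r with r | r
      · have := congrFun (evm_FG9_inl (glue (fun i => q (Sum.inl i)) (fun i => q (Sum.inr i)))) r
        rw [resL_glue] at this
        exact this
      · have := congrFun (evm_FG9_inr (glue (fun i => q (Sum.inl i)) (fun i => q (Sum.inr i)))) r
        rw [resR_glue] at this
        exact this
  obtain ⟨φ, -, hφ⟩ := Str.Iso.of_maps (Iw w) ((Iw wL).prod (Iw wR)) (FG9 a b) (GG9 a b)
    (fun x => cell_nonempty x.1)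
    (fun y => by
      obtain ⟨pL, hpL⟩ := cell_nonempty y.1.1
      obtain ⟨pR, hpR⟩ := cell_nonempty y.2.1
      exact ⟨Sum.elim pL pR, hpL, hpR⟩)
    (fun x x' p h h' => Subtype.ext (cell_unique h h'))
    (fun y y' q h h' => Prod.ext (Subtype.ext (cell_unique h.1 h'.1))
      (Subtype.ext (cell_unique h.2 h'.2)))
    (fun x => (⟨yL x, (hle x).1⟩, ⟨yR x, (hle x).2⟩))
    (fun y => ⟨gx (y.1.1, y.2.1), hge y⟩)
    (fun x x' h => by
      have := ((hS x).le_iff (hS x')).1 h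
      exact ⟨this.1, this.2⟩)
    (fun y y' h => ((hgS (y.1.1, y.2.1)).le_iff (hgS (y'.1.1, y'.2.1))).2 ⟨h.1, h.2⟩)
    (fun x p hp => hF x p hp)
    (fun y q hq => hG y q hq.1 hq.2)
  exact ⟨φ, hφ⟩

end SH
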