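import Pool.Agent.LibSH29.S1

/-!
# Products of stratified sets (row S2)
-/

set_option autoImplicit false

namespace SH

open MvPolynomial

theorem evm_rename {σ τ ρ : Type} (g : σ → ρ) (f : τ → MvPolynomial σ ℂ) (p : ρ → ℂ) (i : τ) :
    eval p (rename g (f i)) = evm f (fun j => p (g j)) i := by
  rw [eval_rename]
  rfl

/-- products of isomorphisms, with a bijection of the index sets (`MvPolynomial.rename`) -/
theorem Str.Iso.pi {ι κ : Type} {A : ι → Str} {B : κ → Str} (e : ι ≃ κ)
    (φ : ∀ l, (A l).P ≃o (B (e l)).P) (h : ∀ l, (A l).Iso (B (e l)) (φ l))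
    (Φ : (Str.pi A).P ≃o (Str.pi B).P)
    (hΦ : ∀ (x : ∀ l, (A l).P) (l : ι), Φ x (e l) = φ l (x l)) :
    (Str.pi A).Iso (Str.pi B) Φ := by
  choose F0 G0 h1 h2 using h
  let E : (Σ l, (B (e l)).σ) ≃ (Σ k, (B k).σ) := Equiv.sigmaCongrLeft (β := fun k => (B k).σ) e
  have hE : ∀ (l : ι) (i : (B (e l)).σ), E.symm ⟨e l, i⟩ = ⟨l, i⟩ := by
    intro l i
    rw [Equiv.symm_apply_eq]
    rfl
  let F : (Str.pi B).σ → MvPolynomial (Str.pi A).σ ℂ := fun q =>
    rename (Sigma.mk (E.symm q).1) (F0 (E.symm q).1 (E.symm q).2)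
  let G : (Str.pi A).σ → MvPolynomial (Str.pi B).σ ℂ := fun q =>
    rename (fun j => (⟨e q.1, j⟩ : Σ k, (B k).σ)) (G0 q.1 q.2)
  have hF : ∀ (p : (Str.pi A).σ → ℂ) (l : ι),
      (fun i => evm F p ⟨e l, i⟩) = evm (F0 l) (fun i => p ⟨l, i⟩) := by
    intro p l
    funext i
    change eval p (rename (Sigma.mk (E.symm ⟨e l, i⟩).1)
      (F0 (E.symm ⟨e l, i⟩).1 (E.symm ⟨e l, i⟩).2)) = _
    rw [hE]
    exact evm_rename _ _ _ _
  have hG : ∀ (q : (Str.pi B).σ → ℂ) (l : ι),
      (fun i => evm G q ⟨l, i⟩) = evm (G0 l) (fun i => q ⟨e l, i⟩) := by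
    intro q l
    funext i
    exact evm_rename _ _ _ _
  refine ⟨F, G, ?_, ?_⟩
  · intro x p hp
    constructor
    · intro k
      obtain ⟨l, rfl⟩ := e.surjective k
      have h3 := (h1 l (x l) (fun i => p ⟨l, i⟩) (hp l)).1
      rw [← hF] at h3
      have h4 : Φ x (e l) = φ l (x l) := hΦ x l
      rw [← h4] at h3
      exact h3
    · funext z
      obtain ⟨l, i⟩ := z
      have h3 := (h1 l (x l) (fun i => p ⟨l, i⟩) (hp l)).2
      rw [← hF, ← hG] at h3
      exact congrFun h3 i
  · intro y q hq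
    have hs : ∀ l, (Φ.symm y) l = (φ l).symm (y (e l)) := by
      intro l
      rw [OrderIso.eq_symm_apply, ← hΦ]
      change (Φ (Φ.symm y)) (e l) = _
      rw [OrderIso.apply_symm_apply]
    constructor
    · intro l
      have h3 := (h2 l (y (e l)) (fun i => q ⟨e l, i⟩) (hq (e l))).1
      rw [← hG, ← hs] at h3
      exact h3
    · funext z
      obtain ⟨k, i⟩ := z
      obtain ⟨l, rfl⟩ := e.surjective k
      have h3 := (h2 l (y (e l)) (fun i => q ⟨e l, i⟩) (hq (e l))).2
      rw [← hG, ← hF] at h3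
      exact congrFun h3 i

theorem Str.Eqv.prod {A A' B B' : Str} (h : A.Eqv A') (h' : B.Eqv B') :
    (A.prod B).Eqv (A'.prod B') := by
  obtain ⟨φ, F1, G1, h1, h2⟩ := h
  obtain ⟨ψ, F2, G2, h3, h4⟩ := h'
  let F : (A'.prod B').σ → MvPolynomial (A.prod B).σ ℂ :=
    Sum.elim (fun i => rename Sum.inl (F1 i)) (fun i => rename Sum.inr (F2 i))
  let G : (A.prod B).σ → MvPolynomial (A'.prod B').σ ℂ :=
    Sum.elim (fun i => rename Sum.inl (G1 i)) (fun i => rename Sum.inr (G2 i))
  have hFl : ∀ p : (A.prod B).σ → ℂ, (fun i => evm F p (Sum.inl i)) =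
      evm F1 (fun i => p (Sum.inl i)) := fun p => funext fun i => evm_rename _ _ _ _
  have hFr : ∀ p : (A.prod B).σ → ℂ, (fun i => evm F p (Sum.inr i)) =
      evm F2 (fun i => p (Sum.inr i)) := fun p => funext fun i => evm_rename _ _ _ _
  have hGl : ∀ p : (A'.prod B').σ → ℂ, (fun i => evm G p (Sum.inl i)) =
      evm G1 (fun i => p (Sum.inl i)) := fun p => funext fun i => evm_rename _ _ _ _
  have hGr : ∀ p : (A'.prod B').σ → ℂ, (fun i => evm G p (Sum.inr i)) =
      evm G2 (fun i => p (Sum.inr i)) := fun p => funext fun i => evm_rename _ _ _ _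
  let χ : (A.prod B).P ≃o (A'.prod B').P :=
    { toFun := fun x => (φ x.1, ψ x.2)
      invFun := fun y => (φ.symm y.1, ψ.symm y.2)
      left_inv := fun x => by
        change (φ.symm (φ x.1), ψ.symm (ψ x.2)) = x
        rw [OrderIso.symm_apply_apply, OrderIso.symm_apply_apply]
        rfl
      right_inv := fun y => by
        change (φ (φ.symm y.1), ψ (ψ.symm y.2)) = y
        rw [OrderIso.apply_symm_apply, OrderIso.apply_symm_apply]
        rfl
      map_rel_iff' := by
        intro x y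
        change (φ x.1 ≤ φ y.1 ∧ ψ x.2 ≤ ψ y.2) ↔ (x.1 ≤ y.1 ∧ x.2 ≤ y.2)
        rw [φ.le_iff_le, ψ.le_iff_le] }
  refine ⟨χ, F, G, ?_, ?_⟩
  · intro x p hp
    obtain ⟨hp1, hp2⟩ := hp
    obtain ⟨a1, a2⟩ := h1 x.1 _ hp1
    obtain ⟨b1, b2⟩ := h3 x.2 _ hp2
    rw [← hFl] at a1 a2
    rw [← hFr] at b1 b2
    rw [← hGl] at a2
    rw [← hGr] at b2
    refine ⟨⟨a1, b1⟩, ?_⟩
    funext z
    rcases z with i | i
    · exact congrFun a2 i
    · exact congrFun b2 i
  · intro y q hq
    obtain ⟨hp1, hp2⟩ := hq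
    obtain ⟨a1, a2⟩ := h2 y.1 _ hp1
    obtain ⟨b1, b2⟩ := h4 y.2 _ hp2
    rw [← hGl] at a1 a2
    rw [← hGr] at b1 b2
    rw [← hFl] at a2
    rw [← hFr] at b2
    refine ⟨⟨a1, b1⟩, ?_⟩
    funext z
    rcases z with i | i
    · exact congrFun a2 i
    · exact congrFun b2 i

theorem evm_X {σ τ : Type} (g : τ → σ) (p : σ → ℂ) :
    evm (fun i => (X (g i) : MvPolynomial σ ℂ)) p = fun i => p (g i) := by
  funext i
  simp [evm]

theorem Str.prod_pi {ι κ : Type} (C : ι ⊕ κ → Str) :
    ((Str.pi fun l => C (Sum.inl l)).prod (Str.pi fun k => C (Sum.inr k))).Eqv (Str.pi C) := by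
  let φ : ((Str.pi fun l => C (Sum.inl l)).prod (Str.pi fun k => C (Sum.inr k))).P ≃o
      (Str.pi C).P :=
    { toFun := fun x z => match z with
        | Sum.inl l => x.1 l
        | Sum.inr k => x.2 k
      invFun := fun y => (fun l => y (Sum.inl l), fun k => y (Sum.inr k))
      left_inv := fun x => rfl
      right_inv := fun y => by
        funext z
        rcases z with l | k <;> rfl
      map_rel_iff' := by
        intro x y
        constructor
        · intro h
          exact ⟨fun l => h (Sum.inl l), fun k => h (Sum.inr k)⟩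
        · rintro ⟨h1, h2⟩ z
          rcases z with l | k
          · exact h1 l
          · exact h2 k }
  let f : (Str.pi C).σ → ((Str.pi fun l => C (Sum.inl l)).prod (Str.pi fun k => C (Sum.inr k))).σ :=
    fun z => match z with
      | ⟨Sum.inl l, i⟩ => Sum.inl ⟨l, i⟩
      | ⟨Sum.inr k, i⟩ => Sum.inr ⟨k, i⟩
  let g : ((Str.pi fun l => C (Sum.inl l)).prod (Str.pi fun k => C (Sum.inr k))).σ → (Str.pi C).σ :=
    fun z => match z with
      | Sum.inl ⟨l, i⟩ => ⟨Sum.inl l, i⟩
      | Sum.inr ⟨k, i⟩ => ⟨Sum.inr k, i⟩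
  refine ⟨φ, fun i => X (f i), fun i => X (g i), ?_, ?_⟩
  · intro x p hp
    rw [evm_X, evm_X]
    refine ⟨?_, ?_⟩
    · intro z
      rcases z with l | k
      · exact hp.1 l
      · exact hp.2 k
    · funext z
      rcases z with ⟨l, i⟩ | ⟨k, i⟩ <;> rfl
  · intro y q hq
    rw [evm_X, evm_X]
    refine ⟨⟨fun l => hq (Sum.inl l), fun k => hq (Sum.inr k)⟩, ?_⟩
    funext z
    obtain ⟨l | k, i⟩ := z <;> rfl

/-- product over one index -/
theorem Str.Eqv.unit (A : Str) : A.Eqv (Str.pi fun _ : Unit => A) := by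
  let φ : A.P ≃o (Str.pi fun _ : Unit => A).P :=
    { toFun := fun x _ => x
      invFun := fun y => y ()
      left_inv := fun x => rfl
      right_inv := fun y => rfl
      map_rel_iff' := by
        intro x y
        constructor
        · intro h
          exact h ()
        · intro h _
          exact h }
  let f : (Str.pi fun _ : Unit => A).σ → A.σ := fun z => z.2
  let g : A.σ → (Str.pi fun _ : Unit => A).σ := fun i => ⟨(), i⟩
  refine ⟨φ, fun i => X (f i), fun i => X (g i), ?_, ?_⟩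
  · intro x p hp
    rw [evm_X, evm_X]
    exact ⟨fun _ => hp, rfl⟩
  · intro y q hq
    rw [evm_X, evm_X]
    exact ⟨hq (), rfl⟩

/-- product over the empty set: for `A` with one element and one point -/
theorem Str.Eqv.empty (A : Str) [Unique A.P] (p : A.σ → ℂ) (hp : A.S default = {p})
    (C : Empty → Str) : A.Eqv (Str.pi C) := by
  let φ : A.P ≃o (Str.pi C).P :=
    { toFun := fun _ z => z.elim
      invFun := fun _ => default
      left_inv := fun x => (Subsingleton.elim _ _)
      right_inv := fun y => by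
        funext z
        exact z.elim
      map_rel_iff' := by
        intro x y
        constructor
        · intro _
          exact le_of_eq (Subsingleton.elim _ _)
        · intro _ z
          exact z.elim }
  refine ⟨φ, fun z => z.1.elim, fun i => MvPolynomial.C (p i), ?_, ?_⟩
  · intro x q hq
    have hx : x = default := Subsingleton.elim _ _
    subst hx
    rw [hp] at hq
    have hq' : q = p := hq
    subst hq'
    refine ⟨fun z => z.elim, ?_⟩
    funext i
    simp [evm]
  · intro y q hq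
    refine ⟨?_, ?_⟩
    · have h1 : φ.symm y = default := Subsingleton.elim _ _
      rw [h1, hp]
      change _ = p
      funext i
      simp [evm]
    · funext z
      exact z.1.elim

theorem Str.Eqv.trans {A B C : Str} (h : A.Eqv B) (h' : B.Eqv C) : A.Eqv C := by
  obtain ⟨φ, h⟩ := h
  obtain ⟨ψ, h'⟩ := h'
  exact ⟨φ.trans ψ, h.trans h'⟩

theorem Str.Eqv.symm {A B : Str} (h : A.Eqv B) : B.Eqv A := by
  obtain ⟨φ, h⟩ := h
  exact ⟨φ.symm, h.symm⟩

end SH
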