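import Pool.Agent.LibSH29.G6
import Pool.Agent.LibSH29.G9e
import Pool.Agent.LibSH29.S2
import Pool.Agent.LibSH29.C8

/-!
# Decomposition into strong factors (row D1)

Strong induction on `n`. `w = 1`: `Str.Eqv.empty` (`Set.Iic 1` has one element, `Cell 1 1 = {0}` by
`umat_unique`/`mem_cell` : `umat x ∈ B` iff `x = 0`). `w` strong: `Str.Eqv.unit`. Otherwise there is
`i` with `1 ≤ i`, `i + 1 < n` and `¬ UU i w` or `¬ VV i w`. If `¬ VV i w`: `rr w (i+1) i = 0`, write
`n = i + b + 1`, use `G9` (sizes `i + 1`, `b + 1`, both `< n`), the induction hypothesis for both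
factors, `Str.Eqv.prod`, `Str.prod_pi` (index type `ι ⊕ κ`, `nn = Sum.elim nn₁ nn₂`). If `¬ UU i w`:
then `¬ VV i w⁻¹` (`UU_inv`), `inv_iso`, and the first case for `w⁻¹`.
-/

set_option autoImplicit false

namespace SH

/-- isomorphic to a product of strong intervals -/
def Dec (A : Str) : Prop :=
  ∃ (ι : Type) (nn : ι → ℕ) (ww : ∀ l, Equiv.Perm (Fin (nn l))), (∀ l, Strong (ww l)) ∧
    A.Eqv (Str.pi fun l => Iw (ww l))

theorem Dec.prod {A B : Str} (hA : Dec A) (hB : Dec B) : Dec (A.prod B) := by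
  obtain ⟨ι, nn, ww, h1, h2⟩ := hA
  obtain ⟨κ, mm, vv, h3, h4⟩ := hB
  refine ⟨ι ⊕ κ, Sum.elim nn mm, fun s => match s with
    | Sum.inl l => ww l
    | Sum.inr k => vv k, ?_, ?_⟩
  · rintro (l | k)
    · exact h1 l
    · exact h3 k
  · refine (Str.Eqv.prod h2 h4).trans ?_
    exact Str.prod_pi (fun s : ι ⊕ κ => match s with
      | Sum.inl l => Iw (ww l)
      | Sum.inr k => Iw (vv k))  |>.trans (by
        have : (fun s : ι ⊕ κ => (match s with
          | Sum.inl l => Iw (ww l)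
          | Sum.inr k => Iw (vv k) : Str)) = fun s => Iw (match s with
            | Sum.inl l => ww l
            | Sum.inr k => vv k : Equiv.Perm (Fin (Sum.elim nn mm s))) := by
          funext s
          rcases s with l | k <;> rfl
        rw [this]
        exact ⟨OrderIso.refl _, Str.Iso.refl _⟩)

theorem Dec.of_eqv {A B : Str} (h : A.Eqv B) (hB : Dec B) : Dec A := by
  obtain ⟨ι, nn, ww, h1, h2⟩ := hB
  exact ⟨ι, nn, ww, h1, h.trans h2⟩

theorem cell_one_one (n : ℕ) : Cell (1 : Equiv.Perm (Fin n)) 1 = {0} := by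
  ext x
  rw [Set.mem_singleton_iff]
  constructor
  · rintro ⟨b, b', hb, hb', h⟩
    rw [pmat_one, one_mul, mul_one] at h
    apply umat_unique IsB.one (hb.mul hb')
    rw [umat_zero, mul_one, one_mul]
    exact h
  · rintro rfl
    refine ⟨1, 1, IsB.one, IsB.one, ?_⟩
    rw [umat_zero, pmat_one]
    simp

theorem one_le_perm {n : ℕ} (x : Equiv.Perm (Fin n)) : (1 : Equiv.Perm (Fin n)) ≤ x :=
  (bot_le : (⊥ : Equiv.Perm (Fin n)) ≤ x)

/-- the interval of the identity has one element -/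
@[reducible] def uniqueIic (n : ℕ) : Unique (Set.Iic (1 : Equiv.Perm (Fin n))) where
  default := ⟨1, Set.mem_Iic.2 le_rfl⟩
  uniq := fun x => Subtype.ext (le_antisymm x.2 (one_le_perm x.1))

theorem Dec.one (n : ℕ) : Dec (Iw (1 : Equiv.Perm (Fin n))) := by
  letI hU : Unique (Iw (1 : Equiv.Perm (Fin n))).P := uniqueIic n
  have hS : (Iw (1 : Equiv.Perm (Fin n))).S hU.default = {(0 : Lo n → ℂ)} := cell_one_one n
  have h := Str.Eqv.empty (Iw (1 : Equiv.Perm (Fin n))) (0 : Lo n → ℂ) hS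
    (fun l : Empty => Iw (Empty.elim l : Equiv.Perm (Fin (Empty.elim l))))
  exact ⟨Empty, fun l => Empty.elim l, fun l => Empty.elim l, fun l => Empty.elim l, h⟩

theorem Dec.step {n : ℕ} (ih : ∀ m < n, ∀ w : Equiv.Perm (Fin m), Dec (Iw w))
    (w : Equiv.Perm (Fin n)) {i : ℕ} (hi : 1 ≤ i) (hi' : i + 1 < n) (h : ¬ VV i w) :
    Dec (Iw w) := by
  obtain ⟨b, rfl⟩ : ∃ b, n = i + b + 1 := ⟨n - i - 1, by omega⟩
  have h0 : rr w (i + 1) i = 0 := by
    unfold VV at h
    omega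
  obtain ⟨wL, wR, hE⟩ := G9 w h0
  exact Dec.of_eqv hE (Dec.prod (ih (i + 1) (by omega) wL) (ih (b + 1) (by omega) wR))

theorem dec (n : ℕ) (w : Equiv.Perm (Fin n)) : Dec (Iw w) := by
  induction n using Nat.strong_induction_on with
  | _ n ih =>
    by_cases h1 : w = 1
    · rw [h1]
      exact Dec.one n
    · by_cases h2 : Strong w
      · exact ⟨Unit, fun _ => n, fun _ => w, fun _ => h2, Str.Eqv.unit _⟩
      · have h3 : ∃ i, 1 ≤ i ∧ i + 1 < n ∧ ¬ (UU i w ∧ VV i w) := by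
          by_contra hcon
          push Not at hcon
          exact h2 ⟨h1, hcon⟩
        obtain ⟨i, hi, hi', h4⟩ := h3
        by_cases h5 : VV i w
        · have h6 : ¬ UU i w := fun h => h4 ⟨h, h5⟩
          rw [UU_inv hi hi'] at h6
          have h7 : Dec (Iw w⁻¹) := Dec.step ih w⁻¹ hi hi' h6
          obtain ⟨φ, -, hφ⟩ := inv_iso w
          exact Dec.of_eqv (A := Iw w) (B := Iw w⁻¹) ⟨φ, hφ⟩ h7
        · exact Dec.step ih w hi hi' h5

end SH
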