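import Pool.Agent.LibSH29.Rk

/-!
# Local rings of Schubert varieties at torus fixed points

Schubert variety `X_w`: closure of `B w B / B` in `GL_n / B`, `B` upper triangular. The chart of
`GL_n / B` around the fixed point `e_v` is `u ↦ v u B`, `u` lower unitriangular, with coordinates the
entries below the diagonal; `e_v` is the point `0`. In this chart `X_w` is the closure of `Cell v w`.
-/

set_option autoImplicit false

namespace SH

open MvPolynomial

/-- pairs (row, column) below the diagonal -/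
abbrev Lo (n : ℕ) : Type := {p : Fin n × Fin n // p.2 < p.1}

/-- the lower unitriangular matrix with the entries `x` below the diagonal -/
def umat {R : Type*} [Zero R] [One R] {n : ℕ} (x : Lo n → R) : Matrix (Fin n) (Fin n) R :=
  fun i j => if h : j < i then x ⟨(i, j), h⟩ else if i = j then 1 else 0

/-- invertible upper triangular matrices -/
def IsB {n : ℕ} (b : Matrix (Fin n) (Fin n) ℂ) : Prop :=
  (∀ i j : Fin n, j < i → b i j = 0) ∧ ∀ i, b i i ≠ 0

/-- the permutation matrix `e_j ↦ e_{w j}` -/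
def pmat {n : ℕ} (w : Equiv.Perm (Fin n)) : Matrix (Fin n) (Fin n) ℂ :=
  fun i j => if i = w j then 1 else 0

/-- the cell `B w B / B` in the chart around `e_v` -/
def Cell {n : ℕ} (v w : Equiv.Perm (Fin n)) : Set (Lo n → ℂ) :=
  {x | ∃ b b', IsB b ∧ IsB b' ∧ pmat v * umat x = b * pmat w * b'}

/-- the maximal ideal of all polynomials vanishing at `p` -/
noncomputable def mAt {σ : Type} (p : σ → ℂ) : Ideal (MvPolynomial σ ℂ) :=
  Ideal.span (Set.range fun i => X i - C (p i))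

/-- the sum of the ideal of `Z` and the power `k + 1` of the maximal ideal of `p` -/
noncomputable abbrev IQ {σ : Type} (Z : Set (σ → ℂ)) (p : σ → ℂ) (k : ℕ) : Ideal (MvPolynomial σ ℂ) :=
  vanishingIdeal ℂ Z ⊔ mAt p ^ (k + 1)

/-- `𝒪 / 𝔪 ^ (k + 1)` for the local ring `𝒪` at `p` of the Zariski closure of `Z` -/
abbrev RQ {σ : Type} (Z : Set (σ → ℂ)) (p : σ → ℂ) (k : ℕ) : Type :=
  MvPolynomial σ ℂ ⧸ IQ Z p k

/-- `𝒪 / 𝔪 ^ (k + 1)` and `𝒪' / 𝔪' ^ (k + 1)` are isomorphic for all `k`, where `𝒪`, `𝒪'` are the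
local rings at `0` of the Zariski closures of `Z`, `Z'` -/
def SameJets {σ τ : Type} (Z : Set (σ → ℂ)) (Z' : Set (τ → ℂ)) : Prop :=
  ∀ k, Nonempty (RQ Z 0 k ≃ₐ[ℂ] RQ Z' 0 k)

/-- the polynomial map `F` maps `A` bijectively onto `B`, with inverse `G` -/
def PolyIso {σ τ : Type} (F : τ → MvPolynomial σ ℂ) (G : σ → MvPolynomial τ ℂ)
    (A : Set (σ → ℂ)) (B : Set (τ → ℂ)) : Prop :=
  (∀ p ∈ A, (fun j => eval p (F j)) ∈ B ∧ (fun i => eval (fun j => eval p (F j)) (G i)) = p) ∧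
    ∀ q ∈ B, (fun i => eval q (G i)) ∈ A ∧ (fun j => eval (fun i => eval q (G i)) (F j)) = q

/-- `dim 𝒪 / 𝔪 ^ (k + 1)` for the local ring `𝒪` at `p` of the Zariski closure of `Z` -/
noncomputable def hsAt {σ : Type} (Z : Set (σ → ℂ)) (p : σ → ℂ) (k : ℕ) : ℕ :=
  Module.finrank ℂ (RQ Z p k)

/-- `dim 𝒪 / 𝔪 ^ (k + 1)` for the local ring `𝒪` of the Schubert variety `X_w` at `e_v` -/
noncomputable def hs {n : ℕ} (v w : Equiv.Perm (Fin n)) (k : ℕ) : ℕ := hsAt (Cell v w) 0 k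

/-- the `h`-polynomial of `X_w` at `e_v`: `(1 - q) ^ ℓ(w) ∑_k dim (𝔪 ^ k / 𝔪 ^ (k + 1)) q ^ k` -/
noncomputable def H {n : ℕ} (v w : Equiv.Perm (Fin n)) : PowerSeries ℤ :=
  (1 - PowerSeries.X) ^ len w *
    PowerSeries.mk fun k => (hs v w k : ℤ) - if k = 0 then 0 else (hs v w (k - 1) : ℤ)

end SH
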