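import Mathlib

/-!
# Isomorphisms between products of connected posets: atoms of a product (row F1)
-/

set_option autoImplicit false

namespace SH

/-- two elements without least upper bound -/
def NoLub {P : Type} [PartialOrder P] (x y : P) : Prop := ¬ ∃ c, IsLUB {x, y} c

/-- a poset with a non-empty set of atoms, connected by pairs of atoms without least upper bound -/
def Conn (P : Type) [PartialOrder P] [OrderBot P] : Prop :=
  (∃ a : P, IsAtom a) ∧ ∀ a b : P, IsAtom a → IsAtom b →
    Relation.ReflTransGen (fun x y => IsAtom x ∧ IsAtom y ∧ NoLub x y) a b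

variable {ι : Type} {P : ι → Type} [∀ l, PartialOrder (P l)] [∀ l, OrderBot (P l)]

/-- `x` is an atom in the coordinate `l` (see `Pi.isAtom_iff`) -/
def AtomAt (l : ι) (x : ∀ l, P l) : Prop := IsAtom (x l) ∧ ∀ m, m ≠ l → x m = ⊥

theorem isAtom_pi_iff (x : ∀ l, P l) : IsAtom x ↔ ∃ l, AtomAt l x := by
  classical
  exact Pi.isAtom_iff

theorem AtomAt.unique {l m : ι} {x : ∀ l, P l} (hx : AtomAt l x) (hy : AtomAt m x) : l = m := by
  by_contra h
  exact hx.1.1 (hy.2 l h)

/-- atoms at different coordinates have the least upper bound with the components of both -/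
theorem AtomAt.eq_of_noLub {l m : ι} {x y : ∀ l, P l} (hx : AtomAt l x) (hy : AtomAt m y)
    (h : NoLub x y) : l = m := by
  classical
  by_contra hlm
  apply h
  refine ⟨Function.update x m (y m), ?_, ?_⟩
  · rintro z (rfl | rfl)
    · intro k
      rcases eq_or_ne k m with rfl | hk
      · rw [Function.update_self, hx.2 k (fun h' => hlm h'.symm)]
        exact bot_le
      · rw [Function.update_of_ne hk]
    · intro k
      rcases eq_or_ne k m with rfl | hk
      · rw [Function.update_self]
      · rw [hy.2 k hk]
        exact bot_le
  · intro w hw k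
    rcases eq_or_ne k m with rfl | hk
    · rw [Function.update_self]
      exact hw (Set.mem_insert_of_mem _ rfl) k
    · rw [Function.update_of_ne hk]
      exact hw (Set.mem_insert _ _) k

/-- if `x l`, `y l` have no least upper bound then `x`, `y` have none (project to `l`: a least upper
bound `c` of `x, y` gives the least upper bound `c l`) -/
theorem AtomAt.noLub {l : ι} {x y : ∀ l, P l} (hx : AtomAt l x) (hy : AtomAt l y)
    (h : NoLub (x l) (y l)) : NoLub x y := by
  classical
  rintro ⟨c, hc⟩
  apply h
  refine ⟨c l, ?_, ?_⟩
  · rintro z (rfl | rfl)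
    · exact hc.1 (Set.mem_insert _ _) l
    · exact hc.1 (Set.mem_insert_of_mem _ rfl) l
  · intro b hb
    have h1 : c ≤ Function.update c l b := by
      apply hc.2
      rintro z (rfl | rfl)
      · intro k
        rcases eq_or_ne k l with rfl | hk
        · rw [Function.update_self]
          exact hb (Set.mem_insert _ _)
        · rw [Function.update_of_ne hk]
          exact hc.1 (Set.mem_insert _ _) k
      · intro k
        rcases eq_or_ne k l with rfl | hk
        · rw [Function.update_self]
          exact hb (Set.mem_insert_of_mem _ rfl)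
        · rw [Function.update_of_ne hk]
          exact hc.1 (Set.mem_insert_of_mem _ rfl) k
    have h2 := h1 l
    rwa [Function.update_self] at h2

theorem atomAt_update [DecidableEq ι] {l : ι} {a : P l} (ha : IsAtom a) :
    AtomAt l (Function.update (⊥ : ∀ l, P l) l a) := by
  refine ⟨?_, fun m hm => ?_⟩
  · rw [Function.update_self]
    exact ha
  · rw [Function.update_of_ne hm]
    rfl

theorem AtomAt.eq_update [DecidableEq ι] {l : ι} {x : ∀ l, P l} (hx : AtomAt l x) :
    x = Function.update (⊥ : ∀ l, P l) l (x l) := by
  funext k
  rcases eq_or_ne k l with rfl | hk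
  · rw [Function.update_self]
  · rw [Function.update_of_ne hk, hx.2 k hk]
    rfl

/-- two atoms of a product of connected posets are connected iff they are at the same coordinate -/
theorem connected_iff (hP : ∀ l, Conn (P l)) {l m : ι} {x y : ∀ l, P l} (hx : AtomAt l x)
    (hy : AtomAt m y) :
    Relation.ReflTransGen (fun x y : ∀ l, P l => IsAtom x ∧ IsAtom y ∧ NoLub x y) x y ↔ l = m := by
  classical
  constructor
  · intro h
    induction h generalizing m with
    | refl => exact hx.unique hy
    | tail _ hbc ih =>
      obtain ⟨k, hk⟩ := (isAtom_pi_iff _).1 hbc.1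
      rw [ih hk]
      exact hk.eq_of_noLub hy hbc.2.2
  · rintro rfl
    rw [hx.eq_update, hy.eq_update]
    have h1 := (hP l).2 _ _ hx.1 hy.1
    have h2 : ∀ a b : P l, (IsAtom a ∧ IsAtom b ∧ NoLub a b) →
        (fun x y : ∀ l, P l => IsAtom x ∧ IsAtom y ∧ NoLub x y)
          (Function.update (⊥ : ∀ l, P l) l a) (Function.update (⊥ : ∀ l, P l) l b) := by
      rintro a b ⟨ha, hb, hab⟩
      refine ⟨(isAtom_pi_iff _).2 ⟨l, atomAt_update ha⟩, (isAtom_pi_iff _).2 ⟨l, atomAt_update hb⟩,
        (atomAt_update ha).noLub (atomAt_update hb) ?_⟩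
      rw [Function.update_self, Function.update_self]
      exact hab
    generalize x l = a, y l = b at h1
    induction h1 with
    | refl => exact Relation.ReflTransGen.refl
    | tail _ hbc ih => exact Relation.ReflTransGen.tail ih (h2 _ _ hbc)

end SH
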