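import Pool.Agent.LibSH29.F1

/-!
# Unique factorisation (row F2)

Plan. `Φ` preserves atoms and `NoLub`, hence (`connected_iff`, and every factor has an atom) there is
a bijection `e : ι ≃ κ` such that `Φ` maps atoms at `l` to atoms at `e l`. An element `x` of a product
has `x m = ⊥` for all `m ≠ l` iff all atoms below `x` are at `l` (finite posets: `x m ≠ ⊥` has an atom
below it, `IsAtomic`). So `Φ` maps the elements concentrated at `l` (`Function.update ⊥ l a`) onto
those concentrated at `e l`; this defines `φ l`. Finally `x` is the least upper bound of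
`{Function.update ⊥ l (x l) | l}`, `Φ` preserves least upper bounds, and
`Φ x (e l)` is the component of the least upper bound of the images.
-/

set_option autoImplicit false

namespace SH

section aux
open scoped Classical

/-- `x` is concentrated at the coordinate `l` -/
def ConAt {ι : Type} {P : ι → Type} [∀ l, PartialOrder (P l)] [∀ l, OrderBot (P l)] (l : ι)
    (x : ∀ l, P l) : Prop := ∀ m, m ≠ l → x m = ⊥

/-- the element with the component `a` at `l`, concentrated at `l` -/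
noncomputable def sgl {ι : Type} {P : ι → Type} [∀ l, PartialOrder (P l)] [∀ l, OrderBot (P l)]
    (l : ι) (a : P l) : ∀ l, P l := Function.update (⊥ : ∀ l, P l) l a

variable {ι : Type} {P : ι → Type} [∀ l, PartialOrder (P l)] [∀ l, OrderBot (P l)]

theorem sgl_self (l : ι) (a : P l) : sgl l a l = a := Function.update_self ..

theorem conAt_sgl (l : ι) (a : P l) : ConAt l (sgl l a) := by
  intro m hm
  unfold sgl
  rw [Function.update_of_ne hm]
  rfl

theorem ConAt.eq_sgl {l : ι} {x : ∀ l, P l} (hx : ConAt l x) : sgl l (x l) = x := by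
  funext k
  rcases eq_or_ne k l with rfl | hk
  · rw [sgl_self]
  · rw [hx k hk, conAt_sgl l _ k hk]

theorem sgl_le_iff {l : ι} {a : P l} {x : ∀ l, P l} : sgl l a ≤ x ↔ a ≤ x l := by
  constructor
  · intro h
    have h1 := h l
    rwa [sgl_self] at h1
  · intro h k
    rcases eq_or_ne k l with rfl | hk
    · rw [sgl_self]
      exact h
    · rw [conAt_sgl l a k hk]
      exact bot_le

theorem conAt_iff [∀ l, Finite (P l)] {l : ι} {x : ∀ l, P l} :
    ConAt l x ↔ ∀ a, IsAtom a → a ≤ x → AtomAt l a := by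
  constructor
  · intro hx a ha hax
    obtain ⟨m, hm⟩ := (isAtom_pi_iff a).1 ha
    have h1 : m = l := by
      by_contra hml
      have h2 := hax m
      rw [hx m hml] at h2
      exact hm.1.1 (le_bot_iff.1 h2)
    rwa [h1] at hm
  · intro h m hm
    by_contra hne
    obtain ⟨b, hb, hbx⟩ := (eq_bot_or_exists_atom_le (x m)).resolve_left hne
    have h1 : AtomAt m (sgl m b) := atomAt_update hb
    exact hm (h1.unique (h _ ((isAtom_pi_iff _).2 ⟨m, h1⟩) (sgl_le_iff.2 hbx)))

variable {κ : Type} {Q : κ → Type} [∀ k, PartialOrder (Q k)] [∀ k, OrderBot (Q k)]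

theorem noLub_map {A B : Type} [PartialOrder A] [PartialOrder B] (Φ : A ≃o B) {x y : A}
    (h : NoLub x y) : NoLub (Φ x) (Φ y) := by
  rintro ⟨c, hc⟩
  apply h
  refine ⟨Φ.symm c, ?_, ?_⟩
  · rintro z (rfl | rfl)
    · rw [OrderIso.le_symm_apply]
      exact hc.1 (Set.mem_insert _ _)
    · rw [OrderIso.le_symm_apply]
      exact hc.1 (Set.mem_insert_of_mem _ rfl)
  · intro b hb
    rw [OrderIso.symm_apply_le]
    apply hc.2
    rintro z (rfl | rfl)
    · exact Φ.monotone (hb (Set.mem_insert _ _))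
    · exact Φ.monotone (hb (Set.mem_insert_of_mem _ rfl))

/-- atoms at the same coordinate go to atoms at the same coordinate -/
theorem same_coord (hP : ∀ l, Conn (P l)) (hQ : ∀ k, Conn (Q k))
    (Φ : (∀ l, P l) ≃o (∀ k, Q k)) {l : ι} {k : κ} {x y : ∀ l, P l} (hx : AtomAt l x)
    (hy : AtomAt l y) (hk : AtomAt k (Φ x)) : AtomAt k (Φ y) := by
  obtain ⟨m, hm⟩ := (isAtom_pi_iff (Φ y)).1 ((OrderIso.isAtom_iff Φ y).2
    ((isAtom_pi_iff y).2 ⟨l, hy⟩))
  have h1 := (connected_iff hP hx hy).2 rfl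
  have h2 : Relation.ReflTransGen (fun x y : ∀ k, Q k => IsAtom x ∧ IsAtom y ∧ NoLub x y)
      (Φ x) (Φ y) := by
    clear hy hm hx hk
    induction h1 with
    | refl => exact Relation.ReflTransGen.refl
    | tail _ hbc ih =>
      exact Relation.ReflTransGen.tail ih ⟨(OrderIso.isAtom_iff Φ _).2 hbc.1,
        (OrderIso.isAtom_iff Φ _).2 hbc.2.1, noLub_map Φ hbc.2.2⟩
  rw [(connected_iff hQ hk hm).1 h2]
  exact hm

theorem exists_coord (hP : ∀ l, Conn (P l)) (hQ : ∀ k, Conn (Q k))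
    (Φ : (∀ l, P l) ≃o (∀ k, Q k)) (l : ι) : ∃ k : κ, ∀ x, AtomAt l x → AtomAt k (Φ x) := by
  obtain ⟨a, ha⟩ := (hP l).1
  have h1 : AtomAt l (sgl l a) := atomAt_update ha
  obtain ⟨k, hk⟩ := (isAtom_pi_iff (Φ (sgl l a))).1 ((OrderIso.isAtom_iff Φ _).2
    ((isAtom_pi_iff _).2 ⟨l, h1⟩))
  exact ⟨k, fun x hx => same_coord hP hQ Φ h1 hx hk⟩

theorem conAt_map [∀ l, Finite (P l)] [∀ k, Finite (Q k)] (Φ : (∀ l, P l) ≃o (∀ k, Q k)) {l : ι}
    {k : κ} (h : ∀ x, AtomAt l x → AtomAt k (Φ x)) {x : ∀ l, P l} (hx : ConAt l x) :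
    ConAt k (Φ x) := by
  rw [conAt_iff]
  intro a ha hax
  have h1 := conAt_iff.1 hx (Φ.symm a) ((OrderIso.isAtom_iff Φ.symm a).2 ha)
    ((OrderIso.symm_apply_le Φ).2 hax)
  have h2 := h _ h1
  rwa [OrderIso.apply_symm_apply] at h2

end aux

theorem factor {ι κ : Type} {P : ι → Type} {Q : κ → Type} [∀ l, PartialOrder (P l)]
    [∀ l, OrderBot (P l)] [∀ l, Finite (P l)] [∀ k, PartialOrder (Q k)] [∀ k, OrderBot (Q k)]
    [∀ k, Finite (Q k)] (hP : ∀ l, Conn (P l)) (hQ : ∀ k, Conn (Q k))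
    (Φ : (∀ l, P l) ≃o (∀ k, Q k)) :
    ∃ (e : ι ≃ κ) (φ : ∀ l, P l ≃o Q (e l)), ∀ (x : ∀ l, P l) (l : ι), Φ x (e l) = φ l (x l) := by
  classical
  choose e he using exists_coord hP hQ Φ
  choose f hf using exists_coord hQ hP Φ.symm
  have hfe : ∀ l, f (e l) = l := by
    intro l
    obtain ⟨a, ha⟩ := (hP l).1
    have h1 : AtomAt l (sgl l a) := atomAt_update ha
    have h2 := hf _ _ (he _ _ h1)
    rw [OrderIso.symm_apply_apply] at h2
    exact h2.unique h1
  have hef : ∀ k, e (f k) = k := by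
    intro k
    obtain ⟨a, ha⟩ := (hQ k).1
    have h1 : AtomAt k (sgl k a) := atomAt_update ha
    have h2 := he _ _ (hf _ _ h1)
    rw [OrderIso.apply_symm_apply] at h2
    exact h2.unique h1
  have h1 : ∀ l (x : ∀ l, P l), ConAt l x → ConAt (e l) (Φ x) := fun l x hx =>
    conAt_map Φ (he l) hx
  have h2 : ∀ l (y : ∀ k, Q k), ConAt (e l) y → ConAt l (Φ.symm y) := fun l y hy => by
    have h3 := conAt_map Φ.symm (hf (e l)) hy
    rwa [hfe] at h3
  let ε : ι ≃ κ := ⟨e, f, hfe, hef⟩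
  let φ : ∀ l, P l ≃o Q (ε l) := fun l =>
    { toFun := fun a => Φ (sgl l a) (e l)
      invFun := fun b => Φ.symm (sgl (e l) b) l
      left_inv := fun a => by
        show Φ.symm (sgl (e l) (Φ (sgl l a) (e l))) l = a
        rw [(h1 l _ (conAt_sgl l a)).eq_sgl, OrderIso.symm_apply_apply, sgl_self]
      right_inv := fun b => by
        show Φ (sgl l (Φ.symm (sgl (e l) b) l)) (e l) = b
        rw [(h2 l _ (conAt_sgl (e l) b)).eq_sgl, OrderIso.apply_symm_apply, sgl_self]
      map_rel_iff' := fun {a b} => by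
        show Φ (sgl l a) (e l) ≤ Φ (sgl l b) (e l) ↔ a ≤ b
        rw [← sgl_le_iff, (h1 l _ (conAt_sgl l a)).eq_sgl, OrderIso.le_iff_le, sgl_le_iff, sgl_self] }
  refine ⟨ε, φ, fun x l => ?_⟩
  show Φ x (e l) = Φ (sgl l (x l)) (e l)
  apply le_antisymm
  · rw [← sgl_le_iff, ← OrderIso.symm_apply_le]
    rw [← (h2 l _ (conAt_sgl (e l) _)).eq_sgl, sgl_le_iff, sgl_self]
    have h3 : Φ.symm (sgl (e l) (Φ x (e l))) ≤ x := by
      rw [OrderIso.symm_apply_le, sgl_le_iff]
    exact h3 l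
  · exact Φ.monotone (sgl_le_iff.2 le_rfl) (e l)

end SH
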