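import Pool.Agent.LibSH29.F1
import Pool.Agent.LibSH29.C4

/-!
# `[1, w]` is connected for strong `w` (row F3)

`isAtom_iff`, `no_lub_iff`; the atoms are `s_1, …, s_(n-1)` (all `≤ w` by `Strong.AA`; they exist by
`exists_beta`), consecutive ones have no least upper bound.
-/

set_option autoImplicit false

namespace SH

private theorem F3_exists {n : ℕ} {w : Equiv.Perm (Fin n)} (hw : Strong w) {i : ℕ} (hi : 1 ≤ i)
    (hi' : i < n) : ∃ x : Set.Iic w, IsBeta x.1 (i - 1) 1 1 := by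
  obtain ⟨β, hβ⟩ := exists_beta (n := n) (p := i - 1) (b := 1) (c := 1) le_rfl le_rfl (by omega)
  exact ⟨⟨β, (AA_iff_le hi hβ).1 (hw.AA hi hi')⟩, hβ⟩

private theorem F3_chain {n : ℕ} {w : Equiv.Perm (Fin n)} (hw : Strong w) (d : ℕ) :
    ∀ (i : ℕ) (x y : Set.Iic w), 1 ≤ i → i + d < n → IsBeta x.1 (i - 1) 1 1 →
      IsBeta y.1 (i + d - 1) 1 1 →
      Relation.ReflTransGen (fun x y : Set.Iic w => IsAtom x ∧ IsAtom y ∧ NoLub x y) x y ∧
      Relation.ReflTransGen (fun x y : Set.Iic w => IsAtom x ∧ IsAtom y ∧ NoLub x y) y x := by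
  induction d with
  | zero =>
    intro i x y hi hn hx hy
    have hxy : x = y := Subtype.ext (hx.unique hy)
    subst hxy
    exact ⟨Relation.ReflTransGen.refl, Relation.ReflTransGen.refl⟩
  | succ d ih =>
    intro i x y hi hn hx hy
    obtain ⟨z, hz⟩ := F3_exists hw (i := i + d) (by omega) (by omega)
    obtain ⟨h1, h2⟩ := ih i x z hi (by omega) hx hz
    have hy' : IsBeta y.1 (i + (d + 1) - 1) 1 1 := hy
    have hza : IsAtom z := (isAtom_iff z).2 ⟨i + d, by omega, by omega, hz⟩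
    have hya : IsAtom y := (isAtom_iff y).2 ⟨i + (d + 1), by omega, by omega, hy⟩
    have hzy : NoLub z y := (no_lub_iff hw (by omega) (by omega) hz hy).2 (Or.inr (by omega))
    have hyz : NoLub y z := (no_lub_iff hw (by omega) (by omega) hy hz).2 (Or.inl (by omega))
    exact ⟨h1.tail ⟨hza, hya, hzy⟩, Relation.ReflTransGen.head ⟨hya, hza, hyz⟩ h2⟩

theorem Strong.conn {n : ℕ} {w : Equiv.Perm (Fin n)} (hw : Strong w) : Conn (Set.Iic w) := by
  have hn := hw.two_le
  refine ⟨?_, ?_⟩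
  · obtain ⟨x, hx⟩ := F3_exists hw (i := 1) le_rfl (by omega)
    exact ⟨x, (isAtom_iff x).2 ⟨1, le_rfl, by omega, hx⟩⟩
  · intro a b ha hb
    obtain ⟨i, hi, hi', hai⟩ := (isAtom_iff a).1 ha
    obtain ⟨j, hj, hj', hbj⟩ := (isAtom_iff b).1 hb
    rcases le_total i j with hij | hij
    · obtain ⟨d, rfl⟩ := Nat.exists_eq_add_of_le hij
      exact (F3_chain hw d i a b hi hj' hai hbj).1
    · obtain ⟨d, rfl⟩ := Nat.exists_eq_add_of_le hij
      exact (F3_chain hw d j b a hj hi' hbj hai).2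

end SH
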