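import Pool.Agent.LibSH29.M1

/-!
# Bruhat decomposition (row M4)

Proof. For every `j : Fin n` consider the vectors `f` with `f j = 1`, `f i = 0` for `i > j`; `g f ≠ 0`
has a last nonzero coordinate; choose `f_j` such that the last nonzero coordinate `w j` of `g f_j` is
minimal (`Nat.find`). `w` is injective: if `w j = w k = m`, `j < k`, then for a suitable `c` the vector
`f_k - c • f_j` is admissible for `k` and the last nonzero coordinate of its image is `< m`. So `w` is a
permutation. `F` = the matrix with columns `f_j` is upper unitriangular, `b` = the matrix with column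
`w j` equal to `g f_j` is upper triangular with nonzero diagonal, `g * F = b * pmat w`.
-/

set_option autoImplicit false

namespace SH

private def M4Adm {n : ℕ} (j : Fin n) (f : Fin n → ℂ) : Prop := f j = 1 ∧ ∀ i, j < i → f i = 0

private def M4Last {n : ℕ} (v : Fin n → ℂ) (m : Fin n) : Prop := v m ≠ 0 ∧ ∀ i, m < i → v i = 0

private theorem M4_exists_last {n : ℕ} {v : Fin n → ℂ} (hv : v ≠ 0) : ∃ m, M4Last v m := by
  classical
  have hne : (Finset.univ.filter fun i : Fin n => v i ≠ 0).Nonempty := by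
    obtain ⟨i, hi⟩ := Function.ne_iff.1 hv
    exact ⟨i, by simpa using hi⟩
  refine ⟨(Finset.univ.filter fun i : Fin n => v i ≠ 0).max' hne, ?_, ?_⟩
  · have := Finset.max'_mem _ hne
    exact (Finset.mem_filter.1 this).2
  · intro i hi
    by_contra h
    have h1 : i ∈ (Finset.univ.filter fun i : Fin n => v i ≠ 0) :=
      Finset.mem_filter.2 ⟨Finset.mem_univ _, h⟩
    exact absurd (Finset.le_max' _ i h1) (not_le.2 hi)

private theorem M4_image_ne {n : ℕ} {g : Matrix (Fin n) (Fin n) ℂ} (hg : IsUnit g.det)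
    {j : Fin n} {f : Fin n → ℂ} (hf : M4Adm j f) : g.mulVec f ≠ 0 := by
  intro h
  have h1 : (g⁻¹ * g).mulVec f = 0 := by
    rw [← Matrix.mulVec_mulVec, h, Matrix.mulVec_zero]
  rw [Matrix.nonsing_inv_mul g hg, Matrix.one_mulVec] at h1
  have h2 := hf.1
  rw [h1] at h2
  simp at h2

private theorem M4_exists_min {n : ℕ} {g : Matrix (Fin n) (Fin n) ℂ} (hg : IsUnit g.det)
    (j : Fin n) : ∃ (f : Fin n → ℂ) (m : Fin n), M4Adm j f ∧ M4Last (g.mulVec f) m ∧
      ∀ f' m', M4Adm j f' → M4Last (g.mulVec f') m' → m ≤ m' := by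
  classical
  have hne : (Finset.univ.filter fun m : Fin n =>
      ∃ f, M4Adm j f ∧ M4Last (g.mulVec f) m).Nonempty := by
    have hf : M4Adm j (Pi.single j (1 : ℂ)) := by
      refine ⟨by simp, ?_⟩
      intro i hi
      rw [Pi.single_apply, if_neg (ne_of_gt hi)]
    obtain ⟨m, hm⟩ := M4_exists_last (M4_image_ne hg hf)
    exact ⟨m, Finset.mem_filter.2 ⟨Finset.mem_univ _, _, hf, hm⟩⟩
  obtain ⟨f, hf1, hf2⟩ := (Finset.mem_filter.1 (Finset.min'_mem _ hne)).2
  refine ⟨f, _, hf1, hf2, ?_⟩
  intro f' m' h1 h2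
  exact Finset.min'_le _ _ (Finset.mem_filter.2 ⟨Finset.mem_univ _, f', h1, h2⟩)

theorem bruhat_exists {n : ℕ} {g : Matrix (Fin n) (Fin n) ℂ} (hg : IsUnit g.det) :
    ∃ (w : Equiv.Perm (Fin n)) (b b' : Matrix (Fin n) (Fin n) ℂ), IsB b ∧ IsB b' ∧
      g = b * pmat w * b' := by
  choose f w0 hadm hlast hmin using fun j => M4_exists_min hg j
  have hkey : ∀ j k : Fin n, j < k → w0 j ≠ w0 k := by
    intro j k hjk heq
    have hjn : g.mulVec (f j) (w0 k) ≠ 0 := by
      have := (hlast j).1
      rwa [heq] at this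
    set c : ℂ := g.mulVec (f k) (w0 k) / g.mulVec (f j) (w0 k) with hc
    have hadm' : M4Adm k (f k - c • f j) := by
      refine ⟨?_, ?_⟩
      · rw [Pi.sub_apply, Pi.smul_apply, (hadm k).1, (hadm j).2 k hjk]
        simp
      · intro i hi
        rw [Pi.sub_apply, Pi.smul_apply, (hadm k).2 i hi, (hadm j).2 i (hjk.trans hi)]
        simp
    have himg : g.mulVec (f k - c • f j) = g.mulVec (f k) - c • g.mulVec (f j) := by
      rw [Matrix.mulVec_sub, Matrix.mulVec_smul]
    obtain ⟨m', hm'⟩ := M4_exists_last (M4_image_ne hg hadm')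
    have hle := hmin k _ m' hadm' hm'
    have h0 : g.mulVec (f k - c • f j) (w0 k) = 0 := by
      rw [himg, Pi.sub_apply, Pi.smul_apply, smul_eq_mul, hc, div_mul_cancel₀ _ hjn, sub_self]
    rcases hle.lt_or_eq with hlt | heq'
    · apply hm'.1
      rw [himg, Pi.sub_apply, Pi.smul_apply, (hlast k).2 m' hlt, (hlast j).2 m' (heq ▸ hlt)]
      simp
    · exact hm'.1 (heq' ▸ h0)
  have hinj : Function.Injective w0 := by
    intro j k hjk
    rcases lt_trichotomy j k with h | h | h
    · exact absurd hjk (hkey j k h)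
    · exact h
    · exact absurd hjk.symm (hkey k j h)
  set w : Equiv.Perm (Fin n) := Equiv.ofBijective w0 (Finite.injective_iff_bijective.1 hinj) with hw
  have hwa : ∀ j, w j = w0 j := fun j => rfl
  set F : Matrix (Fin n) (Fin n) ℂ := Matrix.of fun i j => f j i with hF
  have hFB : IsB F := by
    refine ⟨?_, ?_⟩
    · intro i j hij
      exact (hadm j).2 i hij
    · intro i
      rw [hF, Matrix.of_apply, (hadm i).1]
      exact one_ne_zero
  set b : Matrix (Fin n) (Fin n) ℂ := Matrix.of fun i m => g.mulVec (f (w.symm m)) i with hb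
  have hbB : IsB b := by
    refine ⟨?_, ?_⟩
    · intro i m him
      rw [hb, Matrix.of_apply]
      apply (hlast (w.symm m)).2
      rw [← hwa, Equiv.apply_symm_apply]
      exact him
    · intro m
      rw [hb, Matrix.of_apply]
      have := (hlast (w.symm m)).1
      rwa [← hwa, Equiv.apply_symm_apply] at this
  have hgF : g * F = b * pmat w := by
    ext i j
    have h1 : (g * F) i j = g.mulVec (f j) i := rfl
    have h2 : (b * pmat w) i j = b i (w j) := by
      rw [Matrix.mul_apply, Finset.sum_eq_single (w j)]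
      · simp [pmat]
      · intro k _ hk
        simp [pmat, hk]
      · intro h
        exact absurd (Finset.mem_univ _) h
    rw [h1, h2, hb, Matrix.of_apply, Equiv.symm_apply_apply]
  refine ⟨w, b, F⁻¹, hbB, hFB.inv, ?_⟩
  rw [← hgF, Matrix.mul_assoc, hFB.mul_inv, Matrix.mul_one]

end SH
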