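import Pool.Agent.LibSH29.M3
import Pool.Agent.LibSH29.M4

/-!
# Cells and intersection dimensions (row M5)
From `dg_mul`, `dg_pmat`, `bruhat_exists`, `dd_inj`.
-/

set_option autoImplicit false

namespace SH

variable {n : ℕ}

private theorem M5_dg {g b b' : Matrix (Fin n) (Fin n) ℂ} {w : Equiv.Perm (Fin n)} (hb : IsB b)
    (hb' : IsB b') (h : g = b * pmat w * b') (a j : ℕ) : dg g a j = dd w a j := by
  rw [h, dg_mul hb hb', dg_pmat]

private theorem M5_unit (v : Equiv.Perm (Fin n)) (x : Lo n → ℂ) :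
    IsUnit (pmat v * umat x).det := by
  rw [Matrix.det_mul, umat_det, mul_one]
  exact isUnit_det_pmat v

/-- enough: equality for `a, j ≤ n` -/
private theorem M5_mem {v w : Equiv.Perm (Fin n)} {x : Lo n → ℂ}
    (h : ∀ a ≤ n, ∀ j ≤ n, dg (pmat v * umat x) a j = dd w a j) : x ∈ Cell v w := by
  obtain ⟨w', b, b', hb, hb', hg⟩ := bruhat_exists (M5_unit v x)
  have hw : w' = w := dd_inj fun a ha j hj => by
    rw [← M5_dg hb hb' hg a j, h a ha j hj]
  rw [hw] at hg
  exact ⟨b, b', hb, hb', hg⟩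

theorem mem_cell_iff {v w : Equiv.Perm (Fin n)} {x : Lo n → ℂ} :
    x ∈ Cell v w ↔ ∀ a j, dg (pmat v * umat x) a j = dd w a j := by
  constructor
  · rintro ⟨b, b', hb, hb', hg⟩ a j
    exact M5_dg hb hb' hg a j
  · intro h
    exact M5_mem fun a _ j _ => h a j

theorem mem_cell_one_iff {w : Equiv.Perm (Fin n)} {x : Lo n → ℂ} :
    x ∈ Cell 1 w ↔ ∀ a j, dg (umat x) a j = dd w a j := by
  rw [mem_cell_iff, pmat_one, one_mul]

/-- it is enough to look at `a, j ≤ n` -/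
theorem mem_cell_one_iff' {w : Equiv.Perm (Fin n)} {x : Lo n → ℂ} :
    x ∈ Cell 1 w ↔ ∀ a ≤ n, ∀ j ≤ n, dg (umat x) a j = dd w a j := by
  constructor
  · intro h a _ j _
    exact mem_cell_one_iff.1 h a j
  · intro h
    refine M5_mem fun a ha j hj => ?_
    rw [pmat_one, one_mul]
    exact h a ha j hj

theorem exists_cell (x : Lo n → ℂ) : ∃ w, x ∈ Cell 1 w := by
  obtain ⟨w, b, b', hb, hb', hg⟩ := bruhat_exists (M5_unit 1 x)
  exact ⟨w, b, b', hb, hb', hg⟩

theorem cell_unique {v w w' : Equiv.Perm (Fin n)} {x : Lo n → ℂ} (h : x ∈ Cell v w)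
    (h' : x ∈ Cell v w') : w = w' := by
  refine dd_inj fun a _ j _ => ?_
  rw [← mem_cell_iff.1 h a j, ← mem_cell_iff.1 h' a j]

end SH
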