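import Pool.Agent.LibSH29.M6

/-!
# All cells are non-empty (row M8)

`b i l = l.descFactorial i` is upper triangular with diagonal `i!`. The leading minors of `b * pmat w`:
the entry `(i, s)` is `(w s).descFactorial i`, the value of the monic polynomial `descPochhammer` of
degree `i` at `w s`, so the minor is a Vandermonde determinant (up to transposition;
`Matrix.det_eval_matrixOfPolynomials_eq_det_vandermonde`, `Matrix.det_vandermonde_ne_zero_iff`,
`mn g j j` has the rows `0, …, j`). Then `exists_lu`: `b * pmat w = umat y * b'`.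
-/

set_option autoImplicit false

namespace SH

theorem cell_nonempty {n : ℕ} (w : Equiv.Perm (Fin n)) : (Cell 1 w).Nonempty := by
  set b : Matrix (Fin n) (Fin n) ℂ := fun i l => ((l.val.descFactorial i.val : ℕ) : ℂ) with hb
  have hB : IsB b := by
    refine ⟨fun i j hij => ?_, fun i => ?_⟩
    · show ((j.val.descFactorial i.val : ℕ) : ℂ) = 0
      rw [Nat.descFactorial_eq_zero_iff_lt.2 hij, Nat.cast_zero]
    · show ((i.val.descFactorial i.val : ℕ) : ℂ) ≠ 0
      rw [Nat.descFactorial_self]
      exact Nat.cast_ne_zero.2 (Nat.factorial_ne_zero _)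
  have hg : ∀ i s, (b * pmat w) i s = (((w s).val.descFactorial i.val : ℕ) : ℂ) := by
    intro i s
    rw [Matrix.mul_apply, Finset.sum_eq_single (w s)]
    · simp [pmat, hb]
    · intro l _ hl
      simp [pmat, hl]
    · intro h
      exact absurd (Finset.mem_univ _) h
  have hm : ∀ j, mn (b * pmat w) j j ≠ 0 := by
    intro j
    have h1 : (Matrix.of fun r s : Fin (j.val + 1) =>
        (b * pmat w) (if h : r.val < j.val then ⟨r.val, by omega⟩ else j) ⟨s.val, by omega⟩) =
        (Matrix.of fun s r : Fin (j.val + 1) =>
          (descPochhammer ℂ r.val).eval (((w ⟨s.val, by omega⟩).val : ℕ) : ℂ)).transpose := by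
      ext r s
      rw [Matrix.transpose_apply, Matrix.of_apply, Matrix.of_apply, hg,
        descPochhammer_eval_eq_descFactorial]
      have h2 : (if h : r.val < j.val then (⟨r.val, by omega⟩ : Fin n) else j).val = r.val := by
        split_ifs with h
        · rfl
        · have := r.2
          omega
      rw [h2]
    unfold mn
    rw [h1, Matrix.det_transpose, ← Matrix.det_eval_matrixOfPolynomials_eq_det_vandermonde
      (fun s : Fin (j.val + 1) => (((w ⟨s.val, by omega⟩).val : ℕ) : ℂ))
      (fun r => descPochhammer ℂ r.val) (fun i => descPochhammer_natDegree ℂ i.val)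
      (fun i => monic_descPochhammer ℂ i.val), Matrix.det_vandermonde_ne_zero_iff]
    intro s s' h
    have h2 : (w ⟨s.val, by omega⟩).val = (w ⟨s'.val, by omega⟩).val := Nat.cast_injective h
    have h3 := w.injective (Fin.ext h2)
    exact Fin.ext (Fin.mk.inj_iff.1 h3)
  obtain ⟨y, b', hb', h⟩ := exists_lu hm
  refine ⟨y, b, b'⁻¹, hB, hb'.inv, ?_⟩
  rw [h, Matrix.mul_assoc, hb'.mul_inv, Matrix.mul_one, pmat_one, Matrix.one_mul]

end SH
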