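import Pool.Agent.LibSH29.S1
import Pool.Agent.LibSH29.M8
import Pool.Agent.LibSH29.M5

/-!
# Inversion and flip (row G6)

Inversion: `F` = the entries below the diagonal of `(umat X).adjugate` (`umat_adjugate`,
`exists_umat`, `umat_map`); if `umat p = b * pmat x * b'` then the inverse is
`b'⁻¹ * pmat x⁻¹ * b⁻¹`. Flip: `F (i, j) = X (rev j, rev i)`, the matrix `J gᵀ J`,
`J = pmat Fin.revPerm`; `J (b * pmat x * b')ᵀ J = (J b'ᵀ J) * (J (pmat x)ᵀ J) * (J bᵀ J)`, and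
`J bᵀ J` is again upper triangular. The order isomorphisms: `dd_inv`, `rr_flip`, `flip_flip`. Use
`Str.Iso.of_maps` with `cell_nonempty`, `cell_unique` or write the isomorphism directly.
-/

set_option autoImplicit false

namespace SH

theorem G6_inv_le {n : ℕ} {v w : Equiv.Perm (Fin n)} (h : v ≤ w) : v⁻¹ ≤ w⁻¹ := by
  rw [le_iff_dd] at h ⊢
  intro a ha j hj
  rw [dd_inv, dd_inv]
  exact h j hj a ha

theorem G6_flip_le {n : ℕ} {v w : Equiv.Perm (Fin n)} (h : v ≤ w) : flip v ≤ flip w := by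
  rw [le_iff] at h ⊢
  intro a ha j hj
  rw [rr_flip v ha hj, rr_flip w ha hj]
  exact h (n - j) (Nat.sub_le _ _) (n - a) (Nat.sub_le _ _)

open MvPolynomial in
/-- the entries of the inverse -/
noncomputable def G6_F (n : ℕ) : Lo n → MvPolynomial (Lo n) ℂ :=
  fun q => (umat (fun p : Lo n => (X p : MvPolynomial (Lo n) ℂ))).adjugate q.1.1 q.1.2

theorem G6_umat_F {n : ℕ} (p : Lo n → ℂ) : umat (evm (G6_F n) p) = (umat p).adjugate := by
  have h0 := umat_adjugate p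
  rw [← exists_umat (g := (umat p).adjugate) h0.2.2.1 h0.2.2.2]
  congr 1
  funext q
  have h1 := RingHom.map_adjugate (MvPolynomial.eval p)
    (umat (fun p : Lo n => (MvPolynomial.X p : MvPolynomial (Lo n) ℂ)))
  have h2 := congrFun (congrFun h1 q.1.1) q.1.2
  rw [RingHom.mapMatrix_apply, Matrix.map_apply, RingHom.mapMatrix_apply, umat_map] at h2
  simp only [MvPolynomial.eval_X] at h2
  exact h2

theorem G6_adj_adj {n : ℕ} (p : Lo n → ℂ) : (umat p).adjugate.adjugate = umat p := by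
  have h0 := umat_adjugate p
  have h1 := umat_adjugate (evm (G6_F n) p)
  rw [G6_umat_F] at h1
  calc (umat p).adjugate.adjugate = (umat p * (umat p).adjugate) * (umat p).adjugate.adjugate := by
        rw [h0.1, one_mul]
    _ = umat p * ((umat p).adjugate * (umat p).adjugate.adjugate) := by rw [mul_assoc]
    _ = umat p := by rw [h1.1, mul_one]

theorem G6_F_F {n : ℕ} (p : Lo n → ℂ) : evm (G6_F n) (evm (G6_F n) p) = p := by
  apply umat_injective
  rw [G6_umat_F, G6_umat_F, G6_adj_adj]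

theorem G6_F_mem {n : ℕ} {x : Equiv.Perm (Fin n)} {p : Lo n → ℂ} (hp : p ∈ Cell 1 x) :
    evm (G6_F n) p ∈ Cell 1 x⁻¹ := by
  obtain ⟨b, b', hb, hb', h⟩ := hp
  refine ⟨b'⁻¹, b⁻¹, hb'.inv, hb.inv, ?_⟩
  rw [pmat_one, one_mul] at h ⊢
  rw [G6_umat_F]
  have h0 := umat_adjugate p
  have h1 : umat p * (b'⁻¹ * pmat x⁻¹ * b⁻¹) = 1 := by
    rw [h]
    calc b * pmat x * b' * (b'⁻¹ * pmat x⁻¹ * b⁻¹)
        = b * (pmat x * ((b' * b'⁻¹) * pmat x⁻¹)) * b⁻¹ := by simp only [mul_assoc]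
      _ = 1 := by rw [hb'.mul_inv, one_mul, pmat_mul_inv, mul_one, hb.mul_inv]
  calc (umat p).adjugate = (umat p).adjugate * (umat p * (b'⁻¹ * pmat x⁻¹ * b⁻¹)) := by
        rw [h1, mul_one]
    _ = ((umat p).adjugate * umat p) * (b'⁻¹ * pmat x⁻¹ * b⁻¹) := (mul_assoc _ _ _).symm
    _ = b'⁻¹ * pmat x⁻¹ * b⁻¹ := by rw [h0.2.1, one_mul]

/-- the transpose at the antidiagonal -/
def G6_fl {n : ℕ} (g : Matrix (Fin n) (Fin n) ℂ) : Matrix (Fin n) (Fin n) ℂ :=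
  fun i j => g j.rev i.rev

theorem G6_fl_mul {n : ℕ} (g h : Matrix (Fin n) (Fin n) ℂ) :
    G6_fl (g * h) = G6_fl h * G6_fl g := by
  ext i j
  simp only [G6_fl, Matrix.mul_apply]
  rw [← Equiv.sum_comp Fin.revPerm]
  refine Finset.sum_congr rfl (fun l _ => ?_)
  rw [mul_comm, Fin.revPerm_apply]

theorem G6_fl_isB {n : ℕ} {b : Matrix (Fin n) (Fin n) ℂ} (hb : IsB b) : IsB (G6_fl b) := by
  refine ⟨fun i j h => ?_, fun i => ?_⟩
  · exact hb.1 _ _ (Fin.rev_lt_rev.2 h)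
  · exact hb.2 _

theorem G6_flip_apply {n : ℕ} (x : Equiv.Perm (Fin n)) (j : Fin n) :
    flip x j = (x.symm j.rev).rev := rfl

theorem G6_fl_pmat {n : ℕ} (x : Equiv.Perm (Fin n)) : G6_fl (pmat x) = pmat (flip x) := by
  ext i j
  simp only [G6_fl, pmat, G6_flip_apply]
  have h : (j.rev = x i.rev) ↔ (i = (x.symm j.rev).rev) := by
    constructor
    · intro h
      rw [h, Equiv.symm_apply_apply, Fin.rev_rev]
    · intro h
      rw [h, Fin.rev_rev, Equiv.apply_symm_apply]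
  by_cases h' : j.rev = x i.rev
  · rw [if_pos h', if_pos (h.1 h')]
  · rw [if_neg h', if_neg (fun h'' => h' (h.2 h''))]

open MvPolynomial in
/-- the entries of the flipped matrix -/
noncomputable def G6_G (n : ℕ) : Lo n → MvPolynomial (Lo n) ℂ :=
  fun q => X ⟨(q.1.2.rev, q.1.1.rev), Fin.rev_lt_rev.2 q.2⟩

theorem G6_umat_G {n : ℕ} (p : Lo n → ℂ) : umat (evm (G6_G n) p) = G6_fl (umat p) := by
  ext i j
  simp only [umat, G6_fl, evm, G6_G, MvPolynomial.eval_X]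
  by_cases h : j < i
  · rw [dif_pos h, dif_pos (Fin.rev_lt_rev.2 h)]
  · rw [dif_neg h, dif_neg (fun h' => h (Fin.rev_lt_rev.1 h'))]
    by_cases h1 : i = j
    · subst h1
      simp
    · rw [if_neg h1, if_neg (fun h' => h1 (Fin.rev_injective h').symm)]

theorem G6_G_G {n : ℕ} (p : Lo n → ℂ) : evm (G6_G n) (evm (G6_G n) p) = p := by
  apply umat_injective
  rw [G6_umat_G, G6_umat_G]
  ext i j
  simp only [G6_fl, Fin.rev_rev]

theorem G6_G_mem {n : ℕ} {x : Equiv.Perm (Fin n)} {p : Lo n → ℂ} (hp : p ∈ Cell 1 x) :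
    evm (G6_G n) p ∈ Cell 1 (flip x) := by
  obtain ⟨b, b', hb, hb', h⟩ := hp
  refine ⟨G6_fl b', G6_fl b, G6_fl_isB hb', G6_fl_isB hb, ?_⟩
  rw [pmat_one, one_mul] at h ⊢
  rw [G6_umat_G, h, G6_fl_mul, G6_fl_mul, G6_fl_pmat, mul_assoc]

theorem inv_iso {n : ℕ} (w : Equiv.Perm (Fin n)) :
    ∃ φ : Set.Iic w ≃o Set.Iic w⁻¹, (∀ x, (φ x).1 = x.1⁻¹) ∧ (Iw w).Iso (Iw w⁻¹) φ := by
  have hle : ∀ {u v : Equiv.Perm (Fin n)}, u⁻¹ ≤ v⁻¹ ↔ u ≤ v := fun {u v} =>
    ⟨fun h => by simpa using G6_inv_le h, G6_inv_le⟩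
  let φ : Set.Iic w ≃o Set.Iic w⁻¹ :=
    { toFun := fun x => ⟨x.1⁻¹, hle.2 x.2⟩
      invFun := fun y => ⟨y.1⁻¹, by
        have h := G6_inv_le (Set.mem_Iic.1 y.2)
        rw [inv_inv] at h
        exact h⟩
      left_inv := fun x => Subtype.ext (inv_inv x.1)
      right_inv := fun y => Subtype.ext (inv_inv y.1)
      map_rel_iff' := fun {x y} => hle }
  refine ⟨φ, fun x => rfl, G6_F n, G6_F n, ?_, ?_⟩
  · intro x p hp
    exact ⟨G6_F_mem hp, G6_F_F p⟩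
  · intro y q hq
    exact ⟨G6_F_mem hq, G6_F_F q⟩

theorem flip_iso {n : ℕ} (w : Equiv.Perm (Fin n)) :
    ∃ φ : Set.Iic w ≃o Set.Iic (flip w), (∀ x, (φ x).1 = flip x.1) ∧
      (Iw w).Iso (Iw (flip w)) φ := by
  have hle : ∀ {u v : Equiv.Perm (Fin n)}, flip u ≤ flip v ↔ u ≤ v := fun {u v} =>
    ⟨fun h => by
      have h1 := G6_flip_le h
      rw [flip_flip, flip_flip] at h1
      exact h1, G6_flip_le⟩
  let φ : Set.Iic w ≃o Set.Iic (flip w) :=
    { toFun := fun x => ⟨flip x.1, hle.2 x.2⟩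
      invFun := fun y => ⟨flip y.1, by
        have h := G6_flip_le (Set.mem_Iic.1 y.2)
        rw [flip_flip] at h
        exact h⟩
      left_inv := fun x => Subtype.ext (flip_flip x.1)
      right_inv := fun y => Subtype.ext (flip_flip y.1)
      map_rel_iff' := fun {x y} => hle }
  refine ⟨φ, fun x => rfl, G6_G n, G6_G n, ?_, ?_⟩
  · intro x p hp
    exact ⟨G6_G_mem hp, G6_G_G p⟩
  · intro y q hq
    exact ⟨G6_G_mem hq, G6_G_G q⟩

end SH
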