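import Pool.Agent.LibSH29.M2

/-!
# The partial inversion: matrices (row G8)

`g = S * T`, `psi k g = S * T⁻¹` with `S = Sm k g` (rows `< k` of `g`, below them the identity) and
`T = Tm k g` (rows `≥ k` of `g`, above them the identity); `T.adjugate = T⁻¹` for unitriangular `g`.
In blocks (sizes `k`, `n - k`): `g = [[A, 0], [C, D]]`, `S = [[A, 0], [0, 1]]`, `T = [[1, 0], [C, D]]`,
`psi k g = [[A, 0], [-D⁻¹ C, D⁻¹]]`. `Sm k (psi k g) = S` and `Tm k (psi k g) = T⁻¹` (the rows `< k` of
`T⁻¹` are those of the identity).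
-/

set_option autoImplicit false

namespace SH

open MvPolynomial

variable {n : ℕ}

/-- rows `< k` of `g`, below them the identity -/
def Sm {R : Type*} [CommRing R] (k : ℕ) (g : Matrix (Fin n) (Fin n) R) : Matrix (Fin n) (Fin n) R :=
  fun i j => if i.val < k then g i j else (1 : Matrix (Fin n) (Fin n) R) i j

/-- rows `≥ k` of `g`, above them the identity -/
def Tm {R : Type*} [CommRing R] (k : ℕ) (g : Matrix (Fin n) (Fin n) R) : Matrix (Fin n) (Fin n) R :=
  fun i j => if i.val < k then (1 : Matrix (Fin n) (Fin n) R) i j else g i j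

/-- the partial inversion -/
noncomputable def psi {R : Type*} [CommRing R] (k : ℕ) (g : Matrix (Fin n) (Fin n) R) :
    Matrix (Fin n) (Fin n) R := Sm k g * (Tm k g).adjugate

theorem psi_map {R S : Type*} [CommRing R] [CommRing S] (f : R →+* S) (k : ℕ)
    (g : Matrix (Fin n) (Fin n) R) : (psi k g).map f = psi k (g.map f) := by
  have hS : (Sm k g).map f = Sm k (g.map f) := by
    ext i j
    simp only [Sm, Matrix.map_apply]
    by_cases h : i.val < k
    · rw [if_pos h, if_pos h]
    · rw [if_neg h, if_neg h, Matrix.one_apply, Matrix.one_apply]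
      by_cases h' : i = j
      · rw [if_pos h', if_pos h', map_one]
      · rw [if_neg h', if_neg h', map_zero]
  have hT : (Tm k g).map f = Tm k (g.map f) := by
    ext i j
    simp only [Tm, Matrix.map_apply]
    by_cases h : i.val < k
    · rw [if_pos h, if_pos h, Matrix.one_apply, Matrix.one_apply]
      by_cases h' : i = j
      · rw [if_pos h', if_pos h', map_one]
      · rw [if_neg h', if_neg h', map_zero]
    · rw [if_neg h, if_neg h]
  have hA := RingHom.map_adjugate f (Tm k g)
  rw [RingHom.mapMatrix_apply, RingHom.mapMatrix_apply, hT] at hA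
  unfold psi
  rw [Matrix.map_mul, hS, hA]

theorem G8_umat_up {R : Type*} [Zero R] [One R] (x : Lo n → R) {i j : Fin n} (h : i < j) :
    umat x i j = 0 := by
  unfold umat
  rw [dif_neg (not_lt.2 h.le), if_neg h.ne]

theorem G8_umat_diag {R : Type*} [Zero R] [One R] (x : Lo n → R) (i : Fin n) :
    umat x i i = 1 := by
  unfold umat
  rw [dif_neg (lt_irrefl i), if_pos rfl]

theorem G8_Sm_umat {R : Type*} [CommRing R] (k : ℕ) (x : Lo n → R) :
    ∃ s : Lo n → R, Sm k (umat x) = umat s := by
  refine ⟨fun q => Sm k (umat x) q.1.1 q.1.2, (exists_umat ?_ ?_).symm⟩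
  · intro i
    unfold Sm
    split_ifs
    · exact G8_umat_diag x i
    · exact Matrix.one_apply_eq i
  · intro i j h
    unfold Sm
    split_ifs
    · exact G8_umat_up x h
    · exact Matrix.one_apply_ne h.ne

theorem G8_Tm_umat {R : Type*} [CommRing R] (k : ℕ) (x : Lo n → R) :
    ∃ t : Lo n → R, Tm k (umat x) = umat t := by
  refine ⟨fun q => Tm k (umat x) q.1.1 q.1.2, (exists_umat ?_ ?_).symm⟩
  · intro i
    unfold Tm
    split_ifs
    · exact Matrix.one_apply_eq i
    · exact G8_umat_diag x i
  · intro i j h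
    unfold Tm
    split_ifs
    · exact Matrix.one_apply_ne h.ne
    · exact G8_umat_up x h

theorem G8_adj_umat {R : Type*} [CommRing R] (t : Lo n → R) :
    ∃ t' : Lo n → R, (umat t).adjugate = umat t' :=
  ⟨_, (exists_umat (umat_adjugate t).2.2.1 (umat_adjugate t).2.2.2).symm⟩

theorem G8_adj_adj {R : Type*} [CommRing R] (t : Lo n → R) :
    (umat t).adjugate.adjugate = umat t := by
  obtain ⟨t', ht'⟩ := G8_adj_umat t
  have h0 := umat_adjugate t
  have h1 := umat_adjugate t'
  rw [← ht'] at h1
  calc (umat t).adjugate.adjugate = (umat t * (umat t).adjugate) * (umat t).adjugate.adjugate := by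
        rw [h0.1, one_mul]
    _ = umat t * ((umat t).adjugate * (umat t).adjugate.adjugate) := by rw [mul_assoc]
    _ = umat t := by rw [h1.1, mul_one]

theorem G8_umat_mul {R : Type*} [CommRing R] (s t : Lo n → R) :
    ∃ u : Lo n → R, umat s * umat t = umat u := by
  refine ⟨fun q => (umat s * umat t) q.1.1 q.1.2, (exists_umat ?_ ?_).symm⟩
  · intro i
    rw [Matrix.mul_apply, Finset.sum_eq_single i]
    · rw [G8_umat_diag, G8_umat_diag, one_mul]
    · intro l _ hl
      rcases lt_or_gt_of_ne hl with h | h
      · rw [G8_umat_up t h, mul_zero]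
      · rw [G8_umat_up s h, zero_mul]
    · intro h
      exact absurd (Finset.mem_univ _) h
  · intro i j h
    rw [Matrix.mul_apply]
    apply Finset.sum_eq_zero
    intro l _
    rcases lt_or_ge i l with h' | h'
    · rw [G8_umat_up s h', zero_mul]
    · rw [G8_umat_up t (lt_of_le_of_lt h' h), mul_zero]

theorem Sm_mul_Tm {R : Type*} [CommRing R] (k : ℕ) (x : Lo n → R) :
    Sm k (umat x) * Tm k (umat x) = umat x := by
  ext i j
  rw [Matrix.mul_apply]
  by_cases hi : i.val < k
  · rw [Finset.sum_eq_single j]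
    · simp only [Sm, Tm, if_pos hi]
      by_cases hj : j.val < k
      · rw [if_pos hj, Matrix.one_apply_eq, mul_one]
      · rw [if_neg hj]
        have h : umat x i j = 0 := G8_umat_up x (by rw [Fin.lt_def]; omega)
        rw [h, zero_mul]
    · intro l _ hl
      simp only [Sm, Tm, if_pos hi]
      by_cases hlk : l.val < k
      · rw [if_pos hlk, Matrix.one_apply_ne hl, mul_zero]
      · rw [G8_umat_up x (by rw [Fin.lt_def]; omega), zero_mul]
    · intro h
      exact absurd (Finset.mem_univ _) h
  · rw [Finset.sum_eq_single i]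
    · simp only [Sm, Tm, if_neg hi, Matrix.one_apply_eq, one_mul]
    · intro l _ hl
      simp only [Sm, if_neg hi]
      rw [Matrix.one_apply_ne (Ne.symm hl), zero_mul]
    · intro h
      exact absurd (Finset.mem_univ _) h

theorem Tm_det {R : Type*} [CommRing R] (k : ℕ) (x : Lo n → R) : (Tm k (umat x)).det = 1 := by
  obtain ⟨t, ht⟩ := G8_Tm_umat k x
  rw [ht, umat_det]

theorem Sm_det {R : Type*} [CommRing R] (k : ℕ) (x : Lo n → R) : (Sm k (umat x)).det = 1 := by
  obtain ⟨t, ht⟩ := G8_Sm_umat k x
  rw [ht, umat_det]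

theorem G8_psi_umat {R : Type*} [CommRing R] (k : ℕ) (x : Lo n → R) :
    ∃ u : Lo n → R, psi k (umat x) = umat u := by
  obtain ⟨s, hs⟩ := G8_Sm_umat k x
  obtain ⟨t, ht⟩ := G8_Tm_umat k x
  obtain ⟨t', ht'⟩ := G8_adj_umat t
  obtain ⟨u, hu⟩ := G8_umat_mul s t'
  refine ⟨u, ?_⟩
  unfold psi
  rw [hs, ht, ht', hu]

/-- `psi k (umat x)` is lower unitriangular -/
theorem psi_umat {R : Type*} [CommRing R] (k : ℕ) (x : Lo n → R) :
    umat (fun q : Lo n => psi k (umat x) q.1.1 q.1.2) = psi k (umat x) := by
  obtain ⟨u, hu⟩ := G8_psi_umat k x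
  rw [hu]
  exact exists_umat (fun i => G8_umat_diag u i) (fun i j h => G8_umat_up u h)

theorem psi_psi {R : Type*} [CommRing R] (k : ℕ) (x : Lo n → R) :
    psi k (psi k (umat x)) = umat x := by
  obtain ⟨t, ht⟩ := G8_Tm_umat k x
  have h0 := umat_adjugate t
  rw [← ht] at h0
  -- rows `< k` of the inverse of `T`
  have hrow : ∀ i j : Fin n, i.val < k →
      (Tm k (umat x)).adjugate i j = (1 : Matrix (Fin n) (Fin n) R) i j := by
    intro i j hi
    have h1 := congrFun (congrFun h0.1 i) j
    rw [Matrix.mul_apply, Finset.sum_eq_single i] at h1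
    · have h2 : Tm k (umat x) i i = 1 := by
        unfold Tm
        rw [if_pos hi, Matrix.one_apply_eq]
      rw [h2, one_mul] at h1
      exact h1
    · intro l _ hl
      have h2 : Tm k (umat x) i l = 0 := by
        unfold Tm
        rw [if_pos hi, Matrix.one_apply_ne (Ne.symm hl)]
      rw [h2, zero_mul]
    · intro h
      exact absurd (Finset.mem_univ _) h
  have hlo : ∀ i j : Fin n, i.val < k → psi k (umat x) i j = umat x i j := by
    intro i j hi
    unfold psi
    rw [Matrix.mul_apply, Finset.sum_eq_single j]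
    · by_cases hj : j.val < k
      · rw [hrow j j hj, Matrix.one_apply_eq, mul_one]
        unfold Sm
        rw [if_pos hi]
      · have h3 : Sm k (umat x) i j = 0 := by
          unfold Sm
          rw [if_pos hi]
          exact G8_umat_up x (by rw [Fin.lt_def]; omega)
        rw [h3, zero_mul, G8_umat_up x (by rw [Fin.lt_def]; omega)]
    · intro l _ hl
      by_cases hlk : l.val < k
      · rw [hrow l j hlk, Matrix.one_apply_ne hl, mul_zero]
      · have h3 : Sm k (umat x) i l = 0 := by
          unfold Sm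
          rw [if_pos hi]
          exact G8_umat_up x (by rw [Fin.lt_def]; omega)
        rw [h3, zero_mul]
    · intro h
      exact absurd (Finset.mem_univ _) h
  have hhi : ∀ i j : Fin n, ¬ i.val < k → psi k (umat x) i j = (Tm k (umat x)).adjugate i j := by
    intro i j hi
    unfold psi
    rw [Matrix.mul_apply, Finset.sum_eq_single i]
    · have h3 : Sm k (umat x) i i = 1 := by
        unfold Sm
        rw [if_neg hi, Matrix.one_apply_eq]
      rw [h3, one_mul]
    · intro l _ hl
      have h3 : Sm k (umat x) i l = 0 := by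
        unfold Sm
        rw [if_neg hi, Matrix.one_apply_ne (Ne.symm hl)]
      rw [h3, zero_mul]
    · intro h
      exact absurd (Finset.mem_univ _) h
  have hS : Sm k (psi k (umat x)) = Sm k (umat x) := by
    ext i j
    unfold Sm
    split_ifs with h
    · exact hlo i j h
    · rfl
  have hT : Tm k (psi k (umat x)) = (Tm k (umat x)).adjugate := by
    ext i j
    by_cases h : i.val < k
    · rw [hrow i j h]
      unfold Tm
      rw [if_pos h]
    · rw [← hhi i j h]
      unfold Tm
      rw [if_neg h]
  have hadj : (Tm k (umat x)).adjugate.adjugate = Tm k (umat x) := by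
    rw [ht, G8_adj_adj]
  calc psi k (psi k (umat x)) = Sm k (psi k (umat x)) * (Tm k (psi k (umat x))).adjugate := rfl
    _ = Sm k (umat x) * Tm k (umat x) := by rw [hS, hT, hadj]
    _ = umat x := Sm_mul_Tm k x

/-- the polynomials -/
noncomputable def psiPoly (n k : ℕ) : Lo n → MvPolynomial (Lo n) ℂ :=
  fun q => psi k (umat fun p : Lo n => (X p : MvPolynomial (Lo n) ℂ)) q.1.1 q.1.2

theorem umat_psiPoly (k : ℕ) (p : Lo n → ℂ) :
    umat (fun q => eval p (psiPoly n k q)) = psi k (umat p) := by
  rw [← psi_umat k p]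
  congr 1
  funext q
  have h1 := psi_map (eval p) k (umat fun p : Lo n => (X p : MvPolynomial (Lo n) ℂ))
  rw [umat_map] at h1
  simp only [eval_X] at h1
  have h2 := congrFun (congrFun h1 q.1.1) q.1.2
  rw [Matrix.map_apply] at h2
  exact h2

theorem psiPoly_psiPoly (k : ℕ) (p : Lo n → ℂ) :
    (fun q => eval (fun q => eval p (psiPoly n k q)) (psiPoly n k q)) = p := by
  apply umat_injective
  rw [umat_psiPoly, umat_psiPoly, psi_psi]

end SH
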