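import Pool.Agent.LibSH29.G8
import Pool.Agent.LibSH29.M5

/-!
# The partial inversion: intersection dimensions (row G8b)

`g = umat p = S T`, `g' = psi k g = S T⁻¹`. Substituting `y = T z`:
`dg g' a j = dim {z | T z ∈ E j, S z ∈ E a}`. Here `(T z) i = z i` for `i < k`, `(g z) i` for `i ≥ k`;
`(S z) i = (g z) i` for `i < k`, `z i` for `i ≥ k`. So: for `a, j ≤ k` both conditions together say
`z ∈ E j`, `g z ∈ E a` (`z i = 0` for `i ≥ k`, `(g z) i = 0` for `i ≥ k`); for `a, j ≥ k` they say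
`z ∈ E a`, `g z ∈ E j`.
-/

set_option autoImplicit false

namespace SH

variable {n : ℕ}

private theorem G8b_row (A B : Matrix (Fin n) (Fin n) ℂ) (z : Fin n → ℂ) (i : Fin n)
    (h : ∀ j, A i j = B i j) : (A.mulVecLin z) i = (B.mulVecLin z) i := by
  rw [Matrix.mulVecLin_apply, Matrix.mulVecLin_apply]
  show ∑ j, A i j * z j = ∑ j, B i j * z j
  exact Finset.sum_congr rfl fun j _ => by rw [h j]

private theorem G8b_T_lt (k : ℕ) (g : Matrix (Fin n) (Fin n) ℂ) (z : Fin n → ℂ) (i : Fin n)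
    (h : i.val < k) : ((Tm k g).mulVecLin z) i = z i := by
  rw [G8b_row (Tm k g) 1 z i (fun j => by unfold Tm; rw [if_pos h]), Matrix.mulVecLin_one]
  rfl

private theorem G8b_T_ge (k : ℕ) (g : Matrix (Fin n) (Fin n) ℂ) (z : Fin n → ℂ) (i : Fin n)
    (h : k ≤ i.val) : ((Tm k g).mulVecLin z) i = (g.mulVecLin z) i :=
  G8b_row (Tm k g) g z i (fun j => by unfold Tm; rw [if_neg (not_lt.2 h)])

private theorem G8b_S_lt (k : ℕ) (g : Matrix (Fin n) (Fin n) ℂ) (z : Fin n → ℂ) (i : Fin n)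
    (h : i.val < k) : ((Sm k g).mulVecLin z) i = (g.mulVecLin z) i :=
  G8b_row (Sm k g) g z i (fun j => by unfold Sm; rw [if_pos h])

private theorem G8b_S_ge (k : ℕ) (g : Matrix (Fin n) (Fin n) ℂ) (z : Fin n → ℂ) (i : Fin n)
    (h : k ≤ i.val) : ((Sm k g).mulVecLin z) i = z i := by
  rw [G8b_row (Sm k g) 1 z i (fun j => by unfold Sm; rw [if_neg (not_lt.2 h)]),
    Matrix.mulVecLin_one]
  rfl

theorem dg_psi (k : ℕ) (p : Lo n → ℂ) (a j : ℕ) :
    dg (psi k (umat p)) a j = Module.finrank ℂ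
      ↥((E n j).comap (Tm k (umat p)).mulVecLin ⊓ (E n a).comap (Sm k (umat p)).mulVecLin) := by
  have hT : (Tm k (umat p)).det = 1 := Tm_det k p
  have h1 : Tm k (umat p) * (Tm k (umat p)).adjugate = 1 := by
    rw [Matrix.mul_adjugate, hT, one_smul]
  have h2 : (Tm k (umat p)).adjugate * Tm k (umat p) = 1 := by
    rw [Matrix.adjugate_mul, hT, one_smul]
  let e : (Fin n → ℂ) ≃ₗ[ℂ] (Fin n → ℂ) :=
    LinearEquiv.ofLinearMap (Tm k (umat p)).mulVecLin (Tm k (umat p)).adjugate.mulVecLin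
      (by rw [← Matrix.mulVecLin_mul, h1, Matrix.mulVecLin_one])
      (by rw [← Matrix.mulVecLin_mul, h2, Matrix.mulVecLin_one])
  have he : (e : (Fin n → ℂ) →ₗ[ℂ] (Fin n → ℂ)) = (Tm k (umat p)).mulVecLin := rfl
  have h3 : (E n j).comap (Tm k (umat p)).mulVecLin ⊓ (E n a).comap (Sm k (umat p)).mulVecLin =
      (E n j ⊓ (E n a).comap (psi k (umat p)).mulVecLin).comap
        (e : (Fin n → ℂ) →ₗ[ℂ] (Fin n → ℂ)) := by
    rw [he]
    ext z
    simp only [Submodule.mem_inf, Submodule.mem_comap]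
    have h4 : (psi k (umat p)).mulVecLin ((Tm k (umat p)).mulVecLin z) =
        (Sm k (umat p)).mulVecLin z := by
      rw [← LinearMap.comp_apply, ← Matrix.mulVecLin_mul]
      unfold psi
      rw [mul_assoc, h2, mul_one]
    rw [h4]
  rw [h3, (e.ofSubmodule' _).finrank_eq]
  rfl

theorem dg_psi_le {k : ℕ} (p : Lo n → ℂ) {a j : ℕ} (ha : a ≤ k) (hj : j ≤ k) :
    dg (psi k (umat p)) a j = dg (umat p) a j := by
  rw [dg_psi]
  have h1 : (E n j).comap (Tm k (umat p)).mulVecLin ⊓ (E n a).comap (Sm k (umat p)).mulVecLin =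
      E n j ⊓ (E n a).comap (umat p).mulVecLin := by
    ext z
    simp only [Submodule.mem_inf, Submodule.mem_comap, mem_E]
    constructor
    · rintro ⟨hT, hS⟩
      refine ⟨fun i hi => ?_, fun i hi => ?_⟩
      · by_cases hik : i.val < k
        · rw [← G8b_T_lt k (umat p) z i hik]
          exact hT i hi
        · rw [← G8b_S_ge k (umat p) z i (not_lt.1 hik)]
          exact hS i (by omega)
      · by_cases hik : i.val < k
        · rw [← G8b_S_lt k (umat p) z i hik]
          exact hS i hi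
        · rw [← G8b_T_ge k (umat p) z i (not_lt.1 hik)]
          exact hT i (by omega)
    · rintro ⟨hz, hg⟩
      refine ⟨fun i hi => ?_, fun i hi => ?_⟩
      · by_cases hik : i.val < k
        · rw [G8b_T_lt k (umat p) z i hik]
          exact hz i hi
        · rw [G8b_T_ge k (umat p) z i (not_lt.1 hik)]
          exact hg i (by omega)
      · by_cases hik : i.val < k
        · rw [G8b_S_lt k (umat p) z i hik]
          exact hg i hi
        · rw [G8b_S_ge k (umat p) z i (not_lt.1 hik)]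
          exact hz i (by omega)
  rw [h1]
  rfl

theorem dg_psi_ge {k : ℕ} (p : Lo n → ℂ) {a j : ℕ} (ha : k ≤ a) (hj : k ≤ j) :
    dg (psi k (umat p)) a j = dg (umat p) j a := by
  rw [dg_psi]
  have h1 : (E n j).comap (Tm k (umat p)).mulVecLin ⊓ (E n a).comap (Sm k (umat p)).mulVecLin =
      E n a ⊓ (E n j).comap (umat p).mulVecLin := by
    ext z
    simp only [Submodule.mem_inf, Submodule.mem_comap, mem_E]
    constructor
    · rintro ⟨hT, hS⟩
      refine ⟨fun i hi => ?_, fun i hi => ?_⟩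
      · rw [← G8b_S_ge k (umat p) z i (by omega)]
        exact hS i hi
      · rw [← G8b_T_ge k (umat p) z i (by omega)]
        exact hT i hi
    · rintro ⟨hz, hg⟩
      refine ⟨fun i hi => ?_, fun i hi => ?_⟩
      · rw [G8b_T_ge k (umat p) z i (by omega)]
        exact hg i hi
      · rw [G8b_S_ge k (umat p) z i (by omega)]
        exact hz i hi
  rw [h1]
  rfl

end SH
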