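import Pool.Agent.LibSH29.G8b

/-!
# The partial inversion: the mixed dimensions (row G8c)

`V_a := {z ∈ E a | g z ∈ E k}`, dimension `dg g k a ≤ k`. `dg (psi g) a j` for `j ≤ k ≤ a` is the
dimension of `{z ∈ V_a | z i = 0 for j ≤ i < k}` (G8b: `T z ∈ E j` says `z i = 0` for `j ≤ i < k` and
`(g z) i = 0` for `i ≥ k`; `S z ∈ E a` says `z ∈ E a`). The map `z ↦ (z i)_{i<k}` is injective on `V_a`
(if `z i = 0` for `i < k` then `(g z) i = 0` for `i < k`, `g` being lower triangular, so `g z = 0`).
If `dg g k a = k` it is onto `ℂ^k`, and the dimension is `j`. If `dg g k a < k` then `V_k ⊆ V_a` and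
`dim V_k = dg g k k ≥ k - 1` give `V_a = V_k`, and the dimension is that of
`{z ∈ E j | g z ∈ E k}`, `dg g k j`.
`dg (psi g) a j` for `a ≤ k ≤ j`: the dimension of
`{z ∈ E k | g z ∈ E j, (g z) i = 0 for a ≤ i < k}`. `W_j := {z ∈ E k | g z ∈ E j}` has dimension
`dg g j k`. If it is `k`, `W_j = E k` and `z ↦ ((g z) i)_{i<k}` is an isomorphism `E k → ℂ^k` (`g`
unitriangular), the dimension is `a`. Otherwise `W_j = W_k = {z ∈ E k | g z ∈ E k}`, and the dimension
is `dg g a k`.

(In the proofs below everything is read off from the spaces `E j ⊓ comap (psi g) (E a)` and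
`dg_psi_le`, `dg_psi_ge`.)
-/

set_option autoImplicit false

namespace SH

variable {n : ℕ}

theorem dg_psi_left {k : ℕ} (hk : k ≤ n) (p : Lo n → ℂ) (h : k ≤ dg (umat p) k k + 1) {a j : ℕ}
    (ha : k ≤ a) (ha' : a ≤ n) (hj : j ≤ k) :
    dg (psi k (umat p)) a j = if dg (umat p) k a = k then j else dg (umat p) k j := by
  have e1 : dg (psi k (umat p)) a k = dg (umat p) k a := dg_psi_ge p ha le_rfl
  have e2 : dg (psi k (umat p)) k k = dg (umat p) k k := dg_psi_le p le_rfl le_rfl
  have e3 : dg (psi k (umat p)) k j = dg (umat p) k j := dg_psi_le p le_rfl hj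
  rw [← e1, ← e3]
  rw [← e2] at h
  generalize psi k (umat p) = g at h
  have hEk := finrank_E (n := n) hk
  have hEj := finrank_E (n := n) (hj.trans hk)
  split_ifs with hc
  · have h1 : E n k ⊓ (E n a).comap g.mulVecLin = E n k :=
      Submodule.eq_of_le_of_finrank_le inf_le_left (by rw [hEk]; exact hc.ge)
    have h2 : E n j ≤ (E n a).comap g.mulVecLin :=
      (E_mono hj).trans (inf_eq_left.1 h1)
    unfold dg
    rw [inf_eq_left.2 h2, hEj]
  · have hle : dg g a k ≤ k := by
      have := Submodule.finrank_mono (R := ℂ) (inf_le_left : E n k ⊓ (E n a).comap g.mulVecLin ≤ _)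
      rw [hEk] at this
      exact this
    have hlt : dg g a k ≤ dg g k k := by omega
    have h1 : E n k ⊓ (E n k).comap g.mulVecLin = E n k ⊓ (E n a).comap g.mulVecLin :=
      Submodule.eq_of_le_of_finrank_le
        (inf_le_inf_left _ (Submodule.comap_mono (E_mono ha))) hlt
    unfold dg
    have h2 : E n j ⊓ (E n a).comap g.mulVecLin = E n j ⊓ (E n k).comap g.mulVecLin := by
      have e4 : E n j = E n j ⊓ E n k := (inf_eq_left.2 (E_mono hj)).symm
      rw [e4, inf_assoc, inf_assoc, h1]
    rw [h2]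

theorem dg_psi_right {k : ℕ} (hk : k ≤ n) (p : Lo n → ℂ) (h : k ≤ dg (umat p) k k + 1) {a j : ℕ}
    (ha : a ≤ k) (hj : k ≤ j) (hj' : j ≤ n) :
    dg (psi k (umat p)) a j = if dg (umat p) j k = k then a else dg (umat p) a k := by
  have e1 : dg (psi k (umat p)) k j = dg (umat p) j k := dg_psi_ge p le_rfl hj
  have e2 : dg (psi k (umat p)) k k = dg (umat p) k k := dg_psi_le p le_rfl le_rfl
  have e3 : dg (psi k (umat p)) a k = dg (umat p) a k := dg_psi_le p ha le_rfl
  rw [← e1, ← e3]
  rw [← e2] at h
  have hdet : (psi k (umat p)).det = 1 := by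
    rw [psi, Matrix.det_mul, Sm_det, Matrix.det_adjugate, Tm_det, one_pow, one_mul]
  generalize psi k (umat p) = g at h hdet
  have hEk := finrank_E (n := n) hk
  have hEa := finrank_E (n := n) (ha.trans hk)
  have hinv : Invertible g := Matrix.invertibleOfIsUnitDet g (by rw [hdet]; exact isUnit_one)
  have hcomap : ∀ V : Submodule ℂ (Fin n → ℂ),
      Module.finrank ℂ ↥(V.comap g.mulVecLin) = Module.finrank ℂ ↥V := by
    intro V
    have hinj : Function.Injective g.mulVecLin := by
      intro x y hxy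
      exact Matrix.mulVec_injective_of_invertible g hxy
    have hsurj : Function.Surjective g.mulVecLin := LinearMap.surjective_of_injective hinj
    have h1 := LinearEquiv.finrank_eq (Submodule.equivMapOfInjective g.mulVecLin hinj
      (V.comap g.mulVecLin))
    rw [h1, Submodule.map_comap_eq_of_surjective hsurj]
  split_ifs with hc
  · have h1 : E n j ⊓ (E n k).comap g.mulVecLin = (E n k).comap g.mulVecLin :=
      Submodule.eq_of_le_of_finrank_le inf_le_right (by rw [hcomap, hEk]; exact hc.ge)
    have h2 : (E n a).comap g.mulVecLin ≤ E n j :=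
      (Submodule.comap_mono (E_mono ha)).trans (inf_eq_right.1 h1)
    unfold dg
    rw [inf_eq_right.2 h2, hcomap, hEa]
  · have hle : dg g k j ≤ k := by
      have := Submodule.finrank_mono (R := ℂ)
        (inf_le_right : E n j ⊓ (E n k).comap g.mulVecLin ≤ _)
      rw [hcomap, hEk] at this
      exact this
    have hlt : dg g k j ≤ dg g k k := by omega
    have h1 : E n k ⊓ (E n k).comap g.mulVecLin = E n j ⊓ (E n k).comap g.mulVecLin :=
      Submodule.eq_of_le_of_finrank_le (inf_le_inf_right _ (E_mono hj)) hlt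
    unfold dg
    have h2 : E n j ⊓ (E n a).comap g.mulVecLin = E n k ⊓ (E n a).comap g.mulVecLin := by
      have e4 : (E n a).comap g.mulVecLin = (E n k).comap g.mulVecLin ⊓ (E n a).comap g.mulVecLin :=
        (inf_eq_right.2 (Submodule.comap_mono (E_mono ha))).symm
      rw [e4, ← inf_assoc, ← inf_assoc, h1]
    rw [h2]

end SH
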