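import Pool.Agent.LibSH29.G8c
import Pool.Agent.LibSH29.C8
import Pool.Agent.LibSH29.M8
import Pool.Agent.LibSH29.S1

/-!
# The partial inversion of stratified sets (row G8d)

`exists_iota`: take `p ∈ Cell 1 x` (`cell_nonempty`), `psi k (umat p) = umat p'` lies in some
`Cell 1 y` (`exists_cell`), and `dd y = dg (umat p') = iF k (dd x)` by G8b, G8c (`rr x k k ≤ 1` says
`k ≤ dd x k k + 1`). `iF_mono`: the only point is: `d' k a ≤ d k a ≤ k` (`dd_le`), so `d' k a = k`
implies `d k a = k`. `G8`: `Str.Iso.of_maps` with `F = G = psiPoly n k`, `f x = y` from `exists_iota`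
(below `w'` by `iF_mono` and `le_iff_dd`), `g` the same; `p ∈ Cell 1 x` implies
`evm (psiPoly n k) p ∈ Cell 1 y` by `mem_cell_one_iff'`. `rr w' k k = rr w k k`.
-/

set_option autoImplicit false

namespace SH

variable {n : ℕ}

theorem dd_le (x : Equiv.Perm (Fin n)) (a j : ℕ) : dd x a j ≤ a ∧ dd x a j ≤ j := by
  unfold dd
  constructor
  · have h := Finset.card_le_card_of_injOn
      (s := Finset.univ.filter fun b : Fin n => b.val < j ∧ (x b).val < a)
      (t := Finset.range a) (fun b => (x b).val)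
      (by
        intro b hb
        simp only [Finset.coe_filter, Finset.mem_univ, true_and, Set.mem_ofPred_eq] at hb
        simp only [Finset.coe_range, Set.mem_Iio]
        exact hb.2)
      (by
        intro b _ c _ hbc
        exact x.injective (Fin.ext hbc))
    rwa [Finset.card_range] at h
  · have h := Finset.card_le_card_of_injOn
      (s := Finset.univ.filter fun b : Fin n => b.val < j ∧ (x b).val < a)
      (t := Finset.range j) (fun b => b.val)
      (by
        intro b hb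
        simp only [Finset.coe_filter, Finset.mem_univ, true_and, Set.mem_ofPred_eq] at hb
        simp only [Finset.coe_range, Set.mem_Iio]
        exact hb.1)
      (by
        intro b _ c _ hbc
        exact Fin.ext hbc)
    rwa [Finset.card_range] at h

theorem dg_psi_eq {k : ℕ} (hkn : k < n) (x : Equiv.Perm (Fin n)) (hx : rr x k k ≤ 1)
    {p : Lo n → ℂ} (hp : p ∈ Cell 1 x) {a j : ℕ} (ha : a ≤ n) (hj : j ≤ n) :
    dg (psi k (umat p)) a j = iF k (dd x) a j := by
  have hd := mem_cell_one_iff.1 hp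
  have h1 : k ≤ dg (umat p) k k + 1 := by
    rw [hd]
    have := rr_add_dd x k hkn.le
    omega
  unfold iF
  by_cases h2 : a ≤ k ∧ j ≤ k
  · rw [if_pos h2, dg_psi_le p h2.1 h2.2, hd]
  · rw [if_neg h2]
    by_cases h3 : k < a ∧ k < j
    · rw [if_pos h3, dg_psi_ge p h3.1.le h3.2.le, hd]
    · rw [if_neg h3]
      by_cases h4 : k < a
      · rw [if_pos h4, dg_psi_left hkn.le p h1 h4.le ha (by omega), hd, hd]
      · rw [if_neg h4, dg_psi_right hkn.le p h1 (by omega) (by omega) hj, hd, hd]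

theorem exists_iota {k : ℕ} (hk : 1 ≤ k) (hkn : k < n) (x : Equiv.Perm (Fin n))
    (hx : rr x k k ≤ 1) :
    ∃ y : Equiv.Perm (Fin n), (∀ a ≤ n, ∀ j ≤ n, dd y a j = iF k (dd x) a j) ∧
      ∀ p ∈ Cell 1 x, evm (psiPoly n k) p ∈ Cell 1 y := by
  obtain ⟨p, hp⟩ := cell_nonempty x
  have hu : ∀ p : Lo n → ℂ, umat (evm (psiPoly n k) p) = psi k (umat p) := fun p =>
    umat_psiPoly k p
  obtain ⟨y, hy⟩ := exists_cell (evm (psiPoly n k) p)
  have h1 : ∀ a ≤ n, ∀ j ≤ n, dd y a j = iF k (dd x) a j := by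
    intro a ha j hj
    rw [← mem_cell_one_iff.1 hy, hu, dg_psi_eq hkn x hx hp ha hj]
  refine ⟨y, h1, ?_⟩
  intro q hq
  rw [mem_cell_one_iff']
  intro a ha j hj
  rw [hu, dg_psi_eq hkn x hx hq ha hj, h1 a ha j hj]

theorem iF_mono {k : ℕ} (hk : k ≤ n) {x x' : Equiv.Perm (Fin n)} (h : x ≤ x') {a j : ℕ}
    (ha : a ≤ n) (hj : j ≤ n) : iF k (dd x') a j ≤ iF k (dd x) a j := by
  have hd := le_iff_dd.1 h
  unfold iF
  by_cases h2 : a ≤ k ∧ j ≤ k
  · rw [if_pos h2, if_pos h2]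
    exact hd a ha j hj
  · rw [if_neg h2, if_neg h2]
    by_cases h3 : k < a ∧ k < j
    · rw [if_pos h3, if_pos h3]
      exact hd j hj a ha
    · rw [if_neg h3, if_neg h3]
      by_cases h4 : k < a
      · rw [if_pos h4, if_pos h4]
        have e1 := hd k hk a ha
        have e2 := (dd_le x k a).1
        have e3 := (dd_le x' k j).2
        have e4 := hd k hk j hj
        by_cases h5 : dd x' k a = k
        · rw [if_pos h5, if_pos (by omega)]
        · rw [if_neg h5]
          by_cases h6 : dd x k a = k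
          · rw [if_pos h6]
            exact e3
          · rw [if_neg h6]
            exact e4
      · rw [if_neg h4, if_neg h4]
        have e1 := hd j hj k hk
        have e2 := (dd_le x j k).2
        have e3 := (dd_le x' a k).1
        have e4 := hd a ha k hk
        by_cases h5 : dd x' j k = k
        · rw [if_pos h5, if_pos (by omega)]
        · rw [if_neg h5]
          by_cases h6 : dd x j k = k
          · rw [if_pos h6]
            exact e3
          · rw [if_neg h6]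
            exact e4

theorem G8 {k : ℕ} (hk : 1 ≤ k) (hkn : k < n) (w : Equiv.Perm (Fin n)) (hw : rr w k k ≤ 1) :
    ∃ (w' : Equiv.Perm (Fin n)) (φ : Set.Iic w ≃o Set.Iic w'),
      (∀ x : Set.Iic w, ∀ a ≤ n, ∀ j ≤ n, dd (φ x).1 a j = iF k (dd x.1) a j) ∧
      (Iw w).Iso (Iw w') φ := by
  classical
  have hpp : ∀ p : Lo n → ℂ, evm (psiPoly n k) (evm (psiPoly n k) p) = p := fun p =>
    psiPoly_psiPoly k p
  choose io hio hioC using fun x : {x : Equiv.Perm (Fin n) // rr x k k ≤ 1} =>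
    exists_iota hk hkn x.1 x.2
  have hmono : ∀ x y : {x : Equiv.Perm (Fin n) // rr x k k ≤ 1}, x.1 ≤ y.1 → io x ≤ io y := by
    intro x y hxy
    rw [le_iff_dd]
    intro a ha j hj
    rw [hio x a ha j hj, hio y a ha j hj]
    exact iF_mono hkn.le hxy ha hj
  have hrr : ∀ x : {x : Equiv.Perm (Fin n) // rr x k k ≤ 1}, rr (io x) k k ≤ 1 := by
    intro x
    have e1 := rr_add_dd (io x) k hkn.le
    have e2 := rr_add_dd x.1 k hkn.le
    have e3 := hio x k hkn.le k hkn.le
    rw [iF, if_pos ⟨le_rfl, le_rfl⟩] at e3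
    have e4 := x.2
    omega
  have hinv : ∀ x : {x : Equiv.Perm (Fin n) // rr x k k ≤ 1}, io ⟨io x, hrr x⟩ = x.1 := by
    intro x
    obtain ⟨p, hp⟩ := cell_nonempty x.1
    have h1 := hioC x p hp
    have h2 := hioC ⟨io x, hrr x⟩ _ h1
    rw [hpp] at h2
    exact cell_unique h2 hp
  have hxw : ∀ x : Set.Iic w, rr x.1 k k ≤ 1 := fun x => (le_def.1 x.2 k k).trans hw
  have hyw : ∀ y : Set.Iic (io ⟨w, hw⟩), rr y.1 k k ≤ 1 := fun y =>
    (le_def.1 y.2 k k).trans (hrr ⟨w, hw⟩)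
  have hfle : ∀ x : Set.Iic w, io ⟨x.1, hxw x⟩ ≤ io ⟨w, hw⟩ := fun x => hmono _ _ x.2
  have hgle : ∀ y : Set.Iic (io ⟨w, hw⟩), io ⟨y.1, hyw y⟩ ≤ w := by
    intro y
    have h1 := hmono ⟨y.1, hyw y⟩ ⟨io ⟨w, hw⟩, hrr ⟨w, hw⟩⟩ y.2
    rw [hinv ⟨w, hw⟩] at h1
    exact h1
  obtain ⟨φ, hφ, hIso⟩ := Str.Iso.of_maps (Iw w) (Iw (io ⟨w, hw⟩)) (psiPoly n k) (psiPoly n k)
    (fun x => cell_nonempty x.1) (fun y => cell_nonempty y.1)
    (fun x x' p h h' => Subtype.ext (cell_unique h h'))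
    (fun y y' q h h' => Subtype.ext (cell_unique h h'))
    (fun x => ⟨io ⟨x.1, hxw x⟩, hfle x⟩) (fun y => ⟨io ⟨y.1, hyw y⟩, hgle y⟩)
    (fun x x' h => hmono _ _ h) (fun y y' h => hmono _ _ h)
    (fun x p hp => ⟨hioC ⟨x.1, hxw x⟩ p hp, hpp p⟩)
    (fun y q hq => ⟨hioC ⟨y.1, hyw y⟩ q hq, hpp q⟩)
  refine ⟨io ⟨w, hw⟩, φ, ?_, hIso⟩
  intro x a ha j hj
  have h1 : (φ x).1 = io ⟨x.1, hxw x⟩ := congrArg Subtype.val (hφ x)
  exact (congrArg (fun z => dd z a j) h1).trans (hio ⟨x.1, hxw x⟩ a ha j hj)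

end SH
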