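import Pool.Agent.LibSH29.M2
import Pool.Agent.LibSH29.M5

/-!
# Splitting at a wall: the left block (row G9)

`n = a + b + 1`. `Split p` says `g E_a ⊆ E_(a+1)` for `g = umat p`. The blocks `resL p` (rows and
columns `0, …, a`) and `resR p` (rows and columns `a, …, a + b`) only share the diagonal place
`(a, a)`.
-/

set_option autoImplicit false

namespace SH

variable {a b : ℕ}

/-- the coordinates in the rows and columns `0, …, a` -/
def resL (p : Lo (a + b + 1) → ℂ) : Lo (a + 1) → ℂ := fun q =>
  p ⟨(⟨q.1.1.val, by omega⟩, ⟨q.1.2.val, by omega⟩), by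
    have := q.2
    simp only [Fin.lt_def] at this ⊢
    exact this⟩

/-- the coordinates in the rows and columns `a, …, a + b` -/
def resR (p : Lo (a + b + 1) → ℂ) : Lo (b + 1) → ℂ := fun q =>
  p ⟨(⟨a + q.1.1.val, by omega⟩, ⟨a + q.1.2.val, by omega⟩), by
    have := q.2
    simp only [Fin.lt_def] at this ⊢
    omega⟩

/-- the entries in the columns `< a` and the rows `> a` are zero -/
def Split (p : Lo (a + b + 1) → ℂ) : Prop :=
  ∀ q : Lo (a + b + 1), q.1.2.val < a → a < q.1.1.val → p q = 0

theorem umat_resL (p : Lo (a + b + 1) → ℂ) (i j : Fin (a + 1)) :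
    umat (resL p) i j = umat p ⟨i.val, by omega⟩ ⟨j.val, by omega⟩ := by
  unfold umat
  by_cases h : j < i
  · have h' : (⟨j.val, by omega⟩ : Fin (a + b + 1)) < ⟨i.val, by omega⟩ := by
      simp only [Fin.lt_def] at h ⊢
      exact h
    rw [dif_pos h, dif_pos h']
    rfl
  · have h' : ¬ (⟨j.val, by omega⟩ : Fin (a + b + 1)) < ⟨i.val, by omega⟩ := by
      simp only [Fin.lt_def] at h ⊢
      exact h
    rw [dif_neg h, dif_neg h']
    by_cases hij : i = j
    · subst hij
      simp
    · have : (⟨i.val, by omega⟩ : Fin (a + b + 1)) ≠ ⟨j.val, by omega⟩ := by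
        intro hh
        apply hij
        simp only [Fin.mk.injEq] at hh
        exact Fin.ext hh
      rw [if_neg hij, if_neg this]

theorem umat_resR (p : Lo (a + b + 1) → ℂ) (i j : Fin (b + 1)) :
    umat (resR p) i j = umat p ⟨a + i.val, by omega⟩ ⟨a + j.val, by omega⟩ := by
  unfold umat
  by_cases h : j < i
  · have h' : (⟨a + j.val, by omega⟩ : Fin (a + b + 1)) < ⟨a + i.val, by omega⟩ := by
      simp only [Fin.lt_def] at h ⊢
      omega
    rw [dif_pos h, dif_pos h']
    rfl
  · have h' : ¬ (⟨a + j.val, by omega⟩ : Fin (a + b + 1)) < ⟨a + i.val, by omega⟩ := by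
      simp only [Fin.lt_def] at h ⊢
      omega
    rw [dif_neg h, dif_neg h']
    by_cases hij : i = j
    · subst hij
      simp
    · have : (⟨a + i.val, by omega⟩ : Fin (a + b + 1)) ≠ ⟨a + j.val, by omega⟩ := by
        intro hh
        apply hij
        simp only [Fin.mk.injEq] at hh
        exact Fin.ext (by omega)
      rw [if_neg hij, if_neg this]

theorem split_umat {p : Lo (a + b + 1) → ℂ} (hp : Split p) {i k : Fin (a + b + 1)}
    (hi : a < i.val) (hk : k.val < a) : umat p i k = 0 := by
  unfold umat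
  have h : k < i := by
    simp only [Fin.lt_def]
    omega
  rw [dif_pos h]
  exact hp ⟨(i, k), h⟩ hk hi

theorem E_le_comap {p : Lo (a + b + 1) → ℂ} (hp : Split p) :
    E (a + b + 1) a ≤ (E (a + b + 1) (a + 1)).comap (umat p).mulVecLin := by
  intro v hv
  rw [Submodule.mem_comap]
  intro i hi
  rw [Matrix.mulVecLin_apply, Matrix.mulVec, dotProduct]
  apply Finset.sum_eq_zero
  intro k _
  by_cases hk : k.val < a
  · rw [split_umat hp (by omega) hk, zero_mul]
  · rw [hv k (by omega), mul_zero]

/-- `dim (E_a ∩ g⁻¹ E_(a+1)) = a` iff `g E_a ⊆ E_(a+1)` -/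
theorem split_iff (p : Lo (a + b + 1) → ℂ) : Split p ↔ dg (umat p) (a + 1) a = a := by
  constructor
  · intro hp
    unfold dg
    rw [inf_eq_left.2 (E_le_comap hp)]
    exact finrank_E (by omega)
  · intro h q hq hq'
    have h1 : E (a + b + 1) a ⊓ (E (a + b + 1) (a + 1)).comap (umat p).mulVecLin =
        E (a + b + 1) a := by
      apply Submodule.eq_of_le_of_finrank_eq inf_le_left
      rw [finrank_E (by omega)]
      exact h
    have h2 : (Pi.single q.1.2 (1 : ℂ) : Fin (a + b + 1) → ℂ) ∈ E (a + b + 1) a := by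
      intro i hi
      apply Pi.single_eq_of_ne
      intro hh
      rw [hh] at hi
      omega
    rw [← h1] at h2
    have h3 := h2.2
    have h4 := h3 q.1.1 (by omega)
    rw [Matrix.mulVecLin_apply, Matrix.mulVec_single_one] at h4
    simp only [Matrix.col_apply] at h4
    unfold umat at h4
    rw [dif_pos q.2] at h4
    exact h4

/-- extension by zero -/
def extL (a b : ℕ) : (Fin (a + 1) → ℂ) →ₗ[ℂ] (Fin (a + b + 1) → ℂ) where
  toFun v i := if h : i.val < a + 1 then v ⟨i.val, h⟩ else 0
  map_add' u v := by
    ext i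
    by_cases h : i.val < a + 1
    · simp only [Pi.add_apply, dif_pos h]
    · simp only [Pi.add_apply, dif_neg h, add_zero]
  map_smul' c v := by
    ext i
    by_cases h : i.val < a + 1
    · simp only [Pi.smul_apply, dif_pos h, RingHom.id_apply]
    · simp only [Pi.smul_apply, dif_neg h, RingHom.id_apply, smul_zero]

theorem extL_apply_lt (v : Fin (a + 1) → ℂ) {i : Fin (a + b + 1)} (h : i.val < a + 1) :
    extL a b v i = v ⟨i.val, h⟩ :=
  dif_pos h

theorem extL_apply_ge (v : Fin (a + 1) → ℂ) {i : Fin (a + b + 1)} (h : ¬ i.val < a + 1) :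
    extL a b v i = 0 :=
  dif_neg h

theorem extL_injective : Function.Injective (extL a b) := by
  intro u v h
  ext i
  have := congrFun h ⟨i.val, by omega⟩
  rw [extL_apply_lt u (by simpa using i.2), extL_apply_lt v (by simpa using i.2)] at this
  simpa using this

theorem mulVec_extL {p : Lo (a + b + 1) → ℂ} (v : Fin (a + 1) → ℂ) (i : Fin (a + 1)) :
    (umat p).mulVec (extL a b v) ⟨i.val, by omega⟩ = (umat (resL p)).mulVec v i := by
  rw [Matrix.mulVec, dotProduct, Matrix.mulVec, dotProduct]
  rw [← Finset.sum_subset (Finset.subset_univ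
    (Finset.univ.map (Fin.castLEEmb (show a + 1 ≤ a + b + 1 by omega))))]
  · rw [Finset.sum_map]
    apply Finset.sum_congr rfl
    intro k _
    rw [umat_resL, extL_apply_lt v (by simpa using k.2)]
    rfl
  · intro k _ hk
    have : ¬ k.val < a + 1 := by
      intro hh
      apply hk
      rw [Finset.mem_map]
      exact ⟨⟨k.val, hh⟩, Finset.mem_univ _, rfl⟩
    rw [extL_apply_ge v this, mul_zero]

/-- the extension by zero `ℂ^(a+1) → ℂ^n` maps one space onto the other -/
theorem dg_resL {p : Lo (a + b + 1) → ℂ} (hp : Split p) {α j : ℕ} (hj : j ≤ a)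
    (hα : α ≤ a + 1) : dg (umat p) α j = dg (umat (resL p)) α j := by
  have key : Submodule.map (extL a b) (E (a + 1) j ⊓ (E (a + 1) α).comap (umat (resL p)).mulVecLin) =
      E (a + b + 1) j ⊓ (E (a + b + 1) α).comap (umat p).mulVecLin := by
    ext v
    constructor
    · rintro ⟨u, ⟨hu1, hu2⟩, rfl⟩
      have h1 : extL a b u ∈ E (a + b + 1) j := by
        intro i hi
        by_cases h : i.val < a + 1
        · rw [extL_apply_lt u h]
          exact hu1 _ hi
        · rw [extL_apply_ge u h]
      refine ⟨h1, ?_⟩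
      rw [SetLike.mem_coe, Submodule.mem_comap, Matrix.mulVecLin_apply]
      intro i hi
      by_cases h : i.val < a + 1
      · have := mulVec_extL (p := p) u ⟨i.val, h⟩
        simp only at this
        rw [this]
        exact hu2 ⟨i.val, h⟩ hi
      · exact E_le_comap hp (E_mono hj h1) i (by omega)
    · rintro ⟨hv1, hv2⟩
      refine ⟨fun i => v ⟨i.val, by omega⟩, ⟨?_, ?_⟩, ?_⟩
      · intro i hi
        exact hv1 _ hi
      · rw [SetLike.mem_coe, Submodule.mem_comap, Matrix.mulVecLin_apply]
        intro i hi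
        rw [← mulVec_extL (p := p)]
        have h2 : extL a b (fun i => v ⟨i.val, by omega⟩) = v := by
          ext k
          by_cases h : k.val < a + 1
          · rw [extL_apply_lt _ h]
          · rw [extL_apply_ge _ h]
            exact (hv1 k (by omega)).symm
        rw [h2]
        exact hv2 _ hi
      · ext k
        by_cases h : k.val < a + 1
        · rw [extL_apply_lt _ h]
        · rw [extL_apply_ge _ h]
          exact (hv1 k (by omega)).symm
  unfold dg
  rw [← key]
  exact (LinearEquiv.finrank_eq (Submodule.equivMapOfInjective _ extL_injective _)).symm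

theorem dg_low {p : Lo (a + b + 1) → ℂ} (hp : Split p) {α j : ℕ} (hj : j ≤ a)
    (hα : a + 1 ≤ α) : dg (umat p) α j = j := by
  unfold dg
  rw [inf_eq_left.2 (((E_mono hj).trans (E_le_comap hp)).trans (Submodule.comap_mono (E_mono hα)))]
  exact finrank_E (by omega)

end SH
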