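import Pool.Agent.LibSH29.G9

/-!
# Splitting at a wall: the right block (row G9b)

`gL` = the columns `< a` of `g`, the other columns those of the identity; `gR` = the columns `≥ a` of
`g`, the other columns those of the identity; `g = gL * gR` if `Split p` (`gL` fixes `e_j`, `j ≥ a`).
`comap gL (E α) = E α` for `α ≥ a + 1`. So for `α ≥ 1`: `dg g (a+α) (a+j) = dg gR (a+α) (a+j)`, and
`E (a+j) ⊓ comap gR (E (a+α))` is, in `ℂ^n = ℂ^a × ℂ^(b+1)`, the product of `ℂ^a` and
`E j ⊓ comap (umat (resR p)) (E α)`.
-/

set_option autoImplicit false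

namespace SH

variable {a b : ℕ}

theorem g9b_finrank {V W : Type} [AddCommGroup V] [Module ℂ V] [AddCommGroup W] [Module ℂ W]
    [FiniteDimensional ℂ V] (f : V →ₗ[ℂ] W) (hf : Function.Surjective f) (S : Submodule ℂ W) :
    Module.finrank ℂ ↥(S.comap f) = Module.finrank ℂ ↥S + Module.finrank ℂ ↥(LinearMap.ker f) := by
  have h := LinearMap.finrank_range_add_finrank_ker (f.domRestrict (S.comap f))
  have h1 : LinearMap.range (f.domRestrict (S.comap f)) = S := by
    rw [LinearMap.range_domRestrict, Submodule.map_comap_eq_of_surjective hf]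
  have h2 : LinearMap.ker (f.domRestrict (S.comap f)) =
      (LinearMap.ker f).comap (S.comap f).subtype := rfl
  have hle : LinearMap.ker f ≤ S.comap f := by
    intro x hx
    rw [Submodule.mem_comap, LinearMap.mem_ker.1 hx]
    exact S.zero_mem
  rw [h1, h2, (Submodule.comapSubtypeEquivOfLe hle).finrank_eq] at h
  exact h.symm

theorem dg_resR {p : Lo (a + b + 1) → ℂ} (hp : Split p) {α j : ℕ} (hα : 1 ≤ α)
    (hα' : α ≤ b + 1) (hj : j ≤ b + 1) :
    dg (umat p) (a + α) (a + j) = a + dg (umat (resR p)) α j := by
  set ρ : Fin (b + 1) → Fin (a + b + 1) := fun t => ⟨a + t.val, by omega⟩ with hρ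
  have hρi : Function.Injective ρ := by
    intro s t hst
    have := congrArg Fin.val hst
    simp only [hρ] at this
    exact Fin.ext (by omega)
  set f : (Fin (a + b + 1) → ℂ) →ₗ[ℂ] (Fin (b + 1) → ℂ) := LinearMap.funLeft ℂ ℂ ρ with hf
  have hfs : Function.Surjective f := LinearMap.funLeft_surjective_of_injective ℂ ℂ ρ hρi
  have hfa : ∀ z t, f z t = z (ρ t) := fun _ _ => rfl
  have hker : Module.finrank ℂ ↥(LinearMap.ker f) = a := by
    have h := LinearMap.finrank_range_add_finrank_ker f
    rw [LinearMap.range_eq_top.2 hfs, finrank_top, Module.finrank_fin_fun,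
      Module.finrank_fin_fun] at h
    omega
  have hmul : ∀ (z : Fin (a + b + 1) → ℂ) (t : Fin (b + 1)), 1 ≤ t.val →
      (umat p).mulVec z (ρ t) = (umat (resR p)).mulVec (f z) t := by
    intro z t ht
    rw [Matrix.mulVec, Matrix.mulVec, dotProduct, dotProduct]
    have h := Fin.sum_univ_add (a := a) (b := b + 1)
      (fun l : Fin (a + (b + 1)) => umat p (ρ t) l * z l)
    have h0 : ∑ i : Fin a, (umat p (ρ t) (Fin.castAdd (b + 1) i) * z (Fin.castAdd (b + 1) i)) = 0 := by
      refine Finset.sum_eq_zero fun i _ => ?_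
      have h1 : umat p (ρ t) (Fin.castAdd (b + 1) i) = 0 := by
        have hlt : (Fin.castAdd (b + 1) i : Fin (a + b + 1)) < ρ t := by
          simp only [Fin.lt_def, hρ, Fin.val_castAdd]
          omega
        unfold umat
        rw [dif_pos hlt]
        apply hp
        · exact i.2
        · show a < a + t.val
          omega
      rw [h1, zero_mul]
    rw [h0, zero_add] at h
    refine h.trans (Finset.sum_congr rfl fun s _ => ?_)
    rw [umat_resR]
    rfl
  have hW : E (a + b + 1) (a + j) ⊓ (E (a + b + 1) (a + α)).comap (umat p).mulVecLin =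
      (E (b + 1) j ⊓ (E (b + 1) α).comap (umat (resR p)).mulVecLin).comap f := by
    ext z
    rw [Submodule.mem_inf, Submodule.mem_comap, Submodule.mem_comap, Submodule.mem_inf,
      Submodule.mem_comap, mem_E, mem_E, mem_E, mem_E, Matrix.mulVecLin_apply,
      Matrix.mulVecLin_apply]
    constructor
    · rintro ⟨h1, h2⟩
      refine ⟨fun t ht => ?_, fun t ht => ?_⟩
      · rw [hfa]
        exact h1 _ (by simp only [hρ]; omega)
      · rw [← hmul z t (by omega)]
        exact h2 _ (by simp only [hρ]; omega)
    · rintro ⟨h1, h2⟩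
      refine ⟨fun i hi => ?_, fun i hi => ?_⟩
      · have := h1 ⟨i.val - a, by omega⟩ (by simp only; omega)
        rw [hfa] at this
        rw [← this]
        congr 1
        exact Fin.ext (by simp only [hρ]; omega)
      · have h3 := h2 ⟨i.val - a, by omega⟩ (by simp only; omega)
        rw [← hmul z _ (by simp only; omega)] at h3
        rw [← h3]
        congr 1
        exact Fin.ext (by simp only [hρ]; omega)
  unfold dg
  rw [hW, g9b_finrank f hfs, hker, add_comm]

end SH
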