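import Pool.Agent.LibSH29.G9

/-!
# Splitting at a wall: the mixed dimensions (row G9c)

`g = gL * gR` as in G9b. For `α ≤ a + 1`: `comap gL (E α) ≤ E (a+1)` (`gL` maps `E (a+1)` onto itself).
Substituting `z = gR y`: `dg g α j` is the dimension of `gR E_j ∩ gL⁻¹ E_α`, and for `j ≥ a + 1`
`gR E_j ⊇ E_a`, so `gR E_j ∩ E_(a+1)` is `E_(a+1)` (iff `dg g (a+1) j = a + 1`) or `E_a`. In the first
case the dimension is that of `gL⁻¹ E_α`, `α`; in the second that of `E_a ∩ gL⁻¹ E_α`, `dg g α a`
(`g = gL` on `E_a`).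
-/

set_option autoImplicit false

namespace SH

variable {a b : ℕ}

theorem dg_mix {p : Lo (a + b + 1) → ℂ} (hp : Split p) {α j : ℕ} (hα : α ≤ a)
    (hj : a + 1 ≤ j) (hj' : j ≤ a + b + 1) :
    dg (umat p) α j = if dg (umat p) (a + 1) j = a + 1 then α else dg (umat p) α a := by
  set G := (umat p).mulVecLin with hG
  have hinj : Function.Injective G := by
    have hu : IsUnit (umat p).det := by rw [umat_det]; exact isUnit_one
    intro x y hxy
    rw [hG, Matrix.mulVecLin_apply, Matrix.mulVecLin_apply] at hxy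
    have := congrArg ((umat p)⁻¹.mulVec) hxy
    rwa [Matrix.mulVec_mulVec, Matrix.mulVec_mulVec, Matrix.nonsing_inv_mul _ hu, Matrix.one_mulVec,
      Matrix.one_mulVec] at this
  have hfin : ∀ S : Submodule ℂ (Fin (a + b + 1) → ℂ),
      Module.finrank ℂ ↥(S.map G) = Module.finrank ℂ ↥S := fun S =>
    (Submodule.equivMapOfInjective G hinj S).finrank_eq.symm
  have hEa : E (a + b + 1) a ≤ (E (a + b + 1) (a + 1)).comap G := by
    intro z hz
    rw [Submodule.mem_comap, mem_E]
    intro i hi
    rw [hG, Matrix.mulVecLin_apply, Matrix.mulVec, dotProduct]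
    refine Finset.sum_eq_zero fun l _ => ?_
    by_cases hl : l.val < a
    · have hlt : l < i := by simp only [Fin.lt_def]; omega
      have h1 : umat p i l = 0 := by
        unfold umat
        rw [dif_pos hlt]
        exact hp _ hl (by show a < i.val; omega)
      rw [h1, zero_mul]
    · rw [mem_E.1 hz l (by omega), mul_zero]
  have hWle : E (a + b + 1) a ≤ E (a + b + 1) j ⊓ (E (a + b + 1) (a + 1)).comap G :=
    le_inf (E_mono (by omega)) hEa
  have hmap : ∀ β, (E (a + b + 1) j ⊓ (E (a + b + 1) β).comap G).map G ≤ E (a + b + 1) β := by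
    intro β
    rw [Submodule.map_le_iff_le_comap]
    exact inf_le_right
  have hup : Module.finrank ℂ ↥(E (a + b + 1) j ⊓ (E (a + b + 1) (a + 1)).comap G) ≤ a + 1 := by
    have h1 := Submodule.finrank_mono (hmap (a + 1))
    rw [hfin, finrank_E (by omega)] at h1
    exact h1
  have hlow : a ≤ Module.finrank ℂ ↥(E (a + b + 1) j ⊓ (E (a + b + 1) (a + 1)).comap G) := by
    have h1 := Submodule.finrank_mono hWle
    rw [finrank_E (by omega)] at h1
    exact h1
  by_cases hc : dg (umat p) (a + 1) j = a + 1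
  · rw [if_pos hc]
    unfold dg at hc ⊢
    have h1 : (E (a + b + 1) j ⊓ (E (a + b + 1) (a + 1)).comap G).map G = E (a + b + 1) (a + 1) := by
      apply Submodule.eq_of_le_of_finrank_eq (hmap (a + 1))
      rw [hfin, finrank_E (by omega)]
      exact hc
    have h2 : (E (a + b + 1) j ⊓ (E (a + b + 1) α).comap G).map G = E (a + b + 1) α := by
      apply le_antisymm (hmap α)
      intro y hy
      have hy' : y ∈ E (a + b + 1) (a + 1) := E_mono (by omega) hy
      rw [← h1] at hy'
      obtain ⟨z, hz, rfl⟩ := Submodule.mem_map.1 hy'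
      exact Submodule.mem_map.2 ⟨z, ⟨hz.1, hy⟩, rfl⟩
    rw [← hG, ← hfin, h2, finrank_E (by omega)]
  · rw [if_neg hc]
    unfold dg at hc ⊢
    rw [← hG] at hc ⊢
    have h1 : E (a + b + 1) a = E (a + b + 1) j ⊓ (E (a + b + 1) (a + 1)).comap G := by
      apply Submodule.eq_of_le_of_finrank_eq hWle
      rw [finrank_E (by omega)]
      omega
    have h2 : E (a + b + 1) j ⊓ (E (a + b + 1) α).comap G =
        E (a + b + 1) a ⊓ (E (a + b + 1) α).comap G := by
      apply le_antisymm
      · intro z hz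
        refine ⟨?_, hz.2⟩
        rw [h1]
        exact ⟨hz.1, E_mono (by omega : α ≤ a + 1) hz.2⟩
      · exact inf_le_inf_right _ (E_mono (by omega))
    rw [h2]

end SH
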