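import Pool.Agent.LibSH29.G9b
import Pool.Agent.LibSH29.G9c
import Pool.Agent.LibSH29.M8

/-!
# Splitting permutations (row G9d)

Everything is translated from `dg` to `dd` with `cell_nonempty`, `exists_cell`, `mem_cell_one_iff'`,
`dd_inj`. `rr x (a+1) a = 0` says `dd x (a+1) a = a` (`rr_add_dd`), so every `p ∈ Cell 1 x` is `Split`.
-/

set_option autoImplicit false

namespace SH

variable {a b : ℕ}

/-- the point with the two blocks `pL`, `pR` -/
noncomputable def glue (pL : Lo (a + 1) → ℂ) (pR : Lo (b + 1) → ℂ) : Lo (a + b + 1) → ℂ := fun q =>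
  if h : q.1.1.val ≤ a then pL ⟨(⟨q.1.1.val, by omega⟩, ⟨q.1.2.val, by
      have := q.2
      simp only [Fin.lt_def] at this
      omega⟩), by
        have := q.2
        simp only [Fin.lt_def] at this ⊢
        exact this⟩
  else if h' : a ≤ q.1.2.val then pR ⟨(⟨q.1.1.val - a, by omega⟩, ⟨q.1.2.val - a, by omega⟩), by
      have := q.2
      simp only [Fin.lt_def] at this ⊢
      omega⟩
  else 0

theorem glue_split (pL : Lo (a + 1) → ℂ) (pR : Lo (b + 1) → ℂ) : Split (glue pL pR) := by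
  intro q h1 h2
  unfold glue
  rw [dif_neg (by omega), dif_neg (by omega)]

theorem resL_glue (pL : Lo (a + 1) → ℂ) (pR : Lo (b + 1) → ℂ) : resL (glue pL pR) = pL := by
  funext q
  obtain ⟨⟨i, j⟩, hq⟩ := q
  have hi : i.val ≤ a := by omega
  unfold resL glue
  rw [dif_pos hi]

theorem resR_glue (pL : Lo (a + 1) → ℂ) (pR : Lo (b + 1) → ℂ) : resR (glue pL pR) = pR := by
  funext q
  obtain ⟨⟨i, j⟩, hq⟩ := q
  have hq' : j.val < i.val := hq
  unfold resR glue
  rw [dif_neg (by show ¬ (a + i.val ≤ a); omega), dif_pos (by show a ≤ a + j.val; omega)]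
  congr 1
  apply Subtype.ext
  apply Prod.ext
  · apply Fin.ext
    show a + i.val - a = i.val
    omega
  · apply Fin.ext
    show a + j.val - a = j.val
    omega

theorem glue_res {p : Lo (a + b + 1) → ℂ} (hp : Split p) : glue (resL p) (resR p) = p := by
  funext q
  obtain ⟨⟨i, j⟩, hq⟩ := q
  have hq' : j.val < i.val := hq
  unfold glue
  split_ifs with h h'
  · rfl
  · unfold resR
    congr 1
    apply Subtype.ext
    apply Prod.ext
    · apply Fin.ext
      show a + (i.val - a) = i.val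
      have h3 : ¬ i.val ≤ a := h
      omega
    · apply Fin.ext
      show a + (j.val - a) = j.val
      have h3 : a ≤ j.val := h'
      omega
  · refine (hp _ ?_ ?_).symm
    · show j.val < a
      exact not_le.1 h'
    · show a < i.val
      exact not_le.1 h

/-- `x` splits into `yL` and `yR` -/
def Sp (x : Equiv.Perm (Fin (a + b + 1))) (yL : Equiv.Perm (Fin (a + 1)))
    (yR : Equiv.Perm (Fin (b + 1))) : Prop :=
  rr x (a + 1) a = 0 ∧ (∀ α ≤ a + 1, ∀ j ≤ a, dd yL α j = dd x α j) ∧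
    ∀ α ≤ b + 1, ∀ j ≤ b + 1, 1 ≤ α → a + dd yR α j = dd x (a + α) (a + j)

theorem dd_top {n : ℕ} (w : Equiv.Perm (Fin n)) {α : ℕ} (h : α ≤ n) : dd w α n = α := by
  have h1 := rr_add_dd w α (le_refl n)
  rw [rr_n] at h1
  omega

theorem dd_zero_left {n : ℕ} (w : Equiv.Perm (Fin n)) {j : ℕ} (h : j ≤ n) : dd w 0 j = 0 := by
  have h1 := rr_add_dd w 0 h
  rw [rr_zero_left w h] at h1
  omega

theorem dd_le_left {n : ℕ} (w : Equiv.Perm (Fin n)) {α j : ℕ} (h : α ≤ n) (hj : j ≤ n) :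
    dd w α j ≤ α := (dd_mono w le_rfl hj).trans (dd_top w h).le

theorem dd_wall {x : Equiv.Perm (Fin (a + b + 1))} :
    rr x (a + 1) a = 0 ↔ dd x (a + 1) a = a := by
  have h1 := rr_add_dd x (a + 1) (show a ≤ a + b + 1 by omega)
  omega

theorem split_of_cell {x : Equiv.Perm (Fin (a + b + 1))} {p : Lo (a + b + 1) → ℂ}
    (hp : p ∈ Cell 1 x) : Split p ↔ rr x (a + 1) a = 0 := by
  rw [split_iff, mem_cell_one_iff.1 hp, dd_wall]

theorem dd_low {x : Equiv.Perm (Fin (a + b + 1))} (hx : rr x (a + 1) a = 0) {α j : ℕ}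
    (hα : a + 1 ≤ α) (hj : j ≤ a) : dd x α j = j := by
  have h1 := rr_add_dd x α (show j ≤ a + b + 1 by omega)
  have h2 := rr_mono x hα hj
  omega

theorem sp_of_mem {x : Equiv.Perm (Fin (a + b + 1))} {yL : Equiv.Perm (Fin (a + 1))}
    {yR : Equiv.Perm (Fin (b + 1))} {p : Lo (a + b + 1) → ℂ} (hx : rr x (a + 1) a = 0)
    (hp : p ∈ Cell 1 x) (hL : resL p ∈ Cell 1 yL) (hR : resR p ∈ Cell 1 yR) :
    rr x (a + 1) a = 0 ∧ (∀ α ≤ a + 1, ∀ j ≤ a, dd yL α j = dd x α j) ∧
    ∀ α ≤ b + 1, ∀ j ≤ b + 1, 1 ≤ α → a + dd yR α j = dd x (a + α) (a + j) := by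
  have hs : Split p := (split_of_cell hp).2 hx
  refine ⟨hx, fun α hα j hj => ?_, fun α hα j hj h1 => ?_⟩
  · rw [← mem_cell_one_iff.1 hL, ← mem_cell_one_iff.1 hp, dg_resL hs hj hα]
  · rw [← mem_cell_one_iff.1 hR, ← mem_cell_one_iff.1 hp, dg_resR hs h1 hα hj]

theorem dd_mix {x : Equiv.Perm (Fin (a + b + 1))} (hx : rr x (a + 1) a = 0) {α j : ℕ} (hα : α ≤ a)
    (hj : a + 1 ≤ j) (hj' : j ≤ a + b + 1) :
    dd x α j = if dd x (a + 1) j = a + 1 then α else dd x α a := by
  obtain ⟨p, hp⟩ := cell_nonempty x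
  have hs : Split p := (split_of_cell hp).2 hx
  have h := dg_mix hs hα hj hj'
  simp only [mem_cell_one_iff.1 hp] at h
  exact h

theorem exists_split (x : Equiv.Perm (Fin (a + b + 1))) (hx : rr x (a + 1) a = 0) :
    ∃ (yL : Equiv.Perm (Fin (a + 1))) (yR : Equiv.Perm (Fin (b + 1))), Sp x yL yR ∧
      ∀ p ∈ Cell 1 x, Split p ∧ resL p ∈ Cell 1 yL ∧ resR p ∈ Cell 1 yR := by
  obtain ⟨p₀, hp₀⟩ := cell_nonempty x
  obtain ⟨yL, hL⟩ := exists_cell (resL p₀)
  obtain ⟨yR, hR⟩ := exists_cell (resR p₀)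
  have hsp : Sp x yL yR := sp_of_mem hx hp₀ hL hR
  refine ⟨yL, yR, hsp, fun p hp => ⟨(split_of_cell hp).2 hx, ?_, ?_⟩⟩
  · obtain ⟨zL, hzL⟩ := exists_cell (resL p)
    obtain ⟨zR, hzR⟩ := exists_cell (resR p)
    have hsp' := sp_of_mem hx hp hzL hzR
    have : zL = yL := by
      refine dd_inj fun α hα j hj => ?_
      rcases Nat.lt_or_ge a j with h | h
      · obtain rfl : j = a + 1 := by omega
        rw [dd_top _ hα, dd_top _ hα]
      · rw [hsp'.2.1 α hα j h, hsp.2.1 α hα j h]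
    rwa [this] at hzL
  · obtain ⟨zL, hzL⟩ := exists_cell (resL p)
    obtain ⟨zR, hzR⟩ := exists_cell (resR p)
    have hsp' := sp_of_mem hx hp hzL hzR
    have : zR = yR := by
      refine dd_inj fun α hα j hj => ?_
      rcases Nat.eq_zero_or_pos α with h | h
      · subst h
        rw [dd_zero_left _ hj, dd_zero_left _ hj]
      · have h1 := hsp'.2.2 α hα j hj h
        have h2 := hsp.2.2 α hα j hj h
        omega
    rwa [this] at hzR

/-- order: `le_iff_dd`; `dd yL α (a+1) = α`; `dd x α j = j` for `j ≤ a < α`; `dd_mix` -/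
theorem Sp.le_iff {x x' : Equiv.Perm (Fin (a + b + 1))} {yL yL' : Equiv.Perm (Fin (a + 1))}
    {yR yR' : Equiv.Perm (Fin (b + 1))} (h : Sp x yL yR) (h' : Sp x' yL' yR') :
    x ≤ x' ↔ yL ≤ yL' ∧ yR ≤ yR' := by
  rw [le_iff_dd, le_iff_dd, le_iff_dd]
  constructor
  · intro H
    refine ⟨fun α hα j hj => ?_, fun α hα j hj => ?_⟩
    · rcases Nat.lt_or_ge a j with h1 | h1
      · obtain rfl : j = a + 1 := by omega
        rw [dd_top _ hα, dd_top _ hα]
      · rw [h.2.1 α hα j h1, h'.2.1 α hα j h1]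
        exact H _ (by omega) _ (by omega)
    · rcases Nat.eq_zero_or_pos α with h1 | h1
      · subst h1
        rw [dd_zero_left _ hj, dd_zero_left _ hj]
      · have h2 := h.2.2 α hα j hj h1
        have h3 := h'.2.2 α hα j hj h1
        have h4 := H (a + α) (by omega) (a + j) (by omega)
        omega
  · rintro ⟨HL, HR⟩ α hα j hj
    -- the right lower part
    have key : ∀ α j, a + 1 ≤ α → a ≤ j → α ≤ a + b + 1 → j ≤ a + b + 1 →
        dd x' α j ≤ dd x α j := by
      intro α j h1 h2 h3 h4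
      obtain ⟨α', rfl⟩ : ∃ α', α = a + α' := ⟨α - a, by omega⟩
      obtain ⟨j', rfl⟩ : ∃ j', j = a + j' := ⟨j - a, by omega⟩
      have e1 := h.2.2 α' (by omega) j' (by omega) (by omega)
      have e2 := h'.2.2 α' (by omega) j' (by omega) (by omega)
      have e3 := HR α' (by omega) j' (by omega)
      omega
    rcases Nat.lt_or_ge a j with h1 | h1
    · rcases Nat.lt_or_ge a α with h2 | h2
      · exact key α j h2 (by omega) hα hj
      · have e1 := key (a + 1) j le_rfl (by omega) (by omega) hj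
        have e2 := dd_le_left x (α := a + 1) (by omega) hj
        have e3 := HL α (by omega) a (by omega)
        rw [h.2.1 α (by omega) a le_rfl, h'.2.1 α (by omega) a le_rfl] at e3
        have e4 := dd_le_left x' (α := α) hα hj
        rw [dd_mix h.1 h2 h1 hj]
        split_ifs with hc
        · exact e4
        · rw [dd_mix h'.1 h2 h1 hj, if_neg (by omega)]
          exact e3
    · rcases Nat.lt_or_ge a α with h2 | h2
      · rw [dd_low h.1 h2 h1, dd_low h'.1 h2 h1]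
      · have e3 := HL α (by omega) j (by omega)
        rwa [h.2.1 α (by omega) j h1, h'.2.1 α (by omega) j h1] at e3

theorem exists_glue (yL : Equiv.Perm (Fin (a + 1))) (yR : Equiv.Perm (Fin (b + 1))) :
    ∃ x : Equiv.Perm (Fin (a + b + 1)), Sp x yL yR ∧
      ∀ pL ∈ Cell 1 yL, ∀ pR ∈ Cell 1 yR, glue pL pR ∈ Cell 1 x := by
  have key : ∀ pL ∈ Cell 1 yL, ∀ pR ∈ Cell 1 yR, ∃ x : Equiv.Perm (Fin (a + b + 1)),
      Sp x yL yR ∧ glue pL pR ∈ Cell 1 x := by
    intro pL hL pR hR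
    obtain ⟨x, hx⟩ := exists_cell (glue pL pR)
    have h0 : rr x (a + 1) a = 0 := (split_of_cell hx).1 (glue_split pL pR)
    exact ⟨x, sp_of_mem h0 hx (by rwa [resL_glue]) (by rwa [resR_glue]), hx⟩
  obtain ⟨qL, hqL⟩ := cell_nonempty yL
  obtain ⟨qR, hqR⟩ := cell_nonempty yR
  obtain ⟨x, hx, -⟩ := key qL hqL qR hqR
  refine ⟨x, hx, fun pL hL pR hR => ?_⟩
  obtain ⟨x', hx', hm⟩ := key pL hL pR hR
  have e : x = x' := le_antisymm ((hx.le_iff hx').2 ⟨le_rfl, le_rfl⟩)
    ((hx'.le_iff hx).2 ⟨le_rfl, le_rfl⟩)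
  rwa [e]

end SH
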