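import Pool.Agent.LibSH29.Defs

/-!
# Rational maps with a common denominator: definitions and first lemmas (row L0)
-/

set_option autoImplicit false

namespace SH

open MvPolynomial

/-- a rational map with a common denominator -/
structure RMap (σ τ : Type) where
  /-- the denominator -/
  den : MvPolynomial σ ℂ
  /-- the numerators -/
  num : τ → MvPolynomial σ ℂ

variable {σ τ : Type}

/-- the denominator does not vanish at `x` -/
def RMap.ok (F : RMap σ τ) (x : σ → ℂ) : Prop := eval x F.den ≠ 0

/-- the value -/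
noncomputable def RMap.ev (F : RMap σ τ) (x : σ → ℂ) : τ → ℂ :=
  fun j => eval x (F.num j) / eval x F.den

theorem sub_C_mem_mAt (p : σ → ℂ) (f : MvPolynomial σ ℂ) : f - C (eval p f) ∈ mAt p := by
  induction f using MvPolynomial.induction_on with
  | C a => simp
  | add f g hf hg =>
    have : f + g - C (eval p (f + g)) = (f - C (eval p f)) + (g - C (eval p g)) := by
      rw [map_add, map_add]; ring
    rw [this]
    exact add_mem hf hg
  | mul_X f i hf =>
    have : f * X i - C (eval p (f * X i)) =
        X i * (f - C (eval p f)) + C (eval p f) * (X i - C (p i)) := by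
      rw [map_mul, eval_X, map_mul]; ring
    rw [this]
    exact add_mem (Ideal.mul_mem_left _ _ hf)
      (Ideal.mul_mem_left _ _ (Ideal.subset_span ⟨i, rfl⟩))

theorem mem_mAt {p : σ → ℂ} {f : MvPolynomial σ ℂ} : f ∈ mAt p ↔ eval p f = 0 := by
  constructor
  · intro h
    have hle : mAt p ≤ RingHom.ker (eval p) := by
      refine Ideal.span_le.2 ?_
      rintro _ ⟨i, rfl⟩
      simp [RingHom.mem_ker]
    exact hle h
  · intro h
    have := sub_C_mem_mAt p f
    rwa [h, map_zero, sub_zero] at this

/-- `f = c + (f - c)`, `c = eval p f ≠ 0`, `f - c ∈ mAt p` is nilpotent in `RQ` -/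
theorem isUnit_mk (Z : Set (σ → ℂ)) (p : σ → ℂ) (k : ℕ) {f : MvPolynomial σ ℂ}
    (hf : eval p f ≠ 0) :
    IsUnit (Ideal.Quotient.mk (vanishingIdeal ℂ Z ⊔ mAt p ^ (k + 1)) f) := by
  set I := vanishingIdeal ℂ Z ⊔ mAt p ^ (k + 1) with hI
  have hnil : IsNilpotent (Ideal.Quotient.mk I (f - C (eval p f))) := by
    refine ⟨k + 1, ?_⟩
    rw [← map_pow, Ideal.Quotient.eq_zero_iff_mem]
    exact (le_sup_right : mAt p ^ (k + 1) ≤ I) (Ideal.pow_mem_pow (sub_C_mem_mAt p f) _)
  have hu : IsUnit (Ideal.Quotient.mk I (C (eval p f))) := by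
    have : IsUnit (C (eval p f) : MvPolynomial σ ℂ) := (IsUnit.mk0 _ hf).map C
    exact this.map (Ideal.Quotient.mk I)
  have h2 : Ideal.Quotient.mk I f =
      Ideal.Quotient.mk I (C (eval p f)) + Ideal.Quotient.mk I (f - C (eval p f)) := by
    rw [← map_add]; congr 1; ring
  rw [h2]
  exact IsNilpotent.isUnit_add_left_of_commute hnil hu (Commute.all _ _)

/-- Clearing denominators: for every polynomial `e` in the target there are `d` and `e'` with
`e' = den ^ d * (e ∘ F)`, both for values and in every algebra where `den` has the inverse `u`.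
Induction on `e` (`MvPolynomial.induction_on`): constant: `d = 0`; sum: `den ^ d₂ * e₁ + den ^ d₁ * e₂`;
product with `X j`: `d + 1`, `e' * num j`. -/
theorem clear (F : RMap σ τ) (e : MvPolynomial τ ℂ) :
    ∃ (d : ℕ) (e' : MvPolynomial σ ℂ),
      (∀ x, F.ok x → eval x e' = eval x F.den ^ d * eval (F.ev x) e) ∧
      ∀ (A : Type) [CommRing A] [Algebra ℂ A] (π : MvPolynomial σ ℂ →ₐ[ℂ] A) (u : A),
        π F.den * u = 1 → π e' = π F.den ^ d * aeval (fun j => π (F.num j) * u) e := by
  induction e using MvPolynomial.induction_on with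
  | C a =>
    refine ⟨0, C a, fun x _ => by simp, ?_⟩
    intro A _ _ π u _
    simp [← MvPolynomial.algebraMap_eq]
  | add e₁ e₂ h₁ h₂ =>
    obtain ⟨d₁, f₁, a₁, b₁⟩ := h₁
    obtain ⟨d₂, f₂, a₂, b₂⟩ := h₂
    refine ⟨d₁ + d₂, F.den ^ d₂ * f₁ + F.den ^ d₁ * f₂, ?_, ?_⟩
    · intro x hx
      rw [map_add, map_mul, map_mul, map_pow, map_pow, a₁ x hx, a₂ x hx, map_add]
      ring
    · intro A _ _ π u hu
      rw [map_add, map_mul, map_mul, map_pow, map_pow, b₁ A π u hu, b₂ A π u hu, map_add]
      ring
  | mul_X e j h =>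
    obtain ⟨d, f, a, b⟩ := h
    refine ⟨d + 1, f * F.num j, ?_, ?_⟩
    · intro x hx
      have hx' : eval x F.den ≠ 0 := hx
      have h1 : eval (F.ev x) (X j) = eval x (F.num j) / eval x F.den := by
        rw [eval_X]; rfl
      rw [map_mul, a x hx, map_mul, h1, pow_succ]
      field_simp
    · intro A _ _ π u hu
      rw [map_mul, b A π u hu, map_mul, aeval_X, pow_succ]
      have : π F.den ^ d * π F.den * (aeval (fun j => π (F.num j) * u) e * (π (F.num j) * u)) =
          π F.den ^ d * aeval (fun j => π (F.num j) * u) e * π (F.num j) * (π F.den * u) := by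
        ring
      rw [this, hu, mul_one]

end SH
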