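import Pool.Agent.LibSH29.L0

/-!
# The homomorphism of truncated local rings (row L1)

`α = aeval (fun j => mk (num j) * u)`, `u` the inverse of `mk den` (`isUnit_mk`). It kills
`vanishingIdeal ℂ Y`: `e ∈ vanishingIdeal`, `(d, e')` from `clear`; `den * e'` vanishes on `Z` (at `x`
with `F.ok x` because `F.ev x ∈ Y`), so `mk den * mk e' = 0`, `mk e' = 0`, `α e = 0`. It maps `mAt q`
into the image of `mAt p` (the generators `X j - C (q j)`: `num j - q j * den ∈ mAt p` by `mem_mAt`),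
so `mAt q ^ (k+1)` to zero.
-/

set_option autoImplicit false

namespace SH

open MvPolynomial

variable {σ τ : Type}

theorem exists_alpha (Z : Set (σ → ℂ)) (Y : Set (τ → ℂ)) (p : σ → ℂ) (q : τ → ℂ) (F : RMap σ τ)
    (hp : F.ok p) (hFp : F.ev p = q) (hZ : ∀ x ∈ Z, F.ok x → F.ev x ∈ Y) (k : ℕ) :
    ∃ α : RQ Y q k →ₐ[ℂ] RQ Z p k,
      (∀ j, α (Ideal.Quotient.mk (vanishingIdeal ℂ Y ⊔ mAt q ^ (k + 1)) (X j)) *
          Ideal.Quotient.mk (vanishingIdeal ℂ Z ⊔ mAt p ^ (k + 1)) F.den =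
        Ideal.Quotient.mk (vanishingIdeal ℂ Z ⊔ mAt p ^ (k + 1)) (F.num j)) ∧
      ∀ e : MvPolynomial τ ℂ, ∃ (d : ℕ) (e' : MvPolynomial σ ℂ),
        (∀ x, F.ok x → eval x e' = eval x F.den ^ d * eval (F.ev x) e) ∧
        (Ideal.Quotient.mk (vanishingIdeal ℂ Z ⊔ mAt p ^ (k + 1)) e') =
          (Ideal.Quotient.mk (vanishingIdeal ℂ Z ⊔ mAt p ^ (k + 1)) F.den) ^ d *
            α (Ideal.Quotient.mk (vanishingIdeal ℂ Y ⊔ mAt q ^ (k + 1)) e) := by
  set I := vanishingIdeal ℂ Z ⊔ mAt p ^ (k + 1) with hI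
  set J := vanishingIdeal ℂ Y ⊔ mAt q ^ (k + 1) with hJ
  have hu := isUnit_mk Z p k (f := F.den) hp
  rw [← hI] at hu
  obtain ⟨u, hu⟩ := hu.exists_right_inv
  -- the homomorphism before passing to the quotient
  let π : MvPolynomial σ ℂ →ₐ[ℂ] (MvPolynomial σ ℂ ⧸ I) := Ideal.Quotient.mkₐ ℂ I
  have hπ : ∀ f, π f = Ideal.Quotient.mk I f := fun f => rfl
  have hu' : π F.den * u = 1 := hu
  let α₀ : MvPolynomial τ ℂ →ₐ[ℂ] (MvPolynomial σ ℂ ⧸ I) := aeval (fun j => π (F.num j) * u)
  have hden : IsUnit (π F.den) := IsUnit.of_mul_eq_one _ hu'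
  -- it kills the vanishing ideal
  have hY : ∀ e ∈ vanishingIdeal ℂ Y, α₀ e = 0 := by
    intro e he
    obtain ⟨d, e', h1, h2⟩ := clear F e
    have h3 : F.den * e' ∈ vanishingIdeal ℂ Z := by
      intro x hx
      show aeval x (F.den * e') = 0
      rw [aeval_eq_eval, map_mul]
      by_cases hok : F.ok x
      · rw [h1 x hok]
        have := he (F.ev x) (hZ x hx hok)
        rw [aeval_eq_eval] at this
        rw [this]; ring
      · have : eval x F.den = 0 := by
          by_contra h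
          exact hok h
        rw [this, zero_mul]
    have h4 : π (F.den * e') = 0 := by
      rw [hπ, Ideal.Quotient.eq_zero_iff_mem]
      exact (le_sup_left : vanishingIdeal ℂ Z ≤ I) h3
    rw [map_mul, h2 _ π u hu'] at h4
    have h5 : IsUnit (π F.den * π F.den ^ d) := hden.mul (hden.pow d)
    have h6 : (π F.den * π F.den ^ d) * α₀ e = 0 := by
      rw [mul_assoc]; exact h4
    exact (h5.mul_right_eq_zero).1 h6
  -- it maps `mAt q` into the image of `mAt p`
  have hq : ∀ e ∈ mAt q, α₀ e ∈ (mAt p).map (Ideal.Quotient.mk I) := by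
    intro e he
    have hle : mAt q ≤ ((mAt p).map (Ideal.Quotient.mk I)).comap α₀.toRingHom := by
      refine Ideal.span_le.2 ?_
      rintro _ ⟨j, rfl⟩
      show α₀ (X j - C (q j)) ∈ (mAt p).map (Ideal.Quotient.mk I)
      have h1 : α₀ (X j - C (q j)) = π (F.num j - C (q j) * F.den) * u := by
        rw [map_sub, map_sub, map_mul]
        show aeval _ (X j) - aeval _ (C (q j)) = _
        rw [aeval_X, ← MvPolynomial.algebraMap_eq, AlgHom.commutes, ← MvPolynomial.algebraMap_eq,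
          AlgHom.commutes, sub_mul, mul_assoc, hu', mul_one]
      rw [h1]
      refine Ideal.mul_mem_right _ _ (Ideal.mem_map_of_mem _ ?_)
      rw [mem_mAt, map_sub, map_mul, eval_C, ← hFp]
      have : eval p F.den ≠ 0 := hp
      show eval p (F.num j) - eval p (F.num j) / eval p F.den * eval p F.den = 0
      field_simp
      ring
    exact hle he
  have hk : ∀ e ∈ mAt q ^ (k + 1), α₀ e = 0 := by
    intro e he
    have h1 : α₀ e ∈ ((mAt p).map (Ideal.Quotient.mk I)) ^ (k + 1) := by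
      have hle : (mAt q ^ (k + 1)).map α₀.toRingHom ≤
          ((mAt p).map (Ideal.Quotient.mk I)) ^ (k + 1) := by
        rw [Ideal.map_pow]
        refine Ideal.pow_right_mono ?_ _
        rw [Ideal.map_le_iff_le_comap]
        exact hq
      exact hle (Ideal.mem_map_of_mem α₀.toRingHom he)
    rw [← Ideal.map_pow] at h1
    have h2 : (mAt p ^ (k + 1)).map (Ideal.Quotient.mk I) = ⊥ := by
      rw [Ideal.map_eq_bot_iff_le_ker, Ideal.mk_ker]
      exact le_sup_right
    rw [h2] at h1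
    exact h1
  have hker : ∀ e ∈ J, α₀ e = 0 := by
    intro e he
    have hle : J ≤ RingHom.ker α₀.toRingHom :=
      sup_le (fun e he => hY e he) (fun e he => hk e he)
    exact hle he
  refine ⟨Ideal.Quotient.liftₐ J α₀ hker, ?_, ?_⟩
  · intro j
    show α₀ (X j) * π F.den = π (F.num j)
    show aeval _ (X j) * π F.den = π (F.num j)
    rw [aeval_X, mul_assoc, mul_comm u, hu', mul_one]
  · intro e
    obtain ⟨d, e', h1, h2⟩ := clear F e
    exact ⟨d, e', h1, h2 _ π u hu'⟩

end SH
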