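import Pool.Agent.LibSH29.L1

/-!
# Local isomorphisms (row L2)

`α` for `F`, `β` for `G` from `exists_alpha`. `comp_eq`: by the first property for `G`,
`β (mk (X i)) * mk G.den = mk (G.num i)`; apply `α`. It remains to see
`α (mk (G.num i)) = mk (X i) * α (mk G.den)` (`α (mk G.den)` is a unit by `isUnit_mk` for `q`). With
`(d₁, e₁)` for `G.num i` and `(d₂, e₂)` for `G.den` (second property of `α`) the polynomial
`F.den * e₂ * (F.den ^ d₂ * e₁ - X i * F.den ^ d₁ * e₂)` vanishes on `Z`: if `F.ok x` and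
`G.ok (F.ev x)` because `G.ev (F.ev x) = x`; if `eval (F.ev x) G.den = 0` because `eval x e₂ = 0`; if
not `F.ok x` clear. `F.den` and `e₂` are units in `RQ Z p k` (`isUnit_mk`;
`eval p e₂ = eval p F.den ^ d₂ * eval q G.den ≠ 0`).
`LI`: `α`, `β` are inverse to each other (algebra homomorphisms which agree on the generators), so the
dimensions are equal (`LinearEquiv.finrank_eq`).
-/

set_option autoImplicit false

namespace SH

open MvPolynomial

variable {σ τ : Type}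

/-- one composition -/
theorem comp_id (Z : Set (σ → ℂ)) (Y : Set (τ → ℂ)) (p : σ → ℂ) (q : τ → ℂ) (F : RMap σ τ)
    (G : RMap τ σ) (hp : F.ok p) (hq : G.ok q) (hFp : F.ev p = q)
    (hZ : ∀ x ∈ Z, F.ok x → F.ev x ∈ Y ∧ (G.ok (F.ev x) → G.ev (F.ev x) = x)) (k : ℕ)
    (α : RQ Y q k →ₐ[ℂ] RQ Z p k) (β : RQ Z p k →ₐ[ℂ] RQ Y q k)
    (hα : ∀ e : MvPolynomial τ ℂ, ∃ (d : ℕ) (e' : MvPolynomial σ ℂ),
        (∀ x, F.ok x → eval x e' = eval x F.den ^ d * eval (F.ev x) e) ∧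
        (Ideal.Quotient.mk (vanishingIdeal ℂ Z ⊔ mAt p ^ (k + 1)) e') =
          (Ideal.Quotient.mk (vanishingIdeal ℂ Z ⊔ mAt p ^ (k + 1)) F.den) ^ d *
            α (Ideal.Quotient.mk (vanishingIdeal ℂ Y ⊔ mAt q ^ (k + 1)) e))
    (hβ : ∀ j, β (Ideal.Quotient.mk (vanishingIdeal ℂ Z ⊔ mAt p ^ (k + 1)) (X j)) *
          Ideal.Quotient.mk (vanishingIdeal ℂ Y ⊔ mAt q ^ (k + 1)) G.den =
        Ideal.Quotient.mk (vanishingIdeal ℂ Y ⊔ mAt q ^ (k + 1)) (G.num j)) :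
    α.comp β = AlgHom.id ℂ _ := by
  refine Ideal.Quotient.algHom_ext _ ?_
  refine MvPolynomial.algHom_ext ?_
  intro i
  show α (β (Ideal.Quotient.mk (vanishingIdeal ℂ Z ⊔ mAt p ^ (k + 1)) (X i))) =
    Ideal.Quotient.mk (vanishingIdeal ℂ Z ⊔ mAt p ^ (k + 1)) (X i)
  set I := vanishingIdeal ℂ Z ⊔ mAt p ^ (k + 1) with hI
  set J := vanishingIdeal ℂ Y ⊔ mAt q ^ (k + 1) with hJ
  obtain ⟨d₁, e₁, a₁, b₁⟩ := hα (G.num i)
  obtain ⟨d₂, e₂, a₂, b₂⟩ := hα G.den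
  have hd : IsUnit (Ideal.Quotient.mk I F.den) := isUnit_mk Z p k hp
  have he₂ : IsUnit (Ideal.Quotient.mk I e₂) := by
    refine isUnit_mk Z p k ?_
    rw [a₂ p hp, hFp]
    exact mul_ne_zero (pow_ne_zero _ hp) hq
  have hvan : F.den * e₂ * (F.den ^ d₂ * e₁ - X i * F.den ^ d₁ * e₂) ∈ vanishingIdeal ℂ Z := by
    intro x hx
    show aeval x (F.den * e₂ * (F.den ^ d₂ * e₁ - X i * F.den ^ d₁ * e₂)) = 0
    rw [aeval_eq_eval]
    simp only [map_mul, map_sub, map_pow, eval_X]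
    by_cases hok : F.ok x
    · by_cases hG : G.ok (F.ev x)
      · have h1 := (hZ x hx hok).2 hG
        have h2 : eval (F.ev x) (G.num i) = x i * eval (F.ev x) G.den := by
          have h3 : eval (F.ev x) (G.num i) / eval (F.ev x) G.den = x i := congrFun h1 i
          have h4 : eval (F.ev x) G.den ≠ 0 := hG
          field_simp at h3
          rw [h3]; ring
        rw [a₁ x hok, a₂ x hok, h2]
        ring
      · have h1 : eval (F.ev x) G.den = 0 := by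
          by_contra h
          exact hG h
        rw [a₂ x hok, h1]
        ring
    · have h1 : eval x F.den = 0 := by
        by_contra h
        exact hok h
      rw [h1]; ring
  have hzero : Ideal.Quotient.mk I (F.den * e₂ * (F.den ^ d₂ * e₁ - X i * F.den ^ d₁ * e₂)) = 0 := by
    rw [Ideal.Quotient.eq_zero_iff_mem]
    exact (le_sup_left : vanishingIdeal ℂ Z ≤ I) hvan
  rw [map_mul, map_mul] at hzero
  have h1 : Ideal.Quotient.mk I (F.den ^ d₂ * e₁ - X i * F.den ^ d₁ * e₂) = 0 :=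
    ((hd.mul he₂).mul_right_eq_zero).1 hzero
  rw [map_sub, map_mul, map_mul, map_mul, map_pow, map_pow, b₁, b₂] at h1
  have h2 : ((Ideal.Quotient.mk I F.den) ^ d₁ * (Ideal.Quotient.mk I F.den) ^ d₂) *
      (α (Ideal.Quotient.mk J (G.num i)) -
        Ideal.Quotient.mk I (X i) * α (Ideal.Quotient.mk J G.den)) = 0 := by
    rw [← h1]; ring
  have h3 : α (Ideal.Quotient.mk J (G.num i)) -
        Ideal.Quotient.mk I (X i) * α (Ideal.Quotient.mk J G.den) = 0 :=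
    (((hd.pow d₁).mul (hd.pow d₂)).mul_right_eq_zero).1 h2
  have h4 : IsUnit (α (Ideal.Quotient.mk J G.den)) := by
    have : IsUnit (Ideal.Quotient.mk J G.den) := isUnit_mk Y q k hq
    exact this.map α
  have h5 := congrArg α (hβ i)
  rw [map_mul] at h5
  have h6 : α (β (Ideal.Quotient.mk I (X i))) * α (Ideal.Quotient.mk J G.den) =
      Ideal.Quotient.mk I (X i) * α (Ideal.Quotient.mk J G.den) := by
    rw [h5]; exact sub_eq_zero.1 h3
  exact h4.mul_left_injective h6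

theorem LIequiv (Z : Set (σ → ℂ)) (Y : Set (τ → ℂ)) (p : σ → ℂ) (q : τ → ℂ) (F : RMap σ τ)
    (G : RMap τ σ) (hp : F.ok p) (hq : G.ok q) (hFp : F.ev p = q) (hGq : G.ev q = p)
    (hZ : ∀ x ∈ Z, F.ok x → F.ev x ∈ Y ∧ (G.ok (F.ev x) → G.ev (F.ev x) = x))
    (hY : ∀ y ∈ Y, G.ok y → G.ev y ∈ Z ∧ (F.ok (G.ev y) → F.ev (G.ev y) = y)) (k : ℕ) :
    Nonempty (RQ Z p k ≃ₐ[ℂ] RQ Y q k) := by
  obtain ⟨α, hα₁, hα₂⟩ := exists_alpha Z Y p q F hp hFp (fun x hx hok => (hZ x hx hok).1) k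
  obtain ⟨β, hβ₁, hβ₂⟩ := exists_alpha Y Z q p G hq hGq (fun y hy hok => (hY y hy hok).1) k
  have h1 : α.comp β = AlgHom.id ℂ _ := comp_id Z Y p q F G hp hq hFp hZ k α β hα₂ hβ₁
  have h2 : β.comp α = AlgHom.id ℂ _ := comp_id Y Z q p G F hq hp hGq hY k β α hβ₂ hα₁
  exact ⟨AlgEquiv.ofAlgHom β α h2 h1⟩

theorem LI (Z : Set (σ → ℂ)) (Y : Set (τ → ℂ)) (p : σ → ℂ) (q : τ → ℂ) (F : RMap σ τ)
    (G : RMap τ σ) (hp : F.ok p) (hq : G.ok q) (hFp : F.ev p = q) (hGq : G.ev q = p)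
    (hZ : ∀ x ∈ Z, F.ok x → F.ev x ∈ Y ∧ (G.ok (F.ev x) → G.ev (F.ev x) = x))
    (hY : ∀ y ∈ Y, G.ok y → G.ev y ∈ Z ∧ (F.ok (G.ev y) → F.ev (G.ev y) = y)) (k : ℕ) :
    hsAt Z p k = hsAt Y q k := by
  obtain ⟨e⟩ := LIequiv Z Y p q F G hp hq hFp hGq hZ hY k
  exact e.toLinearEquiv.finrank_eq

end SH
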