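import Pool.Agent.LibSH29.M1

/-!
# Minors and the decomposition `g = u b` (row M6)
-/

set_option autoImplicit false

namespace SH

variable {n : ℕ}

/-- the minor with rows `0, …, j - 1, i` and columns `0, …, j` -/
def mn {R : Type*} [CommRing R] (g : Matrix (Fin n) (Fin n) R) (i j : Fin n) : R :=
  (Matrix.of fun r s : Fin (j.val + 1) =>
    g (if h : r.val < j.val then ⟨r.val, by omega⟩ else i) ⟨s.val, by omega⟩).det

theorem m6_sum {R : Type*} [CommRing R] {j : Fin n} (f : Fin n → R) (h : ∀ l : Fin n, j < l → f l = 0) :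
    ∑ l, f l = ∑ s : Fin (j.val + 1), f ⟨s.val, by omega⟩ := by
  have e : Finset.univ.image (fun s : Fin (j.val + 1) => (⟨s.val, by omega⟩ : Fin n)) =
      Finset.univ.filter fun l : Fin n => l ≤ j := by
    ext l
    simp only [Finset.mem_image, Finset.mem_univ, true_and, Finset.mem_filter]
    constructor
    · rintro ⟨s, rfl⟩
      simp only [Fin.le_def]
      omega
    · intro hl
      exact ⟨⟨l.val, by simp only [Fin.le_def] at hl; omega⟩, rfl⟩
  have h1 : ∑ s : Fin (j.val + 1), f ⟨s.val, by omega⟩ =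
      ∑ l ∈ Finset.univ.image (fun s : Fin (j.val + 1) => (⟨s.val, by omega⟩ : Fin n)), f l := by
    rw [Finset.sum_image]
    intro s _ t _ hst
    have := congrArg Fin.val hst
    exact Fin.ext this
  rw [h1, e]
  symm
  apply Finset.sum_subset (Finset.subset_univ _)
  intro l _ hl
  apply h
  simp only [Finset.mem_filter, Finset.mem_univ, true_and, not_le] at hl
  exact hl

theorem m6_umat_diag {R : Type*} [Zero R] [One R] (y : Lo n → R) (i : Fin n) : umat y i i = 1 := by
  unfold umat
  rw [dif_neg (lt_irrefl i), if_pos rfl]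

theorem m6_umat_up {R : Type*} [Zero R] [One R] (y : Lo n → R) {i j : Fin n} (h : i < j) :
    umat y i j = 0 := by
  unfold umat
  rw [dif_neg (not_lt.2 h.le), if_neg (ne_of_lt h)]

theorem m6_det (y : Lo n → ℂ) {b : Matrix (Fin n) (Fin n) ℂ} (hb : IsB b) (i j : Fin n)
    (hij : j ≤ i) :
    mn (umat y * b) i j = umat y i j * ∏ s : Fin (j.val + 1), b ⟨s.val, by omega⟩ ⟨s.val, by omega⟩ := by
  unfold mn
  have e : (Matrix.of fun r s : Fin (j.val + 1) =>
      (umat y * b) (if h : r.val < j.val then ⟨r.val, by omega⟩ else i) ⟨s.val, by omega⟩) =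
      (Matrix.of fun r s : Fin (j.val + 1) =>
        umat y (if h : r.val < j.val then ⟨r.val, by omega⟩ else i) ⟨s.val, by omega⟩) *
      (Matrix.of fun r s : Fin (j.val + 1) => b ⟨r.val, by omega⟩ ⟨s.val, by omega⟩) := by
    ext r s
    rw [Matrix.of_apply, Matrix.mul_apply, Matrix.mul_apply]
    rw [m6_sum (j := j)]
    · rfl
    · intro l hl
      rw [hb.1 l ⟨s.val, by omega⟩ (by simp only [Fin.lt_def] at hl ⊢; omega), mul_zero]
  rw [e, Matrix.det_mul]
  have hU : Matrix.BlockTriangular (Matrix.of fun r s : Fin (j.val + 1) =>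
      umat y (if h : r.val < j.val then ⟨r.val, by omega⟩ else i) ⟨s.val, by omega⟩)
      OrderDual.toDual := by
    intro r s hrs
    have hrs' : r < s := hrs
    rw [Matrix.of_apply]
    have hr : r.val < j.val := by simp only [Fin.lt_def] at hrs'; omega
    rw [dif_pos hr]
    exact m6_umat_up y (by simp only [Fin.lt_def] at hrs' ⊢; exact hrs')
  have hB : Matrix.BlockTriangular (Matrix.of fun r s : Fin (j.val + 1) =>
      b ⟨r.val, by omega⟩ ⟨s.val, by omega⟩) id := by
    intro r s hrs
    have hrs' : s < r := hrs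
    rw [Matrix.of_apply]
    exact hb.1 _ _ (by simp only [Fin.lt_def] at hrs' ⊢; exact hrs')
  rw [Matrix.det_of_lowerTriangular _ hU, Matrix.det_of_upperTriangular hB]
  congr 1
  rw [Fin.prod_univ_castSucc]
  have h1 : ∀ r : Fin j.val, (Matrix.of fun r s : Fin (j.val + 1) =>
      umat y (if h : r.val < j.val then ⟨r.val, by omega⟩ else i) ⟨s.val, by omega⟩)
      r.castSucc r.castSucc = 1 := by
    intro r
    rw [Matrix.of_apply, dif_pos (by simp)]
    exact m6_umat_diag y _
  rw [Finset.prod_congr rfl (fun r _ => h1 r), Finset.prod_const_one, one_mul, Matrix.of_apply,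
    dif_neg (by simp)]
  congr 1

/-- `(u b)` restricted to these rows and columns is the product of `u` (rows `0, …, j-1, i`, columns
`0, …, j`; lower triangular with diagonal `1, …, 1, u i j`) and `b` (rows and columns `0, …, j`),
because `b` is upper triangular. -/
theorem mn_umat_mul (y : Lo n → ℂ) {b : Matrix (Fin n) (Fin n) ℂ} (hb : IsB b) (i j : Fin n)
    (hij : j ≤ i) :
    mn (umat y * b) j j ≠ 0 ∧ mn (umat y * b) i j = umat y i j * mn (umat y * b) j j := by
  rw [m6_det y hb i j hij, m6_det y hb j j le_rfl, m6_umat_diag, one_mul]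
  exact ⟨Finset.prod_ne_zero_iff.2 fun s _ => hb.2 _, rfl⟩

/-- Proof. For every `j` the leading block of size `j + 1` is invertible; let `c_j` be the solution
of `g c_j = e_j` in the rows `0, …, j`, `c_j` supported on `0, …, j`. Let `F` have the columns `c_j`:
upper triangular, and `u = g * F` is lower unitriangular. The diagonal entries of `F` are not zero
since `det g ≠ 0` (`j = n - 1`; for `n = 0` trivial) `· det F = det u = 1`, `det F = ∏ F j j`. So
`g = u * F⁻¹`. -/
theorem exists_lu {g : Matrix (Fin n) (Fin n) ℂ} (h : ∀ j, mn g j j ≠ 0) :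
    ∃ (y : Lo n → ℂ) (b : Matrix (Fin n) (Fin n) ℂ), IsB b ∧ g = umat y * b := by
  have hc : ∀ j : Fin n, ∃ c : Fin (j.val + 1) → ℂ, ∀ i : Fin n, i ≤ j →
      ∑ s : Fin (j.val + 1), g i ⟨s.val, by omega⟩ * c s = if i = j then 1 else 0 := by
    intro j
    have hdet := h j
    unfold mn at hdet
    set A : Matrix (Fin (j.val + 1)) (Fin (j.val + 1)) ℂ := Matrix.of fun r s : Fin (j.val + 1) =>
      g (if h : r.val < j.val then ⟨r.val, by omega⟩ else j) ⟨s.val, by omega⟩ with hA
    have hunit : IsUnit A.det := isUnit_iff_ne_zero.2 hdet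
    refine ⟨A⁻¹.mulVec (Pi.single (Fin.last j.val) 1), ?_⟩
    intro i hij
    have h1 : A.mulVec (A⁻¹.mulVec (Pi.single (Fin.last j.val) 1)) =
        (Pi.single (Fin.last j.val) 1 : Fin (j.val + 1) → ℂ) := by
      rw [Matrix.mulVec_mulVec, Matrix.mul_nonsing_inv _ hunit, Matrix.one_mulVec]
    have hi : i.val < j.val + 1 := by simp only [Fin.le_def] at hij; omega
    have h2 := congrFun h1 ⟨i.val, hi⟩
    rw [Matrix.mulVec, dotProduct] at h2
    have h3 : ∀ s : Fin (j.val + 1), A ⟨i.val, hi⟩ s = g i ⟨s.val, by omega⟩ := by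
      intro s
      rw [hA, Matrix.of_apply]
      congr 1
      by_cases hlt : i.val < j.val
      · rw [dif_pos hlt]
      · rw [dif_neg hlt]
        exact Fin.ext (by simp only [Fin.le_def] at hij; omega)
    simp only [h3] at h2
    rw [h2]
    by_cases hij' : i = j
    · subst hij'
      rw [if_pos rfl]
      have : (⟨i.val, hi⟩ : Fin (i.val + 1)) = Fin.last i.val := Fin.ext rfl
      rw [this, Pi.single_eq_same]
    · rw [if_neg hij', Pi.single_eq_of_ne]
      intro h4
      apply hij'
      have := congrArg Fin.val h4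
      simp at this
      exact Fin.ext this
  choose c hc using hc
  let F : Matrix (Fin n) (Fin n) ℂ := fun l j => if hl : l.val < j.val + 1 then c j ⟨l.val, hl⟩ else 0
  have hF : ∀ l j, F l j = if hl : l.val < j.val + 1 then c j ⟨l.val, hl⟩ else 0 := fun _ _ => rfl
  have hup : ∀ l j : Fin n, j < l → F l j = 0 := by
    intro l j hlj
    rw [hF, dif_neg]
    simp only [Fin.lt_def] at hlj
    omega
  have hgF : ∀ i j : Fin n, i ≤ j → (g * F) i j = if i = j then 1 else 0 := by
    intro i j hij
    rw [Matrix.mul_apply, m6_sum (j := j)]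
    · rw [← hc j i hij]
      refine Finset.sum_congr rfl fun s _ => ?_
      rw [hF, dif_pos s.2]
    · intro l hl
      rw [hup l j hl, mul_zero]
  have hu : umat (fun p : Lo n => (g * F) p.1.1 p.1.2) = g * F := by
    apply exists_umat
    · intro i
      rw [hgF i i le_rfl, if_pos rfl]
    · intro i j hij
      rw [hgF i j hij.le, if_neg (ne_of_lt hij)]
  have hdet : g.det * F.det = 1 := by
    rw [← Matrix.det_mul, ← hu, umat_det]
  have hFdet : F.det = ∏ i, F i i := by
    apply Matrix.det_of_upperTriangular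
    intro i j hij
    exact hup i j hij
  have hFB : IsB F := by
    refine ⟨fun i j hij => hup i j hij, fun i hi => ?_⟩
    have : F.det = 0 := by
      rw [hFdet]
      exact Finset.prod_eq_zero (Finset.mem_univ i) hi
    rw [this, mul_zero] at hdet
    exact zero_ne_one hdet
  refine ⟨fun p : Lo n => (g * F) p.1.1 p.1.2, F⁻¹, hFB.inv, ?_⟩
  rw [hu, Matrix.mul_assoc, hFB.mul_inv, Matrix.mul_one]

theorem mn_map {R S : Type*} [CommRing R] [CommRing S] (f : R →+* S)
    (g : Matrix (Fin n) (Fin n) R) (i j : Fin n) : mn (g.map f) i j = f (mn g i j) := by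
  unfold mn
  rw [RingHom.map_det]
  congr 1

end SH
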