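import Pool.Agent.LibSH29.L0
import Pool.Agent.LibSH29.M6

/-!
# The map `u ↦ L(A u A')` (row L3)

`M = C(A) * umat X * C(A')` over `MvPolynomial (Lo n) ℂ`; `den = ∏ j, mn M j j`,
`num (i, j) = mn M i j * ∏ l ≠ j, mn M l l`. By `mn_map` the evaluation of `mn M i j` at `x` is
`mn (A * umat x * A') i j`. `→`: `exists_lu`, `mn_umat_mul`. `←`: `mn_umat_mul`.
-/

set_option autoImplicit false

namespace SH

open MvPolynomial

/-- the generic matrix -/
noncomputable def genM {n : ℕ} (A A' : Matrix (Fin n) (Fin n) ℂ) :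
    Matrix (Fin n) (Fin n) (MvPolynomial (Lo n) ℂ) :=
  A.map (C : ℂ →+* MvPolynomial (Lo n) ℂ) * umat (fun p : Lo n => (X p : MvPolynomial (Lo n) ℂ)) *
    A'.map (C : ℂ →+* MvPolynomial (Lo n) ℂ)

theorem genM_map {n : ℕ} (A A' : Matrix (Fin n) (Fin n) ℂ) (x : Lo n → ℂ) :
    (genM A A').map (eval x) = A * umat x * A' := by
  unfold genM
  rw [Matrix.map_mul, Matrix.map_mul, umat_map]
  have h1 : ∀ B : Matrix (Fin n) (Fin n) ℂ,
      (B.map (C : ℂ →+* MvPolynomial (Lo n) ℂ)).map (eval x) = B := by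
    intro B
    ext i j
    simp only [Matrix.map_apply, eval_C]
  rw [h1, h1]
  congr 2
  congr 1
  funext p
  exact eval_X p

theorem eval_mn_genM {n : ℕ} (A A' : Matrix (Fin n) (Fin n) ℂ) (x : Lo n → ℂ) (i j : Fin n) :
    eval x (mn (genM A A') i j) = mn (A * umat x * A') i j := by
  rw [← mn_map, genM_map]

/-- the rational map -/
noncomputable def LLmap {n : ℕ} (A A' : Matrix (Fin n) (Fin n) ℂ) : RMap (Lo n) (Lo n) where
  den := ∏ j : Fin n, mn (genM A A') j j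
  num p := mn (genM A A') p.1.1 p.1.2 * ∏ l ∈ Finset.univ.erase p.1.2, mn (genM A A') l l

theorem LLmap_ok {n : ℕ} (A A' : Matrix (Fin n) (Fin n) ℂ) (x : Lo n → ℂ) :
    (LLmap A A').ok x ↔ ∀ j, mn (A * umat x * A') j j ≠ 0 := by
  unfold RMap.ok LLmap
  simp only [map_prod, eval_mn_genM]
  rw [Finset.prod_ne_zero_iff]
  exact ⟨fun h j => h j (Finset.mem_univ j), fun h j _ => h j⟩

theorem LLmap_ev {n : ℕ} (A A' : Matrix (Fin n) (Fin n) ℂ) (x : Lo n → ℂ)
    (h : ∀ j, mn (A * umat x * A') j j ≠ 0) (p : Lo n) :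
    (LLmap A A').ev x p =
      mn (A * umat x * A') p.1.1 p.1.2 / mn (A * umat x * A') p.1.2 p.1.2 := by
  unfold RMap.ev LLmap
  simp only [map_prod, map_mul, eval_mn_genM]
  have h1 : ∏ l ∈ Finset.univ.erase p.1.2, mn (A * umat x * A') l l ≠ 0 :=
    Finset.prod_ne_zero_iff.2 fun l _ => h l
  rw [← Finset.mul_prod_erase Finset.univ _ (Finset.mem_univ p.1.2)]
  exact mul_div_mul_right _ _ h1

theorem exists_LL {n : ℕ} (A A' : Matrix (Fin n) (Fin n) ℂ) :
    ∃ F : RMap (Lo n) (Lo n), ∀ x y : Lo n → ℂ, (F.ok x ∧ F.ev x = y) ↔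
      ∃ b, IsB b ∧ A * umat x * A' = umat y * b := by
  refine ⟨LLmap A A', fun x y => ?_⟩
  have key : ∀ (y' : Lo n → ℂ) (b : Matrix (Fin n) (Fin n) ℂ), IsB b →
      A * umat x * A' = umat y' * b → (LLmap A A').ok x ∧ (LLmap A A').ev x = y' := by
    intro y' b hb hg
    have h1 : ∀ j, mn (A * umat x * A') j j ≠ 0 := by
      intro j
      rw [hg]
      exact (mn_umat_mul y' hb j j le_rfl).1
    refine ⟨(LLmap_ok A A' x).2 h1, funext fun p => ?_⟩
    rw [LLmap_ev A A' x h1 p, div_eq_iff (h1 _)]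
    have h2 := (mn_umat_mul y' hb p.1.1 p.1.2 p.2.le).2
    rw [← hg] at h2
    rw [h2]
    congr 1
    unfold umat
    rw [dif_pos p.2]
  constructor
  · rintro ⟨hok, hev⟩
    obtain ⟨y', b, hb, hg⟩ := exists_lu ((LLmap_ok A A' x).1 hok)
    have h3 := (key y' b hb hg).2
    rw [hev] at h3
    exact ⟨b, hb, by rw [h3]; exact hg⟩
  · rintro ⟨b, hb, hg⟩
    exact key y b hb hg

end SH
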