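import Pool.Agent.LibSH29.L2
import Pool.Agent.LibSH29.L3

/-!
# Homogeneity (row L4)

`umat p = b₁ * pmat v * b₂` (`pmat_one`). `F = LL (b₁ * pmat v) b₂`, `G = LL (pmat v⁻¹ * b₁⁻¹) b₂⁻¹`,
`Z = Cell v w` at `0`, `Y = Cell 1 w` at `p`. If `b₁ * pmat v * umat x * b₂ = umat y * b` and
`x ∈ Cell v w` then `umat y ∈ B (pmat w) B`; and then
`pmat v⁻¹ * b₁⁻¹ * umat y * b₂⁻¹ = umat x * (b₂ * b⁻¹ * b₂⁻¹)`, so `G.ev y = x` (`G.ok y` too).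
At the points: `b₁ * pmat v * 1 * b₂ = umat p * 1`.
-/

set_option autoImplicit false

namespace SH

theorem l4_eq {M : Type*} [Monoid M] {a ai x e y b bi : M} (ha : ai * a = 1) (hb : b * bi = 1)
    (h : a * x * e = y * b) (ei : M) : ai * y * ei = x * (e * bi * ei) := by
  have h1 : y = a * x * e * bi := by
    rw [h, mul_assoc, hb, mul_one]
  rw [h1]
  calc ai * (a * x * e * bi) * ei = (ai * a) * (x * (e * bi * ei)) := by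
        simp only [mul_assoc]
    _ = x * (e * bi * ei) := by rw [ha, one_mul]

theorem RQ_equiv {n : ℕ} {v w : Equiv.Perm (Fin n)} {p : Lo n → ℂ} (hp : p ∈ Cell 1 v) (k : ℕ) :
    Nonempty (RQ (Cell v w) 0 k ≃ₐ[ℂ] RQ (Cell 1 w) p k) := by
  obtain ⟨b₁, b₂, hb₁, hb₂, hp1⟩ := hp
  rw [pmat_one, one_mul] at hp1
  obtain ⟨F, hF⟩ := exists_LL (b₁ * pmat v) b₂
  obtain ⟨G, hG⟩ := exists_LL (pmat v⁻¹ * b₁⁻¹) b₂⁻¹
  have ha : (pmat v⁻¹ * b₁⁻¹) * (b₁ * pmat v) = 1 := by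
    calc (pmat v⁻¹ * b₁⁻¹) * (b₁ * pmat v) = pmat v⁻¹ * (b₁⁻¹ * b₁) * pmat v := by
          simp only [mul_assoc]
      _ = 1 := by rw [hb₁.inv_mul, mul_one, pmat_inv_mul]
  have ha' : (b₁ * pmat v) * (pmat v⁻¹ * b₁⁻¹) = 1 := by
    calc (b₁ * pmat v) * (pmat v⁻¹ * b₁⁻¹) = b₁ * (pmat v * pmat v⁻¹) * b₁⁻¹ := by
          simp only [mul_assoc]
      _ = 1 := by rw [pmat_mul_inv, mul_one, hb₁.mul_inv]
  have h0 : F.ok 0 ∧ F.ev 0 = p := by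
    refine (hF 0 p).2 ⟨1, IsB.one, ?_⟩
    rw [umat_zero, mul_one, mul_one, hp1]
  have h1 : G.ok p ∧ G.ev p = 0 := by
    refine (hG p 0).2 ⟨1, IsB.one, ?_⟩
    rw [umat_zero, mul_one, hp1]
    calc pmat v⁻¹ * b₁⁻¹ * (b₁ * pmat v * b₂) * b₂⁻¹
        = ((pmat v⁻¹ * b₁⁻¹) * (b₁ * pmat v)) * (b₂ * b₂⁻¹) := by simp only [mul_assoc]
      _ = 1 := by rw [ha, hb₂.mul_inv, mul_one]
  refine LIequiv (Cell v w) (Cell 1 w) 0 p F G h0.1 h1.1 h0.2 h1.2 ?_ ?_ k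
  · rintro x ⟨c, c', hc, hc', hx⟩ hok
    obtain ⟨b, hb, hg⟩ := (hF x (F.ev x)).1 ⟨hok, rfl⟩
    refine ⟨⟨b₁ * c, c' * b₂ * b⁻¹, hb₁.mul hc, (hc'.mul hb₂).mul hb.inv, ?_⟩, fun _ => ?_⟩
    · rw [pmat_one, one_mul]
      have h2 : umat (F.ev x) = b₁ * pmat v * umat x * b₂ * b⁻¹ := by
        rw [hg, mul_assoc, hb.mul_inv, mul_one]
      rw [h2]
      calc b₁ * pmat v * umat x * b₂ * b⁻¹ = b₁ * (pmat v * umat x) * (b₂ * b⁻¹) := by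
            simp only [mul_assoc]
        _ = b₁ * c * pmat w * (c' * b₂ * b⁻¹) := by
            rw [hx]
            simp only [mul_assoc]
    · exact ((hG (F.ev x) x).2 ⟨_, (hb₂.mul hb.inv).mul hb₂.inv,
        l4_eq ha hb.mul_inv hg b₂⁻¹⟩).2
  · rintro y ⟨c, c', hc, hc', hy⟩ hok
    rw [pmat_one, one_mul] at hy
    obtain ⟨b, hb, hg⟩ := (hG y (G.ev y)).1 ⟨hok, rfl⟩
    refine ⟨⟨b₁⁻¹ * c, c' * b₂⁻¹ * b⁻¹, hb₁.inv.mul hc, (hc'.mul hb₂.inv).mul hb.inv, ?_⟩,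
      fun _ => ?_⟩
    · have h2 : umat (G.ev y) = pmat v⁻¹ * b₁⁻¹ * umat y * b₂⁻¹ * b⁻¹ := by
        rw [hg, mul_assoc, hb.mul_inv, mul_one]
      rw [h2, hy]
      calc pmat v * (pmat v⁻¹ * b₁⁻¹ * (c * pmat w * c') * b₂⁻¹ * b⁻¹)
          = (pmat v * pmat v⁻¹) * (b₁⁻¹ * c * pmat w * (c' * b₂⁻¹ * b⁻¹)) := by
            simp only [mul_assoc]
        _ = b₁⁻¹ * c * pmat w * (c' * b₂⁻¹ * b⁻¹) := by rw [pmat_mul_inv, one_mul]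
    · exact ((hF (G.ev y) y).2 ⟨_, (hb₂.inv.mul hb.inv).mul hb₂,
        l4_eq ha' hb.mul_inv hg b₂⟩).2

theorem hs_eq_hsAt {n : ℕ} {v w : Equiv.Perm (Fin n)} {p : Lo n → ℂ} (hp : p ∈ Cell 1 v) (k : ℕ) :
    hs v w k = hsAt (Cell 1 w) p k := by
  obtain ⟨e⟩ := RQ_equiv (w := w) hp k
  exact e.toLinearEquiv.finrank_eq

end SH
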