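import Pool.Agent.LibSH29.Defs

/-!
# Triangular and permutation matrices (row M1)
-/

set_option autoImplicit false

namespace SH

variable {n : ℕ}

/-- diagonal entries of a product of two upper triangular matrices -/
private theorem M1_diag_upper {R : Type*} [CommRing R] {a b : Matrix (Fin n) (Fin n) R}
    (ha : ∀ i j : Fin n, j < i → a i j = 0) (hb : ∀ i j : Fin n, j < i → b i j = 0) (i : Fin n) :
    (a * b) i i = a i i * b i i := by
  rw [Matrix.mul_apply]
  refine Finset.sum_eq_single i (fun k _ hk => ?_) (fun h => absurd (Finset.mem_univ i) h)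
  rcases lt_or_gt_of_ne hk with h | h
  · rw [ha i k h, zero_mul]
  · rw [hb k i h, mul_zero]

/-- diagonal entries of a product of two lower triangular matrices -/
private theorem M1_diag_lower {R : Type*} [CommRing R] {a b : Matrix (Fin n) (Fin n) R}
    (ha : ∀ i j : Fin n, i < j → a i j = 0) (hb : ∀ i j : Fin n, i < j → b i j = 0) (i : Fin n) :
    (a * b) i i = a i i * b i i := by
  rw [Matrix.mul_apply]
  refine Finset.sum_eq_single i (fun k _ hk => ?_) (fun h => absurd (Finset.mem_univ i) h)
  rcases lt_or_gt_of_ne hk with h | h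
  · rw [hb k i h, mul_zero]
  · rw [ha i k h, zero_mul]

/-- a product of two upper triangular matrices is upper triangular -/
private theorem M1_mul_upper {R : Type*} [CommRing R] {a b : Matrix (Fin n) (Fin n) R}
    (ha : ∀ i j : Fin n, j < i → a i j = 0) (hb : ∀ i j : Fin n, j < i → b i j = 0) (i j : Fin n)
    (hij : j < i) : (a * b) i j = 0 := by
  rw [Matrix.mul_apply]
  refine Finset.sum_eq_zero fun k _ => ?_
  by_cases h : k < i
  · rw [ha i k h, zero_mul]
  · rw [hb k j (lt_of_lt_of_le hij (not_lt.1 h)), mul_zero]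

/-- a product of two lower triangular matrices is lower triangular -/
private theorem M1_mul_lower {R : Type*} [CommRing R] {a b : Matrix (Fin n) (Fin n) R}
    (ha : ∀ i j : Fin n, i < j → a i j = 0) (hb : ∀ i j : Fin n, i < j → b i j = 0) (i j : Fin n)
    (hij : i < j) : (a * b) i j = 0 := by
  rw [Matrix.mul_apply]
  refine Finset.sum_eq_zero fun k _ => ?_
  by_cases h : i < k
  · rw [ha i k h, zero_mul]
  · rw [hb k j (lt_of_le_of_lt (not_lt.1 h) hij), mul_zero]

theorem IsB.one : IsB (1 : Matrix (Fin n) (Fin n) ℂ) := by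
  refine ⟨fun i j h => Matrix.one_apply_ne (ne_of_gt h), fun i => ?_⟩
  rw [Matrix.one_apply_eq]
  exact one_ne_zero

theorem IsB.mul {b b' : Matrix (Fin n) (Fin n) ℂ} (hb : IsB b) (hb' : IsB b') :
    IsB (b * b') := by
  refine ⟨M1_mul_upper hb.1 hb'.1, fun i => ?_⟩
  rw [M1_diag_upper hb.1 hb'.1]
  exact mul_ne_zero (hb.2 i) (hb'.2 i)

theorem IsB.isUnit_det {b : Matrix (Fin n) (Fin n) ℂ} (hb : IsB b) : IsUnit b.det := by
  have h1 : b.BlockTriangular id := fun i j h => hb.1 i j h
  rw [Matrix.det_of_upperTriangular h1, isUnit_iff_ne_zero]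
  exact Finset.prod_ne_zero_iff.2 fun i _ => hb.2 i

theorem IsB.inv {b : Matrix (Fin n) (Fin n) ℂ} (hb : IsB b) : IsB b⁻¹ := by
  have h1 : b.BlockTriangular id := fun i j h => hb.1 i j h
  haveI : Invertible b := Matrix.invertibleOfIsUnitDet b hb.isUnit_det
  have h2 : b⁻¹.BlockTriangular id := Matrix.blockTriangular_inv_of_blockTriangular h1
  have h3 : ∀ i j : Fin n, j < i → b⁻¹ i j = 0 := fun i j h => h2 h
  refine ⟨h3, fun i h0 => ?_⟩
  have h4 := M1_diag_upper hb.1 h3 i
  rw [Matrix.mul_nonsing_inv b hb.isUnit_det, Matrix.one_apply_eq, h0, mul_zero] at h4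
  exact one_ne_zero h4

theorem IsB.mul_inv {b : Matrix (Fin n) (Fin n) ℂ} (hb : IsB b) : b * b⁻¹ = 1 :=
  Matrix.mul_nonsing_inv b hb.isUnit_det

theorem IsB.inv_mul {b : Matrix (Fin n) (Fin n) ℂ} (hb : IsB b) : b⁻¹ * b = 1 :=
  Matrix.nonsing_inv_mul b hb.isUnit_det

private theorem M1_umat_diag {R : Type*} [Zero R] [One R] (x : Lo n → R) (i : Fin n) :
    umat x i i = 1 := by
  unfold umat
  rw [dif_neg (lt_irrefl i), if_pos rfl]

private theorem M1_umat_up {R : Type*} [Zero R] [One R] (x : Lo n → R) (i j : Fin n) (h : i < j) :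
    umat x i j = 0 := by
  unfold umat
  rw [dif_neg (not_lt.2 h.le), if_neg (ne_of_lt h)]

private theorem M1_umat_low {R : Type*} [Zero R] [One R] (x : Lo n → R) (i j : Fin n) (h : j < i) :
    umat x i j = x ⟨(i, j), h⟩ := by
  unfold umat
  rw [dif_pos h]

theorem umat_det {R : Type*} [CommRing R] (x : Lo n → R) : (umat x).det = 1 := by
  have h1 : (umat x).BlockTriangular OrderDual.toDual := fun i j h =>
    M1_umat_up x i j (OrderDual.toDual_lt_toDual.1 h)
  rw [Matrix.det_of_lowerTriangular _ h1]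
  exact Finset.prod_eq_one fun i _ => M1_umat_diag x i

theorem umat_injective {R : Type*} [Zero R] [One R] {x y : Lo n → R} (h : umat x = umat y) :
    x = y := by
  funext p
  have h1 := congrFun (congrFun h p.1.1) p.1.2
  rw [M1_umat_low x _ _ p.2, M1_umat_low y _ _ p.2] at h1
  exact h1

theorem exists_umat {R : Type*} [Zero R] [One R] {g : Matrix (Fin n) (Fin n) R}
    (h1 : ∀ i, g i i = 1) (h2 : ∀ i j : Fin n, i < j → g i j = 0) :
    umat (fun p : Lo n => g p.1.1 p.1.2) = g := by
  ext i j
  rcases lt_trichotomy i j with h | h | h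
  · rw [M1_umat_up _ _ _ h, h2 i j h]
  · subst h
    rw [M1_umat_diag, h1]
  · rw [M1_umat_low _ _ _ h]

theorem umat_map {R S : Type*} [CommRing R] [CommRing S] (f : R →+* S) (x : Lo n → R) :
    (umat x).map f = umat (fun p => f (x p)) := by
  ext i j
  rw [Matrix.map_apply]
  rcases lt_trichotomy i j with h | h | h
  · rw [M1_umat_up _ _ _ h, M1_umat_up _ _ _ h, map_zero]
  · subst h
    rw [M1_umat_diag, M1_umat_diag, map_one]
  · rw [M1_umat_low _ _ _ h, M1_umat_low _ _ _ h]

theorem umat_zero : umat (0 : Lo n → ℂ) = 1 := by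
  ext i j
  rcases lt_trichotomy i j with h | h | h
  · rw [M1_umat_up _ _ _ h, Matrix.one_apply_ne (ne_of_lt h)]
  · subst h
    rw [M1_umat_diag, Matrix.one_apply_eq]
  · rw [M1_umat_low _ _ _ h, Matrix.one_apply_ne (ne_of_gt h)]
    rfl

/-- the inverse of a lower unitriangular matrix is its adjugate and lower unitriangular -/
theorem umat_adjugate {R : Type*} [CommRing R] (x : Lo n → R) :
    umat x * (umat x).adjugate = 1 ∧ (umat x).adjugate * umat x = 1 ∧
      (∀ i, (umat x).adjugate i i = 1) ∧ ∀ i j : Fin n, i < j → (umat x).adjugate i j = 0 := by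
  have h1 : umat x * (umat x).adjugate = 1 := by
    rw [Matrix.mul_adjugate, umat_det, one_smul]
  have h2 : (umat x).adjugate * umat x = 1 := by
    rw [Matrix.adjugate_mul, umat_det, one_smul]
  have hd : IsUnit (umat x).det := by
    rw [umat_det]
    exact isUnit_one
  haveI : Invertible (umat x) := Matrix.invertibleOfIsUnitDet _ hd
  have h3 : (umat x).BlockTriangular OrderDual.toDual := fun i j h =>
    M1_umat_up x i j (OrderDual.toDual_lt_toDual.1 h)
  have h4 : (umat x)⁻¹.BlockTriangular OrderDual.toDual :=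
    Matrix.blockTriangular_inv_of_blockTriangular h3
  have h5 : (umat x)⁻¹ = (umat x).adjugate := by
    rw [Matrix.inv_def, umat_det, Ring.inverse_one, one_smul]
  rw [h5] at h4
  have h6 : ∀ i j : Fin n, i < j → (umat x).adjugate i j = 0 := fun i j h =>
    h4 (OrderDual.toDual_lt_toDual.2 h)
  refine ⟨h1, h2, fun i => ?_, h6⟩
  have h7 := M1_diag_lower (fun i j h => M1_umat_up x i j h) h6 i
  rw [h1, Matrix.one_apply_eq, M1_umat_diag, one_mul] at h7
  exact h7.symm

/-- `u b = u' b'` implies `u = u'` -/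
theorem umat_unique {x y : Lo n → ℂ} {b b' : Matrix (Fin n) (Fin n) ℂ} (hb : IsB b) (hb' : IsB b')
    (h : umat x * b = umat y * b') : x = y := by
  obtain ⟨h1, h2, h3, h4⟩ := umat_adjugate y
  have h5 : (umat y).adjugate * umat x = b' * b⁻¹ := by
    calc (umat y).adjugate * umat x = (umat y).adjugate * (umat x * (b * b⁻¹)) := by
          rw [hb.mul_inv, mul_one]
      _ = (umat y).adjugate * (umat x * b) * b⁻¹ := by
          rw [← mul_assoc (umat x), ← mul_assoc]
      _ = (umat y).adjugate * (umat y * b') * b⁻¹ := by rw [h]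
      _ = ((umat y).adjugate * umat y) * b' * b⁻¹ := by rw [← mul_assoc (umat y).adjugate]
      _ = b' * b⁻¹ := by rw [h2, one_mul]
  have hone : (umat y).adjugate * umat x = 1 := by
    ext i j
    rcases lt_trichotomy i j with hij | hij | hij
    · rw [M1_mul_lower h4 (fun i j h => M1_umat_up x i j h) i j hij,
        Matrix.one_apply_ne (ne_of_lt hij)]
    · subst hij
      rw [M1_diag_lower h4 (fun i j h => M1_umat_up x i j h) i, h3, M1_umat_diag, one_mul,
        Matrix.one_apply_eq]
    · rw [h5, M1_mul_upper hb'.1 hb.inv.1 i j hij, Matrix.one_apply_ne (ne_of_gt hij)]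
  refine umat_injective ?_
  calc umat x = (umat y * (umat y).adjugate) * umat x := by rw [h1, one_mul]
    _ = umat y * ((umat y).adjugate * umat x) := mul_assoc _ _ _
    _ = umat y := by rw [hone, mul_one]

theorem pmat_one : pmat (1 : Equiv.Perm (Fin n)) = 1 := by
  ext i j
  unfold pmat
  rw [Equiv.Perm.one_apply, Matrix.one_apply]

theorem pmat_mul (v w : Equiv.Perm (Fin n)) : pmat (v * w) = pmat v * pmat w := by
  ext i j
  rw [Matrix.mul_apply, Finset.sum_eq_single (w j)]
  · unfold pmat
    rw [Equiv.Perm.mul_apply, if_pos (rfl : w j = w j), mul_one]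
  · intro k _ hk
    unfold pmat
    rw [if_neg hk, mul_zero]
  · intro h
    exact absurd (Finset.mem_univ _) h

theorem pmat_mul_inv (w : Equiv.Perm (Fin n)) : pmat w * pmat w⁻¹ = 1 := by
  rw [← pmat_mul, mul_inv_cancel, pmat_one]

theorem pmat_inv_mul (w : Equiv.Perm (Fin n)) : pmat w⁻¹ * pmat w = 1 := by
  rw [← pmat_mul, inv_mul_cancel, pmat_one]

theorem isUnit_det_pmat (w : Equiv.Perm (Fin n)) : IsUnit (pmat w).det := by
  have h1 := congrArg Matrix.det (pmat_mul_inv w)
  rw [Matrix.det_mul, Matrix.det_one] at h1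
  exact IsUnit.of_mul_eq_one _ h1

end SH
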