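import Pool.Agent.LibSH29.M1

/-!
# Intersection dimensions (row M2)
-/

set_option autoImplicit false

namespace SH

variable {n : ℕ}

/-- the span of the first `j` basis vectors -/
def E (n j : ℕ) : Submodule ℂ (Fin n → ℂ) where
  carrier := {v | ∀ i : Fin n, j ≤ i.val → v i = 0}
  add_mem' hu hv i hi := by simp [hu i hi, hv i hi]
  zero_mem' i _ := rfl
  smul_mem' c v hv i hi := by simp [hv i hi]

theorem mem_E {j : ℕ} {v : Fin n → ℂ} : v ∈ E n j ↔ ∀ i : Fin n, j ≤ i.val → v i = 0 :=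
  Iff.rfl

/-- `dim (g E_j ∩ E_a) = dim (E_j ∩ g⁻¹ E_a)` -/
noncomputable def dg (g : Matrix (Fin n) (Fin n) ℂ) (a j : ℕ) : ℕ :=
  Module.finrank ℂ ↥(E n j ⊓ (E n a).comap g.mulVecLin)

theorem E_mono {i j : ℕ} (h : i ≤ j) : E n i ≤ E n j :=
  fun _ hv k hk => hv k (h.trans hk)

private theorem M2_finrank_supp (p : Fin n → Prop) [DecidablePred p] (S : Submodule ℂ (Fin n → ℂ))
    (hS : ∀ v, v ∈ S ↔ ∀ i, ¬ p i → v i = 0) :
    Module.finrank ℂ ↥S = (Finset.univ.filter p).card := by
  let e : ↥S ≃ₗ[ℂ] ({i : Fin n // p i} → ℂ) :=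
    { toFun := fun v i => v.1 i.1
      map_add' := fun _ _ => rfl
      map_smul' := fun _ _ => rfl
      invFun := fun f => ⟨fun i => if h : p i then f ⟨i, h⟩ else 0, (hS _).2 fun i hi => dif_neg hi⟩
      left_inv := fun v => by
        ext i
        by_cases h : p i
        · simp [h]
        · simp [h, (hS v.1).1 v.2 i h]
      right_inv := fun f => by
        ext i
        simp [i.2] }
  rw [e.finrank_eq, Module.finrank_fintype_fun_eq_card, Fintype.card_subtype]

theorem finrank_E {j : ℕ} (h : j ≤ n) : Module.finrank ℂ ↥(E n j) = j := by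
  rw [M2_finrank_supp (fun i : Fin n => i.val < j) (E n j) (fun v => by
    rw [mem_E]
    exact forall_congr' fun i => by rw [not_lt])]
  have h1 : (Finset.univ.filter fun i : Fin n => i.val < j) =
      (Finset.univ : Finset (Fin j)).map (Fin.castLEEmb h) := by
    ext i
    simp only [Finset.mem_filter, Finset.mem_univ, true_and, Finset.mem_map]
    constructor
    · intro hi
      exact ⟨⟨i.val, hi⟩, Fin.ext rfl⟩
    · rintro ⟨k, rfl⟩
      exact k.2
  rw [h1, Finset.card_map, Finset.card_univ, Fintype.card_fin]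

private theorem M2_le_comap {b : Matrix (Fin n) (Fin n) ℂ} (hb : IsB b) (j : ℕ) {v : Fin n → ℂ}
    (hv : v ∈ E n j) : b.mulVec v ∈ E n j := by
  intro i hi
  unfold Matrix.mulVec dotProduct
  refine Finset.sum_eq_zero fun k _ => ?_
  change b i k * v k = 0
  rcases lt_or_ge k i with h | h
  · rw [hb.1 i k h, zero_mul]
  · rw [hv k (hi.trans h), mul_zero]

/-- `comap b (E j) = E j` for `b` upper triangular invertible -/
theorem comap_E {b : Matrix (Fin n) (Fin n) ℂ} (hb : IsB b) (j : ℕ) :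
    (E n j).comap b.mulVecLin = E n j := by
  ext v
  rw [Submodule.mem_comap, Matrix.mulVecLin_apply]
  constructor
  · intro h
    have h1 := M2_le_comap hb.inv j h
    rwa [Matrix.mulVec_mulVec, hb.inv_mul, Matrix.one_mulVec] at h1
  · exact M2_le_comap hb j

/-- `E j ⊓ comap (b g b') (E a) = comap b' (E j ⊓ comap g (E a))`, and `comap` under an invertible
map keeps the dimension -/
theorem dg_mul {b g b' : Matrix (Fin n) (Fin n) ℂ} (hb : IsB b) (hb' : IsB b') (a j : ℕ) :
    dg (b * g * b') a j = dg g a j := by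
  have h1 : E n j ⊓ (E n a).comap (b * g * b').mulVecLin =
      (E n j ⊓ (E n a).comap g.mulVecLin).comap b'.mulVecLin := by
    rw [Submodule.comap_inf, comap_E hb' j, Matrix.mulVecLin_mul, Matrix.mulVecLin_mul,
      Submodule.comap_comp, Submodule.comap_comp, comap_E hb a]
  let e : (Fin n → ℂ) ≃ₗ[ℂ] (Fin n → ℂ) := LinearEquiv.ofLinearMap b'.mulVecLin b'⁻¹.mulVecLin
    (by rw [← Matrix.mulVecLin_mul, hb'.mul_inv, Matrix.mulVecLin_one])
    (by rw [← Matrix.mulVecLin_mul, hb'.inv_mul, Matrix.mulVecLin_one])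
  have h2 : (E n j ⊓ (E n a).comap g.mulVecLin).comap b'.mulVecLin =
      (E n j ⊓ (E n a).comap g.mulVecLin).map (e.symm : (Fin n → ℂ) →ₗ[ℂ] (Fin n → ℂ)) :=
    Submodule.comap_equiv_eq_map_symm e _
  unfold dg
  rw [h1, h2, LinearEquiv.finrank_map_eq]

end SH
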