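import Pool.Agent.LibSH29.M2
import Pool.Agent.LibSH29.C1

/-!
# Intersection dimensions of permutation matrices (row M3)

`E j ⊓ comap (pmat w) (E a)` is the space of the vectors supported on `{b | b < j ∧ w b < a}`.
-/

set_option autoImplicit false

namespace SH

private theorem M3_finrank_supp {n : ℕ} (p : Fin n → Prop) [DecidablePred p]
    (S : Submodule ℂ (Fin n → ℂ)) (hS : ∀ v, v ∈ S ↔ ∀ i, ¬ p i → v i = 0) :
    Module.finrank ℂ ↥S = (Finset.univ.filter p).card := by
  let e : ↥S ≃ₗ[ℂ] ({i : Fin n // p i} → ℂ) :=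
    { toFun := fun v i => v.1 i.1
      map_add' := fun _ _ => rfl
      map_smul' := fun _ _ => rfl
      invFun := fun f => ⟨fun i => if h : p i then f ⟨i, h⟩ else 0, (hS _).2 fun i hi => dif_neg hi⟩
      left_inv := fun v => by
        ext i
        by_cases h : p i
        · simp [h]
        · simp [h, (hS v.1).1 v.2 i h]
      right_inv := fun f => by
        ext i
        simp [i.2] }
  rw [e.finrank_eq, Module.finrank_fintype_fun_eq_card, Fintype.card_subtype]

private theorem M3_pmat_mulVec {n : ℕ} (w : Equiv.Perm (Fin n)) (v : Fin n → ℂ) (k : Fin n) :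
    (pmat w).mulVec v (w k) = v k := by
  unfold Matrix.mulVec dotProduct pmat
  rw [Finset.sum_eq_single k]
  · simp
  · intro b _ hb
    change (if w k = w b then (1 : ℂ) else 0) * v b = 0
    rw [if_neg fun h => hb (w.injective h).symm, zero_mul]
  · intro h
    exact absurd (Finset.mem_univ k) h

theorem dg_pmat {n : ℕ} (w : Equiv.Perm (Fin n)) (a j : ℕ) : dg (pmat w) a j = dd w a j := by
  unfold dg dd
  refine M3_finrank_supp (fun b : Fin n => b.val < j ∧ (w b).val < a) _ fun v => ?_
  rw [Submodule.mem_inf, Submodule.mem_comap, Matrix.mulVecLin_apply, mem_E, mem_E]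
  constructor
  · rintro ⟨h1, h2⟩ i hi
    by_cases h : i.val < j
    · have h3 : a ≤ (w i).val := by
        by_contra h4
        exact hi ⟨h, not_le.1 h4⟩
      have h4 := h2 (w i) h3
      rwa [M3_pmat_mulVec] at h4
    · exact h1 i (not_lt.1 h)
  · intro h
    refine ⟨fun i hi => h i fun h1 => absurd h1.1 (not_lt.2 hi), fun i hi => ?_⟩
    obtain ⟨k, rfl⟩ := w.surjective i
    rw [M3_pmat_mulVec]
    exact h k fun h1 => absurd h1.2 (not_lt.2 hi)

end SH
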