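import Mathlib

/-!
# Rank functions of permutations and the Bruhat order
-/

set_option autoImplicit false

namespace SH

/-- `#{b < j : w b ≥ a}` -/
def rr {n : ℕ} (w : Equiv.Perm (Fin n)) (a j : ℕ) : ℕ :=
  (Finset.univ.filter fun b : Fin n => b.val < j ∧ a ≤ (w b).val).card

/-- the number of inversions -/
def len {n : ℕ} (w : Equiv.Perm (Fin n)) : ℕ :=
  (Finset.univ.filter fun p : Fin n × Fin n => p.1 < p.2 ∧ w p.2 < w p.1).card

theorem rr_zero {n : ℕ} (w : Equiv.Perm (Fin n)) (a : ℕ) : rr w a 0 = 0 := by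
  simp [rr]

theorem rr_succ {n : ℕ} (w : Equiv.Perm (Fin n)) (a : ℕ) (j : Fin n) :
    rr w a (j.val + 1) = rr w a j.val + if a ≤ (w j).val then 1 else 0 := by
  unfold rr
  have h : (Finset.univ.filter fun b : Fin n => b.val < j.val + 1 ∧ a ≤ (w b).val) =
      (Finset.univ.filter fun b : Fin n => b.val < j.val ∧ a ≤ (w b).val) ∪
      (if a ≤ (w j).val then {j} else ∅) := by
    ext b
    by_cases hj : a ≤ (w j).val
    · rw [if_pos hj]
      simp only [Finset.mem_filter, Finset.mem_univ, true_and, Finset.mem_union,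
        Finset.mem_singleton]
      constructor
      · rintro ⟨h1, h2⟩
        by_cases hb : b = j
        · exact Or.inr hb
        · refine Or.inl ⟨?_, h2⟩
          have : b.val ≠ j.val := fun h => hb (Fin.ext h)
          omega
      · rintro (⟨h1, h2⟩ | h)
        · exact ⟨by omega, h2⟩
        · subst h; exact ⟨by omega, hj⟩
    · rw [if_neg hj]
      simp only [Finset.mem_filter, Finset.mem_univ, true_and, Finset.union_empty]
      constructor
      · rintro ⟨h1, h2⟩
        refine ⟨?_, h2⟩
        rcases Nat.lt_succ_iff_lt_or_eq.1 h1 with h | h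
        · exact h
        · have hb : b = j := Fin.ext h
          subst hb
          exact absurd h2 hj
      · rintro ⟨h1, h2⟩
        exact ⟨by omega, h2⟩
  rw [h, Finset.card_union_of_disjoint]
  · split_ifs <;> simp
  · split_ifs
    · simp
    · simp

theorem rr_inj {n : ℕ} {v w : Equiv.Perm (Fin n)} (h : ∀ a j, rr v a j = rr w a j) : v = w := by
  have key : ∀ (j : Fin n) (a : ℕ), a ≤ (v j).val ↔ a ≤ (w j).val := by
    intro j a
    have h1 := rr_succ v a j
    have h2 := rr_succ w a j
    rw [h, h] at h1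
    rw [h1] at h2
    by_cases hv : a ≤ (v j).val <;> by_cases hw : a ≤ (w j).val <;> simp_all <;> omega
  ext j
  exact le_antisymm ((key j _).1 le_rfl) ((key j _).2 le_rfl)

/-- Bruhat order (Björner-Brenti, Theorem 2.1.5) -/
instance instPartialOrderPerm {n : ℕ} : PartialOrder (Equiv.Perm (Fin n)) where
  le v w := ∀ a j : ℕ, rr v a j ≤ rr w a j
  le_refl _ _ _ := le_rfl
  le_trans _ _ _ h1 h2 a j := (h1 a j).trans (h2 a j)
  le_antisymm _ _ h1 h2 := rr_inj fun a j => le_antisymm (h1 a j) (h2 a j)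

theorem le_def {n : ℕ} {v w : Equiv.Perm (Fin n)} : v ≤ w ↔ ∀ a j : ℕ, rr v a j ≤ rr w a j :=
  Iff.rfl

end SH
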