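import Pool.Agent.LibSH29.C5
import Pool.Agent.LibSH29.C6
import Pool.Agent.LibSH29.C7
import Pool.Agent.LibSH29.C9
import Pool.Agent.LibSH29.G8d
import Pool.Agent.LibSH29.G6

/-!
# Isomorphisms between strong intervals (row X1)

`aux`: downward induction on `m`. `m + 1 ≥ n - 1 + 1`, i.e. all `i` with `1 ≤ i`, `i + 1 < n` satisfy
`i < m`: `rigid` gives `(φ x).1 = x.1`, so `w = w'` (the top elements) and `φ` is the identity:
`Str.Iso.refl`. Step from `m + 1` to `m` (`1 ≤ m`, `m + 1 < n`): `sign_dichotomy` for `i = m`. In the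
first case use the induction hypothesis. In the second case `rr w' m m ≤ 1`: for `m = 1` by
`rr_le_left`, for `m ≥ 2` by `sign_change` with `k = m` (plus for `m - 1`). `G8` with `k = m` for `w'`
gives `φ₈ : Iic w' ≃o Iic w''`, `w''` strong (`iF_strong`), `φ.trans φ₈` fixes the atoms (`iF_AA`), has
plus for `i < m` (`iF_lt`) and for `i = m` (`iF_ge`). The induction hypothesis gives the isomorphism
along `φ.trans φ₈`, compose with the inverse of the one along `φ₈`.
`strong_iso`: `same_size` (`subst`), `atoms_dichotomy`; in the second case compose with `flip_iso`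
(`Strong.flip`, `AA_flip`).
-/

set_option autoImplicit false

namespace SH

theorem X1_cancel {A B C : Str} {φ : A.P ≃o B.P} {ψ : B.P ≃o C.P} (h : A.Iso C (φ.trans ψ))
    (h' : B.Iso C ψ) : A.Iso B φ := by
  have h1 := h.trans h'.symm
  have h2 : (φ.trans ψ).trans ψ.symm = φ := OrderIso.ext (funext fun x => by simp)
  rwa [h2] at h1

theorem X1_top {n n' : ℕ} {w : Equiv.Perm (Fin n)} {w' : Equiv.Perm (Fin n')}
    (φ : Set.Iic w ≃o Set.Iic w') : (φ ⟨w, Set.mem_Iic.2 le_rfl⟩).1 = w' := by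
  have h1 : φ ⊤ = ⊤ := φ.map_top
  have h2 : (⊤ : Set.Iic w) = ⟨w, Set.mem_Iic.2 le_rfl⟩ := rfl
  rw [← h2, h1]
  rfl

theorem X1_base {n : ℕ} {w w' : Equiv.Perm (Fin n)} (φ : Set.Iic w ≃o Set.Iic w')
    (hA : ∀ (x : Set.Iic w) (i : ℕ), 1 ≤ i → i < n → (AA i x.1 ↔ AA i (φ x).1))
    (hU : ∀ (x : Set.Iic w) (i : ℕ), 1 ≤ i → i + 1 < n → (UU i x.1 ↔ UU i (φ x).1)) :
    (Iw w).Iso (Iw w') φ := by
  have h1 := rigid φ hA hU
  have h2 : w' = w := by rw [← X1_top φ, h1]
  subst h2
  have h3 : φ = OrderIso.refl _ := OrderIso.ext (funext fun x => Subtype.ext (h1 x))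
  rw [h3]
  exact Str.Iso.refl (Iw w')

theorem X1_aux {n : ℕ} {w : Equiv.Perm (Fin n)} (hw : Strong w) (k : ℕ) :
    ∀ m, 1 ≤ m → n ≤ m + k → ∀ (w' : Equiv.Perm (Fin n)), Strong w' →
      ∀ φ : Set.Iic w ≃o Set.Iic w',
      (∀ (x : Set.Iic w) (i : ℕ), 1 ≤ i → i < n → (AA i x.1 ↔ AA i (φ x).1)) →
      (∀ i, 1 ≤ i → i + 1 < n → i < m → ∀ x : Set.Iic w,
        (UU i x.1 ↔ UU i (φ x).1) ∧ (VV i x.1 ↔ VV i (φ x).1)) →
      (Iw w).Iso (Iw w') φ := by
  induction k with
  | zero =>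
    intro m hm hmk w' hw' φ hA hS
    exact X1_base φ hA fun x i h1 h2 => (hS i h1 h2 (by omega) x).1
  | succ k ih =>
    intro m hm hmk w' hw' φ hA hS
    by_cases hmn : m + 1 < n
    · rcases sign_dichotomy hw hw' φ hA hm hmn with h | h
      · refine ih (m + 1) (by omega) (by omega) w' hw' φ hA fun i h1 h2 h3 => ?_
        rcases Nat.lt_succ_iff_lt_or_eq.1 h3 with h4 | h4
        · exact hS i h1 h2 h4
        · subst h4
          exact h
      · have hr : rr w' m m ≤ 1 := by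
          by_cases hm2 : 2 ≤ m
          · exact sign_change φ hm2
              (fun x => (hS (m - 1) (by omega) (by omega) (by omega) x).1)
              (fun x => (hS (m - 1) (by omega) (by omega) (by omega) x).2)
              (fun x => (h x).1) (fun x => (h x).2)
          · exact (rr_le_left w' m m).trans (by omega)
        obtain ⟨w'', φ₈, hdd, hiso⟩ := G8 hm (by omega) w' hr
        have hw'' : Strong w'' := by
          refine iF_strong hm ?_ hw'
          intro a ha j hj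
          have h1 := hdd ⟨w', Set.mem_Iic.2 le_rfl⟩ a ha j hj
          rw [X1_top φ₈] at h1
          exact h1
        have h1 : (Iw w).Iso (Iw w'') (φ.trans φ₈) := by
          refine ih (m + 1) (by omega) (by omega) w'' hw'' (φ.trans φ₈) (fun x i h2 h3 => ?_)
            fun i h2 h3 h4 x => ?_
          · exact (hA x i h2 h3).trans (iF_AA (hdd (φ x)) h2 h3)
          · rcases Nat.lt_succ_iff_lt_or_eq.1 h4 with h5 | h5
            · have h6 := hS i h2 h3 h5 x
              have h7 := iF_lt (hdd (φ x)) h2 h3 h5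
              exact ⟨h6.1.trans h7.1, h6.2.trans h7.2⟩
            · subst h5
              have h6 := h x
              have h7 := iF_ge (hdd (φ x)) h2 h3 hm le_rfl
              exact ⟨h6.1.trans h7.2, h6.2.trans h7.1⟩
        exact X1_cancel h1 hiso
    · exact X1_base φ hA fun x i h1 h2 => (hS i h1 h2 (by omega) x).1

theorem aux {n : ℕ} {w : Equiv.Perm (Fin n)} (hw : Strong w) (m : ℕ) (hm : 1 ≤ m) :
    ∀ (w' : Equiv.Perm (Fin n)), Strong w' → ∀ φ : Set.Iic w ≃o Set.Iic w',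
      (∀ (x : Set.Iic w) (i : ℕ), 1 ≤ i → i < n → (AA i x.1 ↔ AA i (φ x).1)) →
      (∀ i, 1 ≤ i → i + 1 < n → i < m → ∀ x : Set.Iic w,
        (UU i x.1 ↔ UU i (φ x).1) ∧ (VV i x.1 ↔ VV i (φ x).1)) →
      (Iw w).Iso (Iw w') φ :=
  X1_aux hw n m hm (by omega)

theorem strong_iso {n m : ℕ} {w : Equiv.Perm (Fin n)} {w' : Equiv.Perm (Fin m)} (hw : Strong w)
    (hw' : Strong w') (φ : Set.Iic w ≃o Set.Iic w') : (Iw w).Iso (Iw w') φ := by
  obtain rfl := same_size hw hw' φ
  rcases atoms_dichotomy hw hw' φ with h | h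
  · exact aux hw 1 le_rfl w' hw' φ h fun i h1 h2 h3 => by omega
  · obtain ⟨ψ, hψ, hiso⟩ := flip_iso w'
    have h1 : (Iw w).Iso (Iw (flip w')) (φ.trans ψ) := by
      refine aux hw 1 le_rfl (flip w') hw'.flip (φ.trans ψ) (fun x i h2 h3 => ?_)
        fun i h1 h2 h3 => by omega
      have h4 : ((φ.trans ψ) x).1 = flip (φ x).1 := hψ (φ x)
      rw [h4, AA_flip h2 h3]
      exact h x i h2 h3
    exact X1_cancel h1 hiso

end SH
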