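import Pool.Agent.LibSH29.X1
import Pool.Agent.LibSH29.D1
import Pool.Agent.LibSH29.F2
import Pool.Agent.LibSH29.F3

/-!
# The general case (row X2)

`dec` for `w` and `w'` gives `ψ`, `ψ'`; `Φ = ψ.symm.trans (φ.trans ψ')`; `factor` (`Strong.conn`), then
`strong_iso` for every factor, `Str.Iso.pi`, `Str.Iso.trans`, `Str.Iso.symm`.
-/

set_option autoImplicit false

namespace SH

theorem main_iso {n m : ℕ} (w : Equiv.Perm (Fin n)) (w' : Equiv.Perm (Fin m))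
    (φ : Set.Iic w ≃o Set.Iic w') : (Iw w).Iso (Iw w') φ := by
  obtain ⟨ι, nn, ww, hs, ψ, hψ⟩ := dec n w
  obtain ⟨κ, nn', ww', hs', ψ', hψ'⟩ := dec m w'
  let Φ : (∀ l, Set.Iic (ww l)) ≃o (∀ k, Set.Iic (ww' k)) := ψ.symm.trans (φ.trans ψ')
  obtain ⟨e, χ, hχ⟩ := factor (P := fun l => Set.Iic (ww l)) (Q := fun k => Set.Iic (ww' k))
    (fun l => (hs l).conn) (fun k => (hs' k).conn) Φ
  have h1 : (Str.pi fun l => Iw (ww l)).Iso (Str.pi fun k => Iw (ww' k)) Φ :=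
    Str.Iso.pi (A := fun l => Iw (ww l)) (B := fun k => Iw (ww' k)) e χ
      (fun l => strong_iso (hs l) (hs' (e l)) (χ l)) Φ hχ
  have h2 : (Iw w).Iso (Iw w') (ψ.trans (OrderIso.trans Φ ψ'.symm)) :=
    hψ.trans (h1.trans hψ'.symm)
  have h3 : ψ.trans (OrderIso.trans Φ ψ'.symm) = φ := by
    ext x
    change ψ'.symm (ψ' (φ (ψ.symm (ψ x)))) = φ x
    rw [OrderIso.symm_apply_apply, OrderIso.symm_apply_apply]
  rwa [h3] at h2

end SH
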