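import Pool.Agent.LibSH29.X2
import Pool.Agent.LibSH29.L4
import Pool.Agent.LibSH29.C11

/-!
# The main theorem (row X3)

`p ∈ Cell 1 v` (`cell_nonempty`), `F`, `G` from `main_iso`, `q = evm F p ∈ Cell 1 (φ v)`.
`hs v w k = hsAt (Cell 1 w) p k`, `hs (φ v) w' k = hsAt (Cell 1 w') q k` (`hs_eq_hsAt`), and `LI` with
`RMap`s with denominator `1` (`φ ⟨w, _⟩ = ⟨w', _⟩`, the top elements, so `F` maps `Cell 1 w` into
`Cell 1 w'`). `H`: `len_eq` for the top element.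
-/

set_option autoImplicit false

namespace SH

open MvPolynomial

/-- a polynomial map as a rational map with denominator `1` -/
noncomputable def polyRMap {σ τ : Type} (F : τ → MvPolynomial σ ℂ) : RMap σ τ := ⟨1, F⟩

theorem polyRMap_ok {σ τ : Type} (F : τ → MvPolynomial σ ℂ) (x : σ → ℂ) : (polyRMap F).ok x := by
  simp [polyRMap, RMap.ok]

theorem polyRMap_ev {σ τ : Type} (F : τ → MvPolynomial σ ℂ) (x : σ → ℂ) :
    (polyRMap F).ev x = fun j => eval x (F j) := by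
  funext j
  simp [polyRMap, RMap.ev]

theorem main {n m : ℕ} (w : Equiv.Perm (Fin n)) (w' : Equiv.Perm (Fin m))
    (φ : Set.Iic w ≃o Set.Iic w') :
    (∃ (F : Lo m → MvPolynomial (Lo n) ℂ) (G : Lo n → MvPolynomial (Lo m) ℂ),
      (∀ x : Set.Iic w, ∀ p ∈ Cell 1 x.1, (fun j => eval p (F j)) ∈ Cell 1 (φ x).1 ∧
        (fun i => eval (fun j => eval p (F j)) (G i)) = p) ∧
      ∀ y : Set.Iic w', ∀ q ∈ Cell 1 y.1, (fun i => eval q (G i)) ∈ Cell 1 (φ.symm y).1 ∧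
        (fun j => eval (fun i => eval q (G i)) (F j)) = q) ∧
    ∀ v : Set.Iic w, (∀ k, Nonempty (RQ (Cell v.1 w) 0 k ≃ₐ[ℂ] RQ (Cell (φ v).1 w') 0 k)) ∧
      H v.1 w = H (φ v).1 w' := by
  have hex : ∃ (F : Lo m → MvPolynomial (Lo n) ℂ) (G : Lo n → MvPolynomial (Lo m) ℂ),
      (∀ x : Set.Iic w, ∀ p ∈ Cell 1 x.1, (fun j => eval p (F j)) ∈ Cell 1 (φ x).1 ∧
        (fun i => eval (fun j => eval p (F j)) (G i)) = p) ∧
      ∀ y : Set.Iic w', ∀ q ∈ Cell 1 y.1, (fun i => eval q (G i)) ∈ Cell 1 (φ.symm y).1 ∧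
        (fun j => eval (fun i => eval q (G i)) (F j)) = q := main_iso w w' φ
  refine ⟨hex, ?_⟩
  obtain ⟨F, G, hF', hG'⟩ := hex
  have htop : φ ⟨w, le_refl w⟩ = ⟨w', le_refl w'⟩ := by
    apply le_antisymm
    · exact (φ ⟨w, le_refl w⟩).2
    · rw [← φ.symm_apply_le]
      exact (φ.symm ⟨w', le_refl w'⟩).2
  have htop' : φ.symm ⟨w', le_refl w'⟩ = ⟨w, le_refl w⟩ := by
    rw [← htop, φ.symm_apply_apply]
  have hlen : len w' = len w := by
    have h := len_eq φ ⟨w, le_refl w⟩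
    rw [htop] at h
    exact h
  intro v
  have key0 : ∀ k, Nonempty (RQ (Cell v.1 w) 0 k ≃ₐ[ℂ] RQ (Cell (φ v).1 w') 0 k) := by
    intro k
    obtain ⟨p, hp⟩ := cell_nonempty v.1
    obtain ⟨hq, hpq⟩ := hF' v p hp
    obtain ⟨e₁⟩ := RQ_equiv (w := w) hp k
    obtain ⟨e₂⟩ := RQ_equiv (w := w') hq k
    suffices h : Nonempty (RQ (Cell 1 w) p k ≃ₐ[ℂ] RQ (Cell 1 w') (fun j => eval p (F j)) k) by
      obtain ⟨e⟩ := h
      exact ⟨(e₁.trans e).trans e₂.symm⟩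
    refine LIequiv (Cell 1 w) (Cell 1 w') p (fun j => eval p (F j)) (polyRMap F) (polyRMap G)
      (polyRMap_ok F p) (polyRMap_ok G _) (polyRMap_ev F p) ?_ ?_ ?_ k
    · rw [polyRMap_ev]
      exact hpq
    · intro x hx _
      have h1 := hF' ⟨w, le_refl w⟩ x hx
      rw [htop] at h1
      rw [polyRMap_ev]
      refine ⟨h1.1, fun _ => ?_⟩
      rw [polyRMap_ev]
      exact h1.2
    · intro y hy _
      have h1 := hG' ⟨w', le_refl w'⟩ y hy
      rw [htop'] at h1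
      rw [polyRMap_ev]
      refine ⟨h1.1, fun _ => ?_⟩
      rw [polyRMap_ev]
      exact h1.2
  have key : ∀ k, hs v.1 w k = hs (φ v).1 w' k := by
    intro k
    obtain ⟨e⟩ := key0 k
    exact e.toLinearEquiv.finrank_eq
  refine ⟨key0, ?_⟩
  unfold H
  rw [hlen]
  congr 1
  congr 1
  funext k
  rw [key k, key (k - 1)]

end SH
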